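import Pool.Agent.P.MP_b49e67_gt.MA.Iter

/-! Generic bookkeeping followed by the finite support iteration. -/

open Set Function Cardinal Filter Pool.Agent.Lib.Helper87
open scoped MeasureTheory
open Pool.Agent.P.MP_92f5e0_lc (OO Closed bdd_OO)

namespace Pool.Agent.P.MP_b49e67_gt.MA

/-- iterations of bounded length with the chain condition -/
structure AA : Type where
  δ : OO
  D : Dt
  ccc : Ccc D (Iio δ)

instance : Preorder AA where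
  le a b := b.δ ≤ a.δ ∧ ∀ ξ ∈ Iio b.δ, a.D ξ = b.D ξ
  le_refl _ := ⟨le_rfl, fun _ _ => rfl⟩
  le_trans _ _ _ h h' := ⟨h'.1.trans h.1, fun ξ c => (h.2 ξ (c.trans_le h'.1)).trans (h'.2 ξ c)⟩

theorem exists_lim {ι : Type} (x : ι → AA) (h1 : #ι ≤ 𝔠) (h2 : ∀ i j, ∃ z, z ≤ x i ∧ z ≤ x j) :
    ∃ y, (∀ i, y ≤ x i) ∧ ∀ ξ < y.δ, ∃ i, ξ < (x i).δ := by
  classical
  obtain ⟨δ, a1, a2⟩ := (wellFounded_lt (α := OO)).has_min {δ | ∀ i, (x i).δ ≤ δ}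
    ((bdd_OO ι (fun i => (x i).δ) h1).imp fun _ h i => (h i).le)
  have a3 : ∀ ξ < δ, ∃ i, ξ < (x i).δ := fun ξ c => by_contra fun d =>
    a2 ξ (fun i => not_lt.1 fun e => d ⟨i, e⟩) c
  let D : Dt := fun ξ => if h : ∃ i, ξ < (x i).δ then (x h.choose).D ξ else fun _ _ => ∅
  have a4 : ∀ i, ∀ ξ ∈ Iio (x i).δ, D ξ = (x i).D ξ := fun i ξ c => by
    have h3 : ∃ i, ξ < (x i).δ := ⟨i, c⟩
    obtain ⟨z, b1, b2⟩ := h2 h3.choose i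
    exact (dif_pos h3).trans ((b1.2 ξ h3.choose_spec).symm.trans (b2.2 ξ c))
  refine ⟨⟨δ, D, ccc_limit fun ξ c => ?_⟩, fun i => ⟨a1 i, a4 i⟩, a3⟩
  obtain ⟨i, d⟩ := a3 ξ c
  exact ((x i).ccc.congr (isLowerSet_Iio _) (a4 i)).mono fun _ e => lt_of_le_of_lt e d

theorem closed_AA : Closed 𝔠 AA := fun _ x h1 h2 => (exists_lim x h1 h2).imp fun _ h => h.1

instance : Nonempty AA :=
  let ⟨y, _⟩ := exists_lim Empty.elim (mk_le_aleph0.trans aleph0_le_continuum) (·.elim); ⟨y⟩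

theorem exists_chain (J : Type) [LinearOrder J] [WellFoundedLT J] [NoMaxOrder J] [Nonempty J]
    (hJ : #J ≤ 𝔠) {R : AA → AA → Prop} (h : ∀ b, ∃ b' ≤ b, R b b') (a : AA) :
    ∃ (b b' : J → AA) (c : AA), (∀ j, b j ≤ a ∧ b' j ≤ b j ∧ c ≤ b' j ∧ R (b j) (b' j) ∧
      ∀ i < j, b j ≤ b' i) ∧ ∀ p, ∃ j, Bd (Iio (b j).δ) (rs (Iio c.δ) p) := by
  choose F f1 f2 using h
  have step : ∀ (j : J) (g : Iio j → AA), ∃ t ≤ a,
      (∀ i i', ∃ z, z ≤ g i ∧ z ≤ g i') → (∀ i, g i ≤ a) → ∀ i, t ≤ g i := fun j g => by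
    by_cases hg : (∀ i i', ∃ z, z ≤ g i ∧ z ≤ g i') ∧ (∀ i, g i ≤ a) ∧ Nonempty (Iio j)
    · obtain ⟨y, hy⟩ := closed_AA _ g ((mk_set_le _).trans hJ) hg.1
      exact ⟨y, (hy hg.2.2.some).trans (hg.2.1 _), fun _ _ => hy⟩
    · exact ⟨a, le_rfl, fun c d i => absurd ⟨c, d, ⟨i⟩⟩ hg⟩
  choose st h1 h3 using step
  obtain ⟨b, hb⟩ : ∃ b : J → AA, ∀ j, b j = st j fun i => F (b i) :=
    ⟨(wellFounded_lt (α := J)).fix fun j g => st j fun i => F (g i.1 i.2),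
      fun j => WellFounded.fix_eq _ _ _⟩
  have h4 : ∀ j, b j ≤ a := fun j => hb j ▸ h1 _ _
  have h5 : ∀ j, ∀ i < j, b j ≤ F (b i) := fun j => by
    induction j using WellFoundedLT.induction with
    | ind j ih =>
    intro i hi
    rw [hb j]
    refine h3 j (fun i => F (b i)) (fun x y => ?_) (fun x => (f1 _).trans (h4 x)) ⟨i, hi⟩
    rcases lt_trichotomy x.1 y.1 with c | c | c
    exacts [⟨_, (f1 _).trans (ih y.1 y.2 x.1 c), le_rfl⟩, ⟨_, le_rfl, c ▸ le_rfl⟩,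
      ⟨_, le_rfl, (f1 _).trans (ih x.1 x.2 y.1 c)⟩]
  obtain ⟨c, c1, c2⟩ := exists_lim (fun j => F (b j)) hJ fun x y => by
    obtain ⟨z, hz⟩ := exists_gt (max x y)
    exact ⟨b z, h5 z x ((le_max_left _ _).trans_lt hz), h5 z y ((le_max_right _ _).trans_lt hz)⟩
  refine ⟨b, fun j => F (b j), c, fun j => ⟨h4 j, f1 _, c1 j, f2 _, h5 j⟩, fun p => ?_⟩
  choose! g hg using c2
  obtain ⟨j, hj⟩ := (p.hasFiniteSupport.image g).bddAbove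
  obtain ⟨k, hk⟩ := exists_gt j
  refine ⟨k, fun ξ d => by_contra fun e => ?_⟩
  by_cases f : ξ ∈ Iio c.δ
  · exact d ((hg ξ f).trans_le (h5 k _ ((hj ⟨ξ, (rs_in f ▸ e :), rfl⟩).trans_lt hk)).1)
  · exact e (rs_out f)

/-- the conditions of the whole forcing -/
structure TT : Type where
  a : AA
  p : Cd

/-- the part of the finite condition which matters -/
noncomputable def TT.cap (t : TT) : Cd := rs (Iio t.a.δ) t.p

theorem TT.bd (t : TT) : Bd (Iio t.a.δ) t.cap := bd_rs _ _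

instance : Preorder TT where
  le t s := t.a ≤ s.a ∧ Le t.a.D t.cap s.cap
  le_refl _ := ⟨le_rfl, .refl _⟩
  le_trans _ s _ h h' := ⟨h.1.trans h'.1,
    h.2.trans (h'.2.congr (fun ξ c => (h.1.2 ξ c).symm) s.bd)⟩

instance : Nonempty TT := ⟨⟨Classical.arbitrary _, 0⟩⟩

variable {a b c : AA} {s t : TT} {p q : Cd} {Φ : World TT → Prop}

theorem le_zero : t ≤ ⟨a, 0⟩ ↔ t.a ≤ a := ⟨fun h => h.1, fun h => ⟨h, le_of_eq fun ξ => .inr (by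
  by_cases c : ξ ∈ Iio a.δ
  exacts [rs_in c, rs_out c])⟩⟩

theorem le_proj (h : t.a ≤ a) : t ≤ ⟨a, t.p⟩ :=
  ⟨h, by rw [TT.cap, TT.cap, ← rs_rs (Iio_subset_Iio h.1)]; exact le_rs _ _⟩

theorem proj_le (h : s ≤ t) (h1 : s.a ≤ a) (h2 : a ≤ t.a) : ⟨a, s.p⟩ ≤ t := ⟨h2, by
  have := h.2.rs_left (isLowerSet_Iio a.δ) (t.bd.mono (Iio_subset_Iio h2.1))
  rw [TT.cap, rs_rs (Iio_subset_Iio h1.1)] at this
  exact this.congr h1.2 (bd_rs _ _)⟩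

theorem up_le (h : a ≤ t.a) : ⟨a, t.cap⟩ ≤ t :=
  ⟨h, (Le.refl _).rs_left (isLowerSet_Iio _) (t.bd.mono (Iio_subset_Iio h.1))⟩

theorem mk_le (h : Le a.D p q) : (⟨a, p⟩ : TT) ≤ ⟨a, q⟩ := ⟨le_rfl, h.rs (isLowerSet_Iio _)⟩

theorem le_bd (h : t ≤ ⟨b, p⟩) (h1 : t.a ≤ a) (h2 : Bd (Iio b.δ) p) : t ≤ ⟨a, p⟩ := ⟨h1, by
  have := h.2
  rw [show (⟨b, p⟩ : TT).cap = p from h2.rs_eq] at this
  exact this.trans (le_rs _ _)⟩

theorem amal (h : s ≤ ⟨a, t.p⟩) (h' : t.a ≤ a) : ∃ t' ≤ t, t' ≤ ⟨a, s.p⟩ :=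
  ⟨⟨t.a, join (Iio a.δ) s.p t.p⟩, mk_le (join_le (isLowerSet_Iio _)
    ((proj_le h h.1 le_rfl).2.congr (fun ξ c => (h'.2 ξ c).symm) (bd_rs _ _))), h',
    (join_le_left _ _ _).rs_left (isLowerSet_Iio _) ((bd_rs _ _).mono (Iio_subset_Iio h'.1))⟩

theorem amal' (h : Cp a.D (rs (Iio a.δ) t.p) q) (h' : t.a ≤ a) : ∃ s ≤ t, s ≤ ⟨a, q⟩ := by
  obtain ⟨r, r1, r2⟩ := h
  obtain ⟨s, a1, a2⟩ := amal (s := ⟨a, r⟩) ((mk_le r1).trans (up_le (t := ⟨a, t.p⟩) le_rfl)) h'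
  exact ⟨s, a1, a2.trans (mk_le r2)⟩

theorem capture {D : TT → Prop} (hD : ∀ s t, s ≤ t → D t → D s)
    (hd : ∀ t, ∃ s ≤ t, D s) (a : AA) : ∃ c ≤ a, ∀ p, ∃ q, (⟨c, q⟩ : TT) ≤ ⟨c, p⟩ ∧ D ⟨c, q⟩ := by
  obtain ⟨b, b', c, h1, h2⟩ := exists_chain ℕ (mk_le_aleph0.trans aleph0_le_continuum)
    (R := fun b b' => ∀ p : {p // Bd (Iio b.δ) p}, ∃ t ≤ (⟨b, p⟩ : TT), D t ∧ b' ≤ t.a)
    (fun b => closed_AA.exists_all (mk_bd b.δ)
      (fun p s s' e ⟨t, c1, c2, c3⟩ => ⟨t, c1, c2, e.trans c3⟩) fun p s e => by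
        obtain ⟨t, c1, c2⟩ := hd ⟨s, (⟨b, p⟩ : TT).cap⟩
        exact ⟨t.a, c1.1, t, c1.trans (up_le e), c2, le_rfl⟩) a
  refine ⟨c, (h1 0).2.2.1.trans ((h1 0).2.1.trans (h1 0).1), fun p => ?_⟩
  obtain ⟨j, hj⟩ := h2 p
  obtain ⟨t, c1, c2, c3⟩ := (h1 j).2.2.2.1 ⟨_, hj⟩
  have c4 := up_le ((h1 j).2.2.1.trans c3)
  exact ⟨t.cap, (le_bd (a := c) (c4.trans c1) le_rfl hj).trans (up_le (t := ⟨c, p⟩) le_rfl),
    hD _ _ c4 c2⟩

theorem sem_proj (h : t.a ≤ a) (h' : ∀ t' ≤ t, ∃ s ≤ t', Sem (⟨a, s.p⟩ : TT) Φ) :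
    Sem (⟨a, t.p⟩ : TT) Φ := sem_of_dense fun q hq => by
  obtain ⟨t', c1, c2⟩ := amal hq h
  obtain ⟨s, c3, c4⟩ := h' t' c1
  obtain ⟨r, c5, c6⟩ := amal (c3.trans c2) hq.1
  exact ⟨r, c5, c4.mono c6⟩

/-- the properties of worlds which are determined by the iteration `a` -/
@[reducible] def det (a : AA) : MeasurableSpace (World TT) where
  MeasurableSet' S := MeasurableSet S ∧
    ∀ t : TT, t.a ≤ a → Sem t (· ∈ S) → Sem (⟨a, t.p⟩ : TT) (· ∈ S)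
  measurableSet_empty := ⟨.empty, fun t _ h =>
    (h.not_not (sem_of_ev (Eventually.of_forall fun _ h => h) t)).elim⟩
  measurableSet_compl S h := ⟨h.1.compl, fun t c d => sem_of_dense fun q hq => by
    obtain ⟨r, c1, c2⟩ := h.1 q
    refine ⟨r, c1, c2.resolve_left fun e => ?_⟩
    obtain ⟨u, c3, c4⟩ := amal (c1.trans hq) c
    exact ((h.2 r (c1.trans hq).1 e).mono c4).not_not (d.mono c3)⟩
  measurableSet_iUnion S h := ⟨.iUnion fun n => (h n).1, fun t c d => sem_proj c fun t' e => by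
    obtain ⟨s, c1, n, c2⟩ := Sem.ex (Φ := fun n w => w ∈ S n)
      (fun n => measurableSet_setOfPred.1 (h n).1) ((d.mono e).imp' fun _ => mem_iUnion.1)
    exact ⟨s, c1, ((h n).2 s ((c1.trans e).1.trans c) c2).imp' fun _ f => mem_iUnion.2 ⟨n, f⟩⟩⟩

theorem det_iff : Measurable[det a] Φ ↔
    Measurable Φ ∧ ∀ t : TT, t.a ≤ a → Sem t Φ → Sem (⟨a, t.p⟩ : TT) Φ :=
  (@measurableSet_setOfPred _ (det a) Φ).symm.trans
    (and_congr_left' measurableSet_setOfPred)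

theorem det_le : det a ≤ worldMS := fun _ h => h.1

theorem det_mono (h : a ≤ b) : det b ≤ det a := fun _ c =>
  ⟨c.1, fun t d e => (c.2 t (d.trans h) e).mono (le_proj (t := ⟨a, t.p⟩) h)⟩

theorem sem_has_le (h : Sem t fun w => w.Has s) : ∃ r ≤ t, r ≤ s := by
  obtain ⟨w, c1, c2, c3⟩ := h.exists ev_generic
  obtain ⟨r, -, c4⟩ := c3.has_and (w.has_of_mem c1) c2
  exact ⟨r, c4⟩

theorem det_has (p : Cd) : Measurable[det a] fun w => w.Has (⟨a, p⟩ : TT) :=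
  det_iff.2 ⟨measurable_has _, fun t c d => sem_proj c fun t' e => by
    obtain ⟨r, c1, c2⟩ := sem_has_le (d.mono e)
    exact ⟨r, c1, (sem_has _).mono (proj_le c2 c2.1 le_rfl)⟩⟩

theorem exists_det {ι : Type} (hι : #ι ≤ 𝔠) {Φ : ι → World TT → Prop} (h : ∀ i, Measurable (Φ i))
    (a : AA) : ∃ c ≤ a, ∀ i, Measurable[det c] (Φ i) :=
  closed_AA.exists_all hι (fun i _ _ c d => d.mono (det_mono c) le_rfl) fun i b _ => by
    obtain ⟨c, c1, c2⟩ := capture (D := fun t => Sem t (Φ i) ∨ Sem t fun w => ¬ Φ i w)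
      (fun s t c d => d.imp (·.mono c) (·.mono c)) (h i).decides b
    refine ⟨c, c1, det_iff.2 ⟨h i, fun t d e => sem_proj d fun t' f => ?_⟩⟩
    obtain ⟨q, c3, c4⟩ := c2 t'.p
    obtain ⟨u, c5, c6⟩ := amal c3 (f.1.trans d)
    have c7 := (c4.resolve_right fun g => (e.mono (c5.trans f)).not_not (g.mono c6))
    exact ⟨u, c5, c7.mono (proj_le c6 c6.1 le_rfl)⟩

theorem det_code (h : Measurable[det a] Φ) : ∃ B : Set {p // Bd (Iio a.δ) p}, B.Countable ∧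
    Sem (⟨a, 0⟩ : TT) fun w => Φ w ↔ ∃ q ∈ B, w.Has (⟨a, q⟩ : TT) := by
  obtain ⟨B, b1, b2, b3⟩ := a.ccc.predense (E := {q | Bd (Iio a.δ) q ∧ Sem (⟨a, q⟩ : TT) Φ})
    fun _ h => h.1
  refine ⟨_, b2.preimage Subtype.val_injective, (sem_of_dense (Φ := fun w => Φ w →
    ∃ q ∈ B, w.Has (⟨a, q⟩ : TT)) fun t c => ?_).imp ((ev_sem Φ).mono fun w c d =>
      ⟨fun e => let ⟨q, f, g⟩ := d e; ⟨⟨q, (b1 f).1⟩, f, g⟩, fun ⟨q, f, g⟩ => c _ g (b1 f).2⟩)⟩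
  obtain ⟨s, c1, c2 | c2⟩ := (det_iff.1 h).1.decides t
  · obtain ⟨q, c3, c4⟩ := b3 _ ⟨bd_rs _ _, ((det_iff.1 h).2 s (c1.trans c).1 c2).mono
      (up_le (t := ⟨a, s.p⟩) le_rfl)⟩
    obtain ⟨r, c5, c6⟩ := amal' (t := s) c4 (c1.trans c).1
    exact ⟨r, c5.trans c1, ((sem_has _).mono c6).imp' fun _ d _ => ⟨q, c3, d⟩⟩
  · exact ⟨s, c1, c2.imp' fun _ d e => absurd e d⟩

theorem cover {ι T : Type} (hι : #ι ≤ 𝔠) {Φ : ι → T → World TT → Prop}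
    (h : ∀ i x, Measurable (Φ i x)) (a : AA) : ∃ c ≤ a, ∀ i, ∃ S : Set T, S.Countable ∧
      ∀ x ∉ S, Sem (⟨c, 0⟩ : TT) fun w => Φ i x w → ∃ y, w.In y ∧ Φ i y w ∧ y ≠ x :=
  closed_AA.exists_all hι (fun i _ _ c ⟨S, d, e⟩ => ⟨S, d, fun x f => (e x f).mono (le_zero.2 c)⟩)
    fun i b _ => by
    let Ψ : T → World TT → Prop := fun x w => ¬ (Φ i x w → ∃ y, w.In y ∧ Φ i y w ∧ y ≠ x)
    have h1 : ∀ x, Measurable (Ψ x) := fun x =>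
      ((h i x).imp (measurable_ex_in fun y => (h i y).and measurable_const)).not
    have h2 : ∀ t x y, Sem t (Ψ x) → Sem t (Ψ y) → x = y := fun t x y c d => by
      obtain ⟨w, -, c1, c2⟩ := (c.and d).exists (ev_const x)
      exact by_contra fun e => c1.2 fun _ => ⟨x, c2, (Classical.not_imp.1 c1.1).1, e⟩
    obtain ⟨c, c1, c2⟩ := capture (D := fun t => (∃ x, Sem t (Ψ x)) ∨ ∀ x, Sem t fun w => ¬ Ψ x w)
      (fun s t c d => d.imp (·.imp fun _ e => e.mono c) fun e x => (e x).mono c) (fun t => by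
        by_cases c : ∀ x, Sem t fun w => ¬ Ψ x w
        · exact ⟨t, le_rfl, .inr c⟩
        · obtain ⟨x, hx⟩ := not_forall.1 c
          exact (exists_sem (h1 x) hx).imp fun _ d => ⟨d.1, .inl ⟨x, d.2⟩⟩) b
    obtain ⟨B, b1, b2, b3⟩ := c.ccc.predense (E := {q | Bd (Iio c.δ) q ∧
      ∃ x, Sem (⟨c, q⟩ : TT) (Ψ x)}) fun _ h => h.1
    refine ⟨c, c1, _, b2.biUnion (t := fun q _ => {x | Sem (⟨c, q⟩ : TT) (Ψ x)}) fun q _ =>
      Subsingleton.countable fun x d y e => h2 _ x y d e, fun x hx => by_contra fun d => ?_⟩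
    obtain ⟨t, d1, d2⟩ := exists_sem (h1 x) fun e => d (e.imp' fun _ => not_not.1)
    obtain ⟨q, d3, d4⟩ := c2 t.p
    obtain ⟨u, d5, d6⟩ := amal d3 d1.1
    obtain ⟨y, d7⟩ := d4.resolve_right fun e => (d2.mono d5).not_not ((e x).mono d6)
    obtain ⟨r, d8, d9⟩ := b3 _ ⟨bd_rs _ _, y, d7.mono ((up_le (t := ⟨c, u.p⟩) le_rfl).trans
      (proj_le d6 d6.1 le_rfl))⟩
    obtain ⟨v, e1, e2⟩ := amal' (t := u) d9 d6.1
    obtain ⟨z, e3⟩ := (b1 d8).2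
    exact hx (mem_biUnion d8 (h2 v z x (e3.mono e2) (d2.mono (e1.trans d5)) ▸ e3))

end Pool.Agent.P.MP_b49e67_gt.MA
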