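import Pool.Agent.P.MP_b49e67_gt.MA.Nodes

/-! Finite combinatorics of coded points: reflection along trees of boxes and amalgamation. -/

open Set Function PiNat

namespace Pool.Agent.P.MP_b49e67_gt.MA

abbrev Y : Type := ℕ → Bool × Bool × Bool × Bool

def px (c : Y) : X := (fun i => (c i).1, fun i => (c i).2.1)

def Ap (m : ℕ) (x y : Y) : Prop := ∀ i < m, x i = y i

def BiAt (j : ℕ) (x y : Y) : Prop :=
  ((x j).2.2.1 = true ∧ (y j).2.2.2 = true) ∨ ((x j).2.2.2 = true ∧ (y j).2.2.1 = true)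

def K0 (u : Finset Nd) (N : ℕ) (x y : Y) : Prop :=
  (∃ n < N, Spl n (px x).1 (px y).1 ∧ Gf n = u) ∧ ∃ j < N, BiAt j x y

def Sep (m : ℕ) (x y : Y) : Prop := (∃ n < m, (x n).1 ≠ (y n).1) ∧ ∃ j < m, BiAt j x y

def In (b : Bx) (y : Y) : Prop := res y b.length = b

def Near (u : Finset Nd) (m : ℕ) (x : Y) (b : Bx) : Prop :=
  ∃ z, In b z ∧ m ≤ b.length ∧ Ap m x z ∧ K0 u b.length x z

def Gen (x : Y) (T : Bx → Prop) (u : Finset Nd) (m : ℕ) : Prop :=
  (∀ n, T (res x n)) → ∃ b, T b ∧ Near u m x b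

def Cl (T : List Bx → Prop) : List Y → List Bx → Prop
  | [], l => T l
  | x :: w, l => ∀ n, Cl T w (res x n :: l)

variable {Z : Type} (γ : Z → Y)

noncomputable def cs (S : Set Z) : Nd → Bool := code ((fun x => px (γ x)) '' S)

def Nrm (s : Finset Z) (m : ℕ) : Prop := ∀ x ∈ s, ∀ y ∈ s, x ≠ y → Sep m (γ x) (γ y)

def LeQ (s' : Finset Z) (m' : ℕ) (s : Finset Z) (m : ℕ) : Prop :=
  s ⊆ s' ∧ m ≤ m' ∧ (∀ y ∈ s', ∃ x ∈ s, Ap m (γ x) (γ y)) ∧ ∀ y ∈ s', ∀ y' ∈ s', ∀ n, m ≤ n →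
    Spl n (px (γ y)).1 (px (γ y')).1 → Ag m (gb (Gf n)) (cs γ s)

/-- the condition `k` matches the pattern -/
def Mt (s0 : Finset Z) (m : ℕ) (l : List Bx) (k : Finset Z × ℕ) : Prop :=
  k.2 = m ∧ s0 ⊆ k.1 ∧ (∀ y ∈ k.1, y ∈ s0 ∨ ∃ b ∈ l, In b (γ y)) ∧ ∀ b ∈ l, ∃ y ∈ k.1, In b (γ y)

variable {γ} {m n j : ℕ} {x y z x' y' : Y} {u : Finset Nd}

theorem Ap.refl (m : ℕ) (x : Y) : Ap m x x := fun _ _ => rfl
theorem Ap.symm (h : Ap m x y) : Ap m y x := fun i hi => (h i hi).symm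
theorem Ap.trans (h : Ap m x y) (h' : Ap m y z) : Ap m x z := fun i hi => (h i hi).trans (h' i hi)
theorem Ap.mono (h : Ap m x y) (hn : n ≤ m) : Ap n x y := fun i hi => h i (hi.trans_le hn)

theorem Ap.nd (h : Ap m x y) (hk : n ≤ m) : nd n (px x) = nd n (px y) :=
  nd_eq.2 fun _ hi => ⟨congrArg (·.1) (h _ (hi.trans_le hk)), congrArg (·.2.1) (h _ (hi.trans_le hk))⟩

theorem BiAt.symm (h : BiAt j x y) : BiAt j y x := by
  unfold BiAt at *; tauto

theorem BiAt.congr (h : BiAt j x y) (hj : j < m) (hx : Ap m x x') (hy : Ap m y y') :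
    BiAt j x' y' := by
  unfold BiAt at *
  rwa [← hx j hj, ← hy j hj]

theorem spl_congr (h : Spl n (px x).1 (px y).1) (hn : n < m) (hx : Ap m x x') (hy : Ap m y y') :
    Spl n (px x').1 (px y').1 := by
  simp only [Spl, px] at *
  exact ⟨by rw [← hx n hn, ← hy n hn]; exact h.1, fun i hi => by
    rw [← hx i (hi.trans hn), ← hy i (hi.trans hn)]; exact h.2 i hi⟩

theorem Sep.congr (h : Sep m x y) (hx : Ap m x x') (hy : Ap m y y') : Sep m x' y' := by
  obtain ⟨⟨n, a, b⟩, j, c, d⟩ := h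
  exact ⟨⟨n, a, by rw [← hx n a, ← hy n a]; exact b⟩, j, c, d.congr c hx hy⟩

theorem Sep.mono (h : Sep m x y) (hn : m ≤ n) : Sep n x y := by
  obtain ⟨⟨k, a, b⟩, j, c, d⟩ := h
  exact ⟨⟨k, a.trans_le hn, b⟩, j, c.trans_le hn, d⟩

theorem Sep.not_ap (h : Sep m x y) : ¬ Ap m x y := fun h' =>
  let ⟨⟨_, a, b⟩, _⟩ := h
  b (congrArg (·.1) (h' _ a))

theorem Sep.lt (h : Sep m x y) (h' : Spl n (px x).1 (px y).1) : n < m := by
  obtain ⟨⟨k, a, b⟩, -⟩ := h
  by_contra c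
  exact b (h'.2 k (a.trans_le (not_lt.1 c)))

theorem K0.symm (h : K0 u n x y) : K0 u n y x :=
  let ⟨⟨n, e, a, b⟩, j, f, c⟩ := h
  ⟨⟨n, e, a.symm, b⟩, j, f, c.symm⟩

theorem K0.sep (h : K0 u n x y) : Sep n x y :=
  let ⟨⟨n, e, a, _⟩, c⟩ := h
  ⟨⟨n, e, a.1⟩, c⟩

theorem in_res (n : ℕ) (x : Y) : In (res x n) x := by simp [In]

theorem Near.out {b : Bx} (h : Near u m x b) (hy : In b y) : Ap m x y ∧ K0 u b.length x y := by
  obtain ⟨z, a, c, d, ⟨n, e, f, g⟩, j, i, k⟩ := h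
  have l : Ap b.length z y := fun i hi => res_eq_res.1 (a.trans hy.symm) hi
  exact ⟨d.trans (l.mono c), ⟨n, e, spl_congr f e (Ap.refl _ _) l, g⟩, j, i,
    k.congr i (Ap.refl _ _) l⟩

theorem cs_nd {S : Set Z} {k : ℕ} {p : X} :
    cs γ S (nd k p) = true ↔ ∃ x ∈ S, nd k (px (γ x)) = nd k p := by
  simp [cs, code_nd]

theorem cs_iff {S : Set Z} {v : Nd} :
    cs γ S v = true ↔ ∃ x ∈ S, nd v.1.length (px (γ x)) = v := by
  simp [cs, code]

theorem cs_ag {S T : Set Z} (h : ∀ y ∈ T, ∃ x ∈ S, Ap m (γ x) (γ y))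
    (h' : ∀ x ∈ S, ∃ y ∈ T, Ap m (γ x) (γ y)) : Ag m (cs γ S) (cs γ T) := fun v hv => by
  rw [Bool.eq_iff_iff, cs_iff, cs_iff]
  constructor
  · rintro ⟨x, a, b⟩
    obtain ⟨y, c, d⟩ := h' x a
    exact ⟨y, c, (d.nd hv).symm.trans b⟩
  · rintro ⟨y, a, b⟩
    obtain ⟨x, c, d⟩ := h y a
    exact ⟨x, c, (d.nd hv).trans b⟩

variable {s s' s'' : Finset Z} {m' m'' : ℕ}

theorem exists_u (γ : Z → Y) (s : Finset Z) (m : ℕ) : ∃ u, Ag m (gb u) (cs γ s) := by
  classical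
  simpa [cs] using exists_fin (s.image fun x => px (γ x)) m

theorem Nrm.leQ (h : Nrm γ s m) (hm : m ≤ m') : LeQ γ s m' s m :=
  ⟨subset_rfl, hm, fun y hy => ⟨y, hy, Ap.refl _ _⟩, fun y hy y' hy' _ hn hs =>
    absurd ((h y hy y' hy' fun e => hs.1 (e ▸ rfl)).lt hs) (not_lt.2 hn)⟩

theorem LeQ.trans (h : LeQ γ s'' m'' s' m') (h' : LeQ γ s' m' s m) : LeQ γ s'' m'' s m := by
  refine ⟨h'.1.trans h.1, h'.2.1.trans h.2.1, fun y hy => ?_, fun y hy y' hy' n hn hs => ?_⟩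
  · obtain ⟨x, a, b⟩ := h.2.2.1 y hy
    obtain ⟨z, c, d⟩ := h'.2.2.1 x a
    exact ⟨z, c, d.trans (b.mono h'.2.1)⟩
  · by_cases c : m' ≤ n
    · exact fun v hv => (h.2.2.2 y hy y' hy' n c hs v (hv.trans h'.2.1)).trans
        (cs_ag h'.2.2.1 (fun x hx => ⟨x, h'.1 hx, Ap.refl _ _⟩) v hv).symm
    · obtain ⟨x, a, b⟩ := h.2.2.1 y hy
      obtain ⟨x', a', b'⟩ := h.2.2.1 y' hy'
      exact h'.2.2.2 x a x' a' n hn (spl_congr hs (not_le.1 c) b.symm b'.symm)

theorem cl_of {T : List Bx → Prop} (xs : List Y) : ∀ pre : List Bx,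
    (∀ l, (∀ b ∈ l, b ∈ pre ∨ ∃ x ∈ xs, In b x) → pre ⊆ l → (∀ x ∈ xs, ∃ b ∈ l, In b x) → T l) →
    Cl T xs pre := by
  induction xs with
  | nil => exact fun pre h => h pre (fun _ => .inl) (List.Subset.refl _) (by simp)
  | cons x w ih =>
    refine fun pre h n => ih _ fun l a b c => h l (fun β d => ?_)
      (fun _ d => b (List.mem_cons_of_mem _ d))
      (List.forall_mem_cons.2 ⟨⟨_, b List.mem_cons_self, in_res n x⟩, c⟩)
    rcases a β d with e | ⟨y, e, f⟩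
    · rcases List.mem_cons.1 e with rfl | e
      exacts [.inr ⟨x, List.mem_cons_self, in_res n x⟩, .inl e]
    · exact .inr ⟨y, List.mem_cons_of_mem _ e, f⟩

/-- reflection -/
theorem reflect {T : List Bx → Prop} (xs : List Z) : ∀ pre : List Bx,
    (∀ x w, x :: w <:+ xs → ∀ l, Gen (γ x) (fun b => Cl T (w.map γ) (b :: l)) u m) →
    Cl T (xs.map γ) pre → ∃ l, T l ∧ (∀ b ∈ l, b ∈ pre ∨ ∃ x ∈ xs, Near u m (γ x) b) ∧
      pre ⊆ l ∧ ∀ x ∈ xs, ∃ b ∈ l, Near u m (γ x) b := by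
  induction xs with
  | nil => exact fun pre _ h => ⟨pre, h, fun _ => .inl, List.Subset.refl _, by simp⟩
  | cons x w ih =>
    intro pre h h'
    obtain ⟨b, b1, b2⟩ := h x w List.suffix_rfl pre h'
    obtain ⟨l, l1, l2, l3, l4⟩ := ih _ (fun x' w' c => h x' w' (c.trans (List.suffix_cons _ _))) b1
    refine ⟨l, l1, fun β d => ?_, fun _ d => l3 (List.mem_cons_of_mem _ d),
      List.forall_mem_cons.2 ⟨⟨b, l3 List.mem_cons_self, b2⟩, l4⟩⟩
    rcases l2 β d with e | ⟨y, e, f⟩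
    · rcases List.mem_cons.1 e with rfl | e
      exacts [.inr ⟨x, List.mem_cons_self, b2⟩, .inl e]
    · exact .inr ⟨y, List.mem_cons_of_mem _ e, f⟩

/-- amalgamation -/
theorem amalg [DecidableEq Z] (hu : Ag m (gb u) (cs γ s)) (hs : Nrm γ s m) (hs' : Nrm γ s' m)
    (h : ∀ y ∈ s', y ∈ s ∨ ∃ x ∈ s, Ap m (γ x) (γ y) ∧ ∃ N, K0 u N (γ x) (γ y))
    (h' : ∀ x ∈ s, ∃ y ∈ s', Ap m (γ x) (γ y)) :
    ∃ m', Nrm γ (s ∪ s') m' ∧ LeQ γ (s ∪ s') m' s m ∧ LeQ γ (s ∪ s') m' s' m := by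
  have h1 : ∀ y ∈ s ∪ s', ∃ x ∈ s, Ap m (γ x) (γ y) := fun y hy => by
    rcases Finset.mem_union.1 hy with c | c
    · exact ⟨y, c, Ap.refl _ _⟩
    · exact (h y c).elim (fun c => ⟨y, c, Ap.refl _ _⟩) fun ⟨x, a, b, _⟩ => ⟨x, a, b⟩
  have h2 : ∀ x ∈ s, ∀ y ∈ s', x ≠ y → Ap m (γ x) (γ y) → ∃ N, K0 u N (γ x) (γ y) :=
    fun x hx y hy n e => by
    rcases h y hy with c | ⟨z, a, b, c⟩
    · exact absurd e (hs x hx y c n).not_ap
    · obtain rfl : x = z := not_not.1 fun n' => (hs x hx z a n').not_ap (e.trans b.symm)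
      exact c
  have h3 : ∀ y ∈ s ∪ s', ∀ z ∈ s ∪ s', y ≠ z → Sep m (γ y) (γ z) ∨ ∃ N, K0 u N (γ y) (γ z) := by
    intro y hy z hz n
    obtain ⟨x, a, b⟩ := h1 y hy
    obtain ⟨x', a', b'⟩ := h1 z hz
    by_cases e : x = x'
    · subst e
      have e := b.symm.trans b'
      rcases Finset.mem_union.1 hy with c | c <;> rcases Finset.mem_union.1 hz with d | d
      exacts [.inl (hs y c z d n), .inr (h2 y c z d n e),
        .inr ((h2 z d y c n.symm e.symm).imp fun _ => K0.symm), .inl (hs' y c z d n)]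
    · exact .inl ((hs x a x' a' e).congr b b')
  have h4 : ∀ p : Z × Z, ∃ N, p.1 ∈ s ∪ s' → p.2 ∈ s ∪ s' → p.1 ≠ p.2 → Sep N (γ p.1) (γ p.2) :=
    fun p => by
      by_cases c : p.1 ∈ s ∪ s' ∧ p.2 ∈ s ∪ s' ∧ p.1 ≠ p.2
      · exact (h3 _ c.1 _ c.2.1 c.2.2).elim (fun d => ⟨m, fun _ _ _ => d⟩) fun d =>
          d.imp fun _ d _ _ _ => d.sep
      · exact ⟨0, fun a b d => absurd ⟨a, b, d⟩ c⟩
  choose N hN using h4
  have h5 : ∀ y ∈ s ∪ s', ∀ y' ∈ s ∪ s', ∀ n, m ≤ n → Spl n (px (γ y)).1 (px (γ y')).1 →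
      Ag m (gb (Gf n)) (cs γ s) := fun y hy y' hy' n hn e => by
    rcases h3 y hy y' hy' fun c => e.1 (c ▸ rfl) with c | ⟨_, ⟨n', -, a, b⟩, -⟩
    · exact absurd (c.lt e) (not_lt.2 hn)
    · rwa [e.unique a, b]
  refine ⟨m + ((s ∪ s') ×ˢ (s ∪ s')).sup N, fun x hx y hy n => (hN (x, y) hx hy n).mono
    ((Finset.le_sup (f := N) (Finset.mk_mem_product hx hy)).trans (Nat.le_add_left _ _)),
    ⟨Finset.subset_union_left, Nat.le_add_right _ _, h1, h5⟩, Finset.subset_union_right,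
    Nat.le_add_right _ _, fun y hy => ?_, fun y hy y' hy' n hn e v hv =>
      (h5 y hy y' hy' n hn e v hv).trans (cs_ag (fun y hy => h1 y
        (Finset.mem_union_right _ hy)) h' v hv)⟩
  obtain ⟨x, a, b⟩ := h1 y hy
  obtain ⟨z, c, d⟩ := h' x a
  exact ⟨z, c, d.symm.trans b⟩

/-- a directed family of conditions of unbounded length gives a self-coding tree -/
theorem good_of {G : Set (Finset Z × ℕ)} (g0 : ∀ p ∈ G, Nrm γ p.1 p.2)
    (g1 : ∀ p ∈ G, ∀ q ∈ G, ∃ r ∈ G, LeQ γ r.1 r.2 p.1 p.2 ∧ LeQ γ r.1 r.2 q.1 q.2)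
    (g2 : ∀ k, ∃ p ∈ G, k ≤ p.2) : Good (cs γ {x | ∃ p ∈ G, x ∈ p.1}) ∧
      {x | ∃ p ∈ G, x ∈ p.1}.Pairwise fun x y => ∃ j, BiAt j (γ x) (γ y) := by
  let H : Set Z := {x | ∃ p ∈ G, x ∈ p.1}
  have h1 : ∀ p ∈ G, ∀ x ∈ H, ∀ y ∈ H, ∃ r ∈ G, LeQ γ r.1 r.2 p.1 p.2 ∧ x ∈ r.1 ∧ y ∈ r.1 := by
    rintro p hp x ⟨q, a, b⟩ y ⟨q', a', b'⟩
    obtain ⟨r, c1, c2, c3⟩ := g1 q a q' a'
    obtain ⟨r', d1, d2, d3⟩ := g1 p hp r c1
    exact ⟨r', d1, d2, d3.1 (c2.1 b), d3.1 (c3.1 b')⟩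
  have h2 : ∀ p ∈ G, ∀ y ∈ H, ∃ x ∈ p.1, Ap p.2 (γ x) (γ y) := fun p hp y hy =>
    let ⟨_, _, b, c, _⟩ := h1 p hp y hy y hy
    b.2.2.1 y c
  refine ⟨fun k => ?_, fun x hx y hy n => ?_⟩
  · obtain ⟨p, hp, hk⟩ := g2 k
    refine ⟨p.2, fun n hn x y hx hy e v hv => ?_, fun x y hx hy e => ?_⟩
    · obtain ⟨x', a, b⟩ := cs_nd.1 hx
      obtain ⟨y', a', b'⟩ := cs_nd.1 hy
      obtain ⟨r, -, c1, c2, c3⟩ := h1 p hp x' a y' a'
      rw [nd_eq] at b b'
      refine (c1.2.2.2 x' c2 y' c3 n hn ⟨?_, fun i hi => ?_⟩ v (hv.trans hk)).trans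
        (cs_ag (h2 p hp) (fun x hx => ⟨x, ⟨p, hp, hx⟩, Ap.refl _ _⟩) v (hv.trans hk))
      · rw [(b n n.lt_succ_self).1, (b' n n.lt_succ_self).1]; exact e.1
      · rw [(b i (by omega)).1, (b' i (by omega)).1]; exact e.2 i hi
    · obtain ⟨x', a, b⟩ := cs_nd.1 hx
      obtain ⟨y', a', b'⟩ := cs_nd.1 hy
      obtain ⟨z, c, d⟩ := h2 p hp x' a
      obtain ⟨z', c', d'⟩ := h2 p hp y' a'
      have f := nd_eq.1 ((d.nd le_rfl).trans b)
      have f' := nd_eq.1 ((d'.nd le_rfl).trans b')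
      obtain rfl : z = z' := not_not.1 fun n => by
        obtain ⟨⟨i, i1, i2⟩, -⟩ := g0 p hp z c z' c' n
        exact i2 ((f i i1).1.trans ((res_eq_res.1 e i1).trans (f' i i1).1.symm))
      exact res_eq_res.2 fun i hi => (f i (hi.trans_le hk)).2.symm.trans (f' i (hi.trans_le hk)).2
  · obtain ⟨p, hp, -⟩ := id hx
    obtain ⟨r, c0, -, c1, c2⟩ := h1 p hp x hx y hy
    exact (g0 r c0 x c1 y c2 n).2.imp fun j h => h.2

section meas
variable {W : Type*} [MeasurableSpace W]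

theorem meas_res {α : Type} [MeasurableSpace α] [MeasurableSingletonClass α] [Countable α]
    {f : W → ℕ → α} (hf : Measurable f) (n : ℕ) {Q : List α → W → Prop}
    (hQ : ∀ l, Measurable (Q l)) : Measurable fun w => Q (res (f w) n) w := by
  have h : ∀ n l, Measurable fun w => res (f w) n = l := fun n => by
    induction n with
    | zero => simp
    | succ n ih =>
      rintro (_ | ⟨b, l⟩)
      · simp
      · simpa [res_succ] using (((measurable_pi_apply n).comp hf).eq_const b).and (ih l)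
  simpa using Measurable.exists fun l => (h n l).and (hQ l)

theorem meas_nd {f : W → X} (hf : Measurable f) (n : ℕ) {Q : Nd → W → Prop}
    (hQ : ∀ l, Measurable (Q l)) : Measurable fun w => Q (nd n (f w)) w :=
  meas_res hf.fst n (Q := fun l w => Q (l, res (f w).2 n) w) fun l =>
    meas_res hf.snd n (Q := fun l' w => Q (l, l') w) fun _ => hQ _

theorem meas_px {f : W → Y} (hf : Measurable f) : Measurable fun w => px (f w) := by
  unfold px
  fun_prop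

theorem meas_in {f : W → Y} (hf : Measurable f) (b : Bx) : Measurable fun w => In b (f w) :=
  meas_res hf _ (Q := fun l _ => l = b) fun _ => measurable_const

theorem meas_near {f : W → Y} (hf : Measurable f) (b : Bx) :
    Measurable fun w => Near u m (f w) b := by
  convert meas_res hf b.length (Q := fun l _ => ∃ x, res x b.length = l ∧ Near u m x b)
    fun _ => measurable_const using 2 with w
  refine ⟨fun h => ⟨_, rfl, h⟩, fun ⟨x, e, z, a, c, d, ⟨n, f1, f2, f3⟩, j, g1, g2⟩ => ?_⟩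
  have l : Ap b.length x (f w) := fun i hi => res_eq_res.1 e hi
  exact ⟨z, a, c, (l.mono c).symm.trans d, ⟨n, f1, spl_congr f2 f1 l (Ap.refl _ _), f3⟩, j, g1,
    g2.congr g1 l (Ap.refl _ _)⟩

theorem meas_gen {f : W → Y} (hf : Measurable f) {T : Bx → W → Prop} (hT : ∀ b, Measurable (T b)) :
    Measurable fun w => Gen (f w) (T · w) u m :=
  (Measurable.forall fun n => meas_res hf n hT).imp
    (Measurable.exists fun b => (hT b).and (meas_near hf b))

variable {g : Z → W → Y}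

theorem meas_cl {T : List Bx → W → Prop} (hT : ∀ l, Measurable (T l)) (xs : List Z) :
    (∀ x ∈ xs, Measurable (g x)) → ∀ l, Measurable fun w => Cl (T · w) (xs.map (g · w)) l := by
  induction xs with
  | nil => exact fun _ => hT
  | cons x xs ih =>
    exact fun h l => Measurable.forall fun n => meas_res (h x List.mem_cons_self) n
      (Q := fun b w => Cl (T · w) (xs.map (g · w)) (b :: l))
      fun _ => ih (fun y c => h y (List.mem_cons_of_mem _ c)) _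

theorem meas_ball (s : Finset Z) {Q : Z → W → Prop} (h : ∀ x ∈ s, Measurable (Q x)) :
    Measurable fun w => ∀ x ∈ s, Q x w := by
  simpa only [Subtype.forall] using Measurable.forall fun x : s => h x x.2

theorem meas_bex (s : Finset Z) {Q : Z → W → Prop} (h : ∀ x ∈ s, Measurable (Q x)) :
    Measurable fun w => ∃ x ∈ s, Q x w := by
  simpa only [Subtype.exists, exists_prop] using Measurable.exists fun x : s => h x x.2

theorem meas_mt {s0 : Finset Z} {l : List Bx} {k : Finset Z × ℕ} (h : ∀ x ∈ k.1, Measurable (g x)) :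
    Measurable fun w => Mt (g · w) s0 m l k :=
  measurable_const.and (measurable_const.and ((meas_ball _ fun x c => measurable_const.or
    (Measurable.exists fun b => measurable_const.and (meas_in (h x c) b))).and
    (Measurable.forall fun b => measurable_const.imp (meas_bex _ fun x c => meas_in (h x c) b))))

theorem meas_nrm (h : ∀ x, Measurable (g x)) : Measurable fun w => Nrm (g · w) s m :=
  meas_ball _ fun x _ => meas_ball _ fun y _ => measurable_const.imp (by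
    have := h x
    have := h y
    unfold Sep BiAt
    fun_prop)

theorem meas_leQ (h : ∀ x, Measurable (g x)) : Measurable fun w => LeQ (g · w) s' m' s m := by
  refine measurable_const.and (measurable_const.and ((meas_ball _ fun y _ => meas_bex _ fun x _ =>
    ?_).and (meas_ball _ fun x _ => meas_ball _ fun y _ => Measurable.forall fun n =>
      measurable_const.imp (Measurable.imp ?_ (Measurable.forall fun v =>
        measurable_const.imp ?_)))))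
  · have := h x
    have := h y
    unfold Ap
    fun_prop
  · have := h x
    have := h y
    unfold Spl px
    fun_prop
  · convert (measurable_const (a := gb (Gf n) v = true)).iff (meas_bex s fun x _ => meas_nd
      (meas_px (h x)) v.1.length (Q := fun l _ => l = v) fun _ => measurable_const) using 2 with w
    rw [Bool.eq_iff_iff, cs_iff]
    rfl

end meas

end Pool.Agent.P.MP_b49e67_gt.MA
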