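import Pool.Agent.Lib.Helper87.CodeDefs
import Pool.Agent.P.MP_b49e67_gt.ConDefs

namespace Pool.Agent.P.MP_b49e67_gt

open Pool.Agent.Lib.Helper87

/-- Martin's axiom in `M` for families of at most `κ` many dense sets: `r` is the set of pairs
`(x, y)` with `x` below `y` -/
def MAIn (M : Set ZFSet.{0}) (κ : ZFSet.{0}) : Prop :=
  ∀ P ∈ M, ∀ r ∈ M, (∃ x, x ∈ P) → (∀ x ∈ P, x.pair x ∈ r) →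
    (∀ x ∈ P, ∀ y ∈ P, ∀ z ∈ P, x.pair y ∈ r → y.pair z ∈ r → x.pair z ∈ r) →
    (∀ A ∈ M, A ⊆ P → (∀ x ∈ A, ∀ y ∈ A, x ≠ y → ¬ ∃ z ∈ P, z.pair x ∈ r ∧ z.pair y ∈ r) →
      CardLE M A ZFSet.omega) →
    ∀ 𝒟 ∈ M, CardLE M 𝒟 κ → (∀ D ∈ 𝒟, ∀ x ∈ P, ∃ y ∈ P, y ∈ D ∧ y.pair x ∈ r) →
      ∃ G ∈ M, G ⊆ P ∧ (∀ x ∈ G, ∀ y ∈ P, x.pair y ∈ r → y ∈ G) ∧
        (∀ x ∈ G, ∀ y ∈ G, ∃ z ∈ G, z.pair x ∈ r ∧ z.pair y ∈ r) ∧ ∀ D ∈ 𝒟, ∃ x ∈ G, x ∈ D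

end Pool.Agent.P.MP_b49e67_gt
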