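import Pool.Agent.P.MP_b49e67_gt.MA.Martin

/-! The size of the continuum, and Martin's axiom below it. -/

open Set Function Cardinal Filter Pool.Agent.Lib.Helper87 Pool.Agent.P.MP_6e1b89_gt
open Pool.Agent.P.MP_92f5e0_lc (OO Om mk_prod_le mk_Om bdd_OO mk_Iio_OO)

namespace Pool.Agent.P.MP_b49e67_gt.MA

/-- the power set of the natural numbers in the extension -/
noncomputable def PW (w : World TT) : ZFSet.{0} := cSet (cSet cNat) {A | cSet cNat A ∈ w.M}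

theorem named_PW : Named PW :=
  named_cSet (c := fun _ => cSet cNat) (g := fun c w => rval w c) (fun c => (ms_rval c).named)
    (Φ := fun _ _ => True) (fun _ => measurable_const) (by
      filter_upwards [ev_exists_rval, ev_rval_mem] with w a b A
      exact ⟨fun h => (a A h).imp fun _ c => ⟨c.1, trivial, c.2⟩, fun ⟨c, d, _, e⟩ => e ▸ b c d⟩)

theorem mem_PW (w : World TT) (z : ZFSet.{0}) : z ∈ PW w ↔ z ∈ w.M ∧ z ⊆ ZFSet.omega := by
  rw [PW, mem_cSet]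
  constructor
  · rintro ⟨A, a, rfl⟩
    exact ⟨a, fun y b => let ⟨n, _, c⟩ := mem_cSet.1 b; mem_omega_iff.2 ⟨n, c⟩⟩
  · rintro ⟨a, b⟩
    have : cSet cNat {n | cNat n ∈ z} = z := ZFSet.ext fun y => mem_cSet.trans
      ⟨fun ⟨_, c, d⟩ => d ▸ c, fun c => by
        obtain ⟨n, rfl⟩ := mem_omega_iff.1 (b c)
        exact ⟨n, c, rfl⟩⟩
    exact ⟨_, show cSet cNat {n | cNat n ∈ z} ∈ w.M by rwa [this], this⟩

theorem ev_big : ∀ᶠ w in gen TT, ¬ CardLE w.M (PW w) (w.ordTop Om) := by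
  have m : ∀ τ, MS fun w => {n | TR τ w n = true} := fun τ n =>
    ((measurable_pi_apply n).comp (meas_TR τ)).eq_const _
  have : ∀ᶠ w in gen TT, ∀ f ∈ w.M, ZFSet.IsFunc (PW w) (w.ordTop Om) f →
      ¬ ∀ x x' y, ZFSet.pair x y ∈ f → ZFSet.pair x' y ∈ f → x = x' :=
    ev_all_named fun f hf => ev_of_dense fun t => by
      obtain ⟨c, c1, c2⟩ := cover mk_Om
        (fun (α : Om) (τ : OO) => ((m τ).named.pair (named_ord α)).measurable_mem hf) t.a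
      choose S s1 s2 using c2
      choose e he using fun k => countable_iff_exists_subset_range.1 (s1 k)
      obtain ⟨τ, a4⟩ := bdd_OO (Om × ℕ) (fun x => e x.1 x.2)
        (mk_prod_le mk_Om (mk_le_aleph0.trans aleph0_le_continuum))
      refine ⟨_, up_le c1, ?_⟩
      filter_upwards [(m τ).ev_mem, ev_all fun α => (s2 α τ fun i => let ⟨n, g⟩ := he _ i
        (a4 (α, n)).ne g).mono (le_zero.2 (le_refl (⟨c, t.cap⟩ : TT).a)),
        ev_all fun η => ev_imp (ev_TR_ne (ξ := η) (η := τ))] with w e1 e2 e0 e3 e4 e5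
      obtain ⟨y, i, -⟩ := e4.2 _ (mem_cSet.2 ⟨_, e1, rfl⟩)
      obtain ⟨α, e9, rfl⟩ := w.mem_ordTop.1 (ZFSet.pair_mem_prod.1 (e4.1 i)).2
      obtain ⟨β, e6, e7, e8⟩ := e2 α e9 e3 i
      exact e0 β e6 e8 (funext fun n => Bool.eq_iff_iff.2
        (Set.ext_iff.1 (cSet_inj cNat_inj (e5 _ _ _ e7 i)) n))
  exact this.mono fun w h ⟨f, a, b, c⟩ => h f a b c

theorem exists_list : ∃ Z : OO → World TT → Set ℕ, (∀ ξ, MS (Z ξ)) ∧
    ∀ᶠ w in gen TT, ∀ A, cSet cNat A ∈ w.M → ∃ ξ, w.In ξ ∧ Z ξ w = A := by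
  let K := Σ δ : OO, ℕ → {B : Set {p // Bd (Iio δ) p} // #B ≤ ℵ₀}
  have c1 : #K ≤ #OO := by
    rw [mk_sigma]
    refine (sum_le_sum _ (fun _ => 𝔠) fun δ => ?_).trans ?_
    · rw [← power_def]
      exact (power_le_power_right ((mk_bounded_set_le _ _).trans ((power_le_power_right
        (max_le (mk_bd _) aleph0_le_continuum)).trans_eq continuum_power_aleph0))).trans
        ((power_le_power_left continuum_ne_zero mk_le_aleph0).trans_eq continuum_power_aleph0)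
    · rw [sum_const', mk_ord_toType]
      exact (mul_le_mul_right (Order.le_succ _) _).trans_eq
        (mul_eq_self (aleph0_le_continuum.trans (Order.le_succ _)))
  obtain ⟨g⟩ := (le_def _ _).1 c1
  have : Nonempty K := ⟨⟨Classical.arbitrary _, fun _ => ⟨∅, by simp⟩⟩⟩
  let H : Cd → World TT → Prop := fun q w => w.Frc fun t => Le t.a.D t.cap q
  have m1 : ∀ q, Measurable (H q) := fun q =>
    measurable_frc fun s t c d => c.2.trans (d.congr (fun ξ e => (c.1.2 ξ e).symm) s.bd)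
  refine ⟨fun ξ w => {n | ∃ q ∈ ((invFun g ξ).2 n).1, H q w}, fun ξ n => ?_,
    ev_all_ms (Φ := fun A w => ∃ ξ, w.In ξ ∧ _ = A) fun A hA => ev_of_dense fun t => ?_⟩
  · have := (le_aleph0_iff_set_countable.1 ((invFun g ξ).2 n).2).to_subtype
    simpa only [Subtype.exists (p := (· ∈ ((invFun g ξ).2 n).1)), exists_prop, mem_ofPred_eq] using
      Measurable.exists fun q : ((invFun g ξ).2 n).1 => m1 q
  · obtain ⟨a, a1, a2⟩ := exists_det (mk_le_aleph0.trans aleph0_le_continuum) hA t.a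
    choose B b1 b2 using fun n => det_code (a2 n)
    let k : K := ⟨a.δ, fun n => ⟨B n, le_aleph0_iff_set_countable.2 (b1 n)⟩⟩
    refine ⟨_, up_le a1, ?_⟩
    filter_upwards [ev_const (g k), ev_call b2, ev_generic] with w e1 e2 e3 e4
    have e5 := e4.mono (le_zero.2 le_rfl : (⟨a, t.cap⟩ : TT) ≤ ⟨a, 0⟩)
    refine ⟨_, e1, Set.ext fun n => ?_⟩
    rw [leftInverse_invFun g.injective k, e2 n e5]
    refine exists_congr fun q => and_congr_right fun _ => ⟨fun ⟨u, u1, u2⟩ => ?_,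
      fun ⟨u, u1, u2⟩ => ⟨u, u1, q.2.rs_eq ▸ u2.2⟩⟩
    obtain ⟨r, r1, r2, r3⟩ := e3.has_and (w.has_of_mem u1) e5
    exact ⟨r, r1, r3.1, (r2.2.trans (u2.congr (fun ξ e => (r2.1.2 ξ e).symm) u.bd)).trans
      (le_rs _ _)⟩

theorem exists_enum {κ : World TT → ZFSet.{0}} (hκ : Named κ) :
    ∃ N : OO → ZFSet.{0} → World TT → Prop,
      (∀ ξ x, Named x → Measurable fun w => N ξ (x w) w) ∧ (∀ ξ x y w, N ξ x w → N ξ y w → x = y) ∧
      ∀ᶠ w in gen TT, ¬ CardLE w.M (PW w) (κ w) →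
        ∃ ξ, w.In ξ ∧ ∀ x ∈ κ w, ∃ η, w.In η ∧ η < ξ ∧ N η x w := by
  obtain ⟨I, x, Φ, h1, h2, h3⟩ := hκ.exists_index
  obtain ⟨Z, z1, z2⟩ := exists_list
  let S : ∀ ξ : OO, (∀ η, η < ξ → I → World TT → Prop) → I → World TT → Prop := fun ξ rc i w =>
    Φ i w ∧ ∀ η, w.In η → ∀ h : η < ξ, ∀ j, w.In j → rc η h j w →
      (∀ k, w.In k → WellOrderingRel k j → ¬ rc η h k w) → x j w ≠ x i w
  let Q : OO → I → World TT → Prop := (wellFounded_lt (α := OO)).fix S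
  let N : OO → I → World TT → Prop := fun ξ i w =>
    Q ξ i w ∧ ∀ k, w.In k → WellOrderingRel k i → ¬ Q ξ k w
  have q1 : ∀ ξ i w, Q ξ i w ↔ Φ i w ∧ ∀ η, w.In η → η < ξ → ∀ j, w.In j → N η j w →
      x j w ≠ x i w := fun ξ i w => by
    change (wellFounded_lt (α := OO)).fix S ξ i w ↔ _
    rw [WellFounded.fix_eq]
    simp only [S, N, and_imp]
    rfl
  have q2 : ∀ ξ i, Measurable (Q ξ i) := fun ξ => by
    induction ξ using WellFoundedLT.induction with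
    | ind ξ ih =>
    refine fun i => ((h2 i).and (measurable_all_in fun η => measurable_dimp fun h : η < ξ =>
      measurable_all_in fun j => ((ih η h j).and (measurable_all_in fun k => measurable_const.imp
        (ih η h k).not)).imp ((h1 j).measurable_eq (h1 i)).not)).congr_ev
      (Eventually.of_forall (q1 ξ i))
  have q3 : ∀ ξ i, Measurable (N ξ i) := fun ξ i =>
    (q2 ξ i).and (measurable_all_in fun k => measurable_const.imp (q2 ξ k).not)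
  have q4 : ∀ ξ i j w, w.In i → w.In j → N ξ i w → N ξ j w → i = j := fun ξ i j w a b c d => by
    rcases trichotomous_of WellOrderingRel i j with e | e | e
    exacts [absurd c.1 (d.2 i a e), e, absurd d.1 (c.2 j b e)]
  refine ⟨fun ξ y w => ∃ i, w.In i ∧ N ξ i w ∧ x i w = y, fun ξ y hy => measurable_ex_in fun i =>
    (q3 ξ i).and ((h1 i).measurable_eq hy), fun ξ y y' w ⟨i, a, b, c⟩ ⟨j, d, e, f⟩ =>
    c ▸ f ▸ q4 ξ i j w a d b e ▸ rfl, ?_⟩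
  filter_upwards [h3, z2, ev_all fun ξ => (z1 ξ).ev_mem, ev_in_prod OO I,
    ev_cardLE (I := OO × I) (a := fun k w => cSet cNat (Z k.1 w)) (fun k => (z1 _).named)
    (b := fun k => x k.2) (fun k => h1 _) (Φ := fun k w => N k.1 k.2 w ∧ ∀ η, w.In η → η < k.1 →
      Z η w ≠ Z k.1 w) fun k => (q3 _ _).and (measurable_all_in fun η => measurable_const.imp
      ((z1 _).meas_eq (z1 _)).not)] with w a1 a2 a3 a4 a5 a6
  by_contra a7
  refine a6 (a5 _ _ (fun z c => ?_) (fun k c d => ⟨mem_cSet.2 ⟨_, a3 _ ((a4 k).1 c).1, rfl⟩,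
    (a1 _).2 ⟨_, ((a4 k).1 c).2, ((q1 _ _ _).1 d.1.1).1, rfl⟩⟩) fun k l c d e f => ?_)
  · obtain ⟨A, c1, rfl⟩ := mem_cSet.1 c
    obtain ⟨ξ, ⟨c2, rfl⟩, c3⟩ := (wellFounded_lt (α := OO)).has_min _ (a2 A c1)
    obtain ⟨i, ⟨c4, c5⟩, c6⟩ := (IsWellFounded.wf (r := WellOrderingRel)).has_min
      {i | w.In i ∧ Q ξ i w} (by
        by_contra d
        refine a7 ⟨ξ, c2, fun y e => by_contra fun f => ?_⟩
        obtain ⟨i, e1, e2, rfl⟩ := (a1 y).1 e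
        exact d ⟨i, e1, (q1 _ _ _).2 ⟨e2, fun η g1 g2 j g3 g4 g5 => f ⟨η, g1, g2, j, g3, g4, g5⟩⟩⟩)
    exact ⟨(ξ, i), (a4 _).2 ⟨c2, c4⟩, ⟨⟨c5, fun k d e f => c6 k ⟨d, f⟩ e⟩,
      fun η d e f => c3 η ⟨d, f⟩ e⟩, rfl⟩
  · obtain ⟨c1, c2⟩ := (a4 k).1 c
    obtain ⟨d1, d2⟩ := (a4 l).1 d
    rw [(cSet_inj cNat_inj).eq_iff]
    rcases lt_trichotomy k.1 l.1 with g | g | g
    · exact iff_of_false (f.2 _ c1 g) (((q1 _ _ _).1 f.1.1).2 _ c1 g _ c2 e.1)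
    · exact iff_of_true (by rw [g]) (by rw [q4 _ _ _ w c2 d2 (g ▸ e.1) f.1])
    · exact iff_of_false (e.2 _ d1 g).symm (((q1 _ _ _).1 e.1.1).2 _ d1 g _ d2 f.1).symm

theorem ev_ma : ∀ᶠ w in gen TT, ∀ κ ∈ w.M, ¬ CardLE w.M (PW w) κ → MAIn w.M κ :=
  ev_all_named fun κ hκ => by
  obtain ⟨N, n1, n2, n3⟩ := exists_enum hκ
  filter_upwards [n3, ev_all fun ξ : OO => ev_in_subtype (· ∈ Iio ξ), ev_all fun ξ : OO =>
    ev_all fun P => ev_all fun r => ev_all fun D => ev_all fun f : Name TT =>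
    ma_core (mk_Iio_OO ξ) (named_val P) (named_val r) (named_val D)
      (lab := fun η D w => ∃ y ∈ κ w, N η y w ∧ D.pair y ∈ w.val f) (fun η D hD =>
        named_bex hκ (Φ := fun y w => N η y w ∧ (D w).pair y ∈ w.val f) fun y hy =>
          (n1 η y hy).and ((hD.pair hy).measurable_mem (named_val f)))
      (Θ := fun w => _ ∧ _ ∧ _ ∧ _ ∧ _ ∧ _ ∧ _) (fun _ h => h.1) (fun _ h => h.2.1)
      (fun _ h => h.2.2.1) (fun _ h => h.2.2.2.1) (fun _ h => h.2.2.2.2.1)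
      (fun _ h => h.2.2.2.2.2.1) fun _ h => h.2.2.2.2.2.2] with w e1 e2 h c
  rintro _ ⟨P, a1, rfl⟩ _ ⟨r, a2, rfl⟩ b1 b2 b3 b4 _ ⟨D, a3, rfl⟩ ⟨_, ⟨f, a4, rfl⟩, b5, b6⟩ b7
  obtain ⟨ξ, c1, c2⟩ := e1 c
  refine h ξ c1 P a1 r a2 D a3 f a4 ⟨b1, b2, b3, b4, fun E d => ?_,
    fun η E E' ⟨y, _, d1, d2⟩ ⟨y', _, d3, d4⟩ => b6 _ _ _ d2 (n2 _ _ _ _ d3 d1 ▸ d4), b7⟩
  obtain ⟨y, d1, -⟩ := b5.2 E d
  have d2 := (ZFSet.pair_mem_prod.1 (b5.1 d1)).2
  obtain ⟨η, d3, d4, d5⟩ := c2 y d2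
  exact ⟨⟨η, d4⟩, (e2 ξ c1 _).2 d3, y, d2, d5, d1⟩

end Pool.Agent.P.MP_b49e67_gt.MA
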