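import Pool.Agent.P.MP_92f5e0_lc.Card

/-! Finite support iterations given by names, and the chain condition at limits. -/

open Set Function Cardinal
open Pool.Agent.P.MP_92f5e0_lc (OO mk_prod_le mk_finset_le mk_Iio_OO mk_RR)

namespace Pool.Agent.P.MP_b49e67_gt.MA

abbrev Ω : Type := ℕ → ℕ

/-- values of coordinates -/
@[ext] structure Wv : Type where
  i : Option Ω
  s : List Bool

instance : Zero Wv := ⟨⟨none, []⟩⟩

@[simp] theorem zero_i : (0 : Wv).i = none := rfl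
@[simp] theorem zero_s : (0 : Wv).s = [] := rfl

abbrev Cd : Type := OO →₀ Wv

abbrev Dt : Type := OO → Ω → Ω → Set Cd

open Classical in
noncomputable def join (I : Set OO) (r p : Cd) : Cd :=
  Finsupp.ofSupportFinite (fun ξ => if ξ ∈ I then r ξ else p ξ)
    ((r.hasFiniteSupport.union p.hasFiniteSupport).subset fun ξ h => by
      by_cases c : ξ ∈ I
      exacts [.inl (by simpa [c] using h), .inr (by simpa [c] using h)])

noncomputable def rs (I : Set OO) (p : Cd) : Cd := join I p 0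

def Bd (I : Set OO) (p : Cd) : Prop := ∀ ξ, ξ ∉ I → p ξ = 0

variable {I J : Set OO} {p q r : Cd} {ξ : OO} {D D' : Dt}

theorem join_in (h : ξ ∈ I) : join I r p ξ = r ξ := if_pos h
theorem join_out (h : ξ ∉ I) : join I r p ξ = p ξ := if_neg h
theorem rs_in (h : ξ ∈ I) : rs I p ξ = p ξ := if_pos h
theorem rs_out (h : ξ ∉ I) : rs I p ξ = 0 := if_neg h
theorem bd_rs (I : Set OO) (p : Cd) : Bd I (rs I p) := fun _ => rs_out
theorem Bd.mono (h : Bd I p) (h' : I ⊆ J) : Bd J p := fun ξ c => h ξ fun d => c (h' d)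

theorem rs_congr (h : ∀ ξ ∈ I, p ξ = q ξ) : rs I p = rs I q := Finsupp.ext fun ξ => by
  by_cases c : ξ ∈ I
  · rw [rs_in c, rs_in c, h ξ c]
  · rw [rs_out c, rs_out c]

theorem Bd.rs_eq (h : Bd I p) : rs I p = p := Finsupp.ext fun ξ => by
  by_cases c : ξ ∈ I
  exacts [rs_in c, (rs_out c).trans (h ξ c).symm]

theorem rs_rs (h : I ⊆ J) (p : Cd) : rs I (rs J p) = rs I p := rs_congr fun _ c => rs_in (h c)

theorem Bd.rs (h : Bd I p) (J : Set OO) : Bd I (rs J p) := fun ξ c => by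
  by_cases d : ξ ∈ J
  exacts [(rs_in d).trans (h ξ c), rs_out d]

/-- the order of the iteration and the forced order of the iterands -/
inductive Rl (D : Dt) : Cd → Cd ⊕ OO × Option Ω × Option Ω → Prop
  | le {q p : Cd} : (∀ ξ, (p ξ).s <:+ (q ξ).s) →
      (∀ ξ, Rl D (rs (Iio ξ) q) (.inr (ξ, (q ξ).i, (p ξ).i))) → Rl D q (.inl p)
  | refl {q ξ i} : Rl D q (.inr (ξ, i, i))
  | top {q ξ i} : Rl D q (.inr (ξ, i, none))
  | base {q ξ i j y} : y ∈ D ξ i j → Rl D q (.inl y) → Rl D q (.inr (ξ, some i, some j))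
  | trans {q ξ i j k} : Rl D q (.inr (ξ, i, j)) → Rl D q (.inr (ξ, j, k)) → Rl D q (.inr (ξ, i, k))

def Le (D : Dt) (q p : Cd) : Prop := Rl D q (.inl p)

theorem le_iff : Le D q p ↔ ∀ ξ, (p ξ).s <:+ (q ξ).s ∧
    Rl D (rs (Iio ξ) q) (.inr (ξ, (q ξ).i, (p ξ).i)) :=
  ⟨fun h => by cases h with | le a b => exact fun ξ => ⟨a ξ, b ξ⟩,
    fun h => .le (fun ξ => (h ξ).1) fun ξ => (h ξ).2⟩

theorem le_of_eq (h : ∀ ξ, p ξ = q ξ ∨ p ξ = 0) : Le D q p := le_iff.2 fun ξ => by
  rcases h ξ with c | c <;> rw [c]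
  exacts [⟨List.suffix_rfl, .refl⟩, ⟨List.nil_suffix, .top⟩]

theorem Le.refl (p : Cd) : Le D p p := le_of_eq fun _ => .inl rfl

theorem le_rs (I : Set OO) (p : Cd) : Le D p (rs I p) := le_of_eq fun ξ => by
  by_cases c : ξ ∈ I
  exacts [.inl (rs_in c), .inr (rs_out c)]

theorem Le.rs (h : Le D q p) (hI : IsLowerSet I) : Le D (rs I q) (rs I p) := le_iff.2 fun ξ => by
  by_cases c : ξ ∈ I
  · rw [rs_in c, rs_in c, rs_rs (I := Iio ξ) fun _ d => hI (le_of_lt d) c]
    exact le_iff.1 h ξ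
  · rw [rs_out c, rs_out c]
    exact ⟨List.suffix_rfl, .refl⟩

theorem Rl.mono {x} (h : Rl D q x) (hr : Le D r q) : Rl D r x := by
  induction h generalizing r with
  | le a _ ih => exact .le (fun ξ => (a ξ).trans (le_iff.1 hr ξ).1) fun ξ =>
      (le_iff.1 hr ξ).2.trans (ih ξ (hr.rs (isLowerSet_Iio ξ)))
  | refl => exact .refl
  | top => exact .top
  | base a _ ih => exact .base a (ih hr)
  | trans _ _ ih ih' => exact (ih hr).trans (ih' hr)

theorem Le.trans (h : Le D r q) (h' : Le D q p) : Le D r p := h'.mono h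

theorem Rl.none {x} (h : Rl D q x) : ∀ ξ j, x = .inr (ξ, none, j) → j = none := by
  induction h with
  | le => simp
  | refl => simp +contextual [eq_comm]
  | top => simp +contextual [eq_comm]
  | base => simp
  | trans _ _ ih ih' =>
    rintro ξ j ⟨⟩
    exact ih' _ _ (by rw [ih _ _ rfl])

theorem Le.bd (h : Le D q p) (hq : Bd I q) : Bd I p := fun ξ c => by
  have := le_iff.1 h ξ
  rw [hq ξ c] at this
  exact Wv.ext (this.2.none _ _ rfl) (List.suffix_nil.1 this.1)

theorem Rl.congr (hD : ∀ ξ ∈ I, D ξ = D' ξ) {x} (h : Rl D q x) (hq : Bd I q)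
    (hx : ∀ ξ i j, x = .inr (ξ, some i, j) → ξ ∈ I) : Rl D' q x := by
  induction h with
  | le a _ ih =>
    refine .le a fun ξ => ih ξ (hq.rs _) fun η i j e => by_contra fun c => ?_
    simp only [Sum.inr.injEq, Prod.mk.injEq] at e
    simp [e.1, hq η c] at e
  | refl => exact .refl
  | top => exact .top
  | base a _ ih => exact .base (hD _ (hx _ _ _ rfl) ▸ a) (ih hq (by simp))
  | @trans q ξ i j k a _ ih ih' =>
    refine (ih hq fun η i j e => ?_).trans (ih' hq fun η i' j e => ?_)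
    · cases e
      exact hx _ _ _ rfl
    · cases e
      cases i with
      | none => cases a.none _ _ rfl
      | some i => exact hx _ _ _ rfl

theorem Le.congr (hD : ∀ ξ ∈ I, D ξ = D' ξ) (h : Le D q p) (hq : Bd I q) : Le D' q p :=
  Rl.congr hD h hq (by simp)

theorem Le.rs_left (h : Le D q p) (hI : IsLowerSet I) (hp : Bd I p) : Le D (MA.rs I q) p :=
  hp.rs_eq ▸ h.rs hI

theorem join_le_left (I : Set OO) (r p : Cd) : Le D (join I r p) (rs I r) := le_of_eq fun ξ => by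
  by_cases c : ξ ∈ I
  exacts [.inl ((rs_in c).trans (join_in c).symm), .inr (rs_out c)]

theorem join_le (hI : IsLowerSet I) (h : Le D (rs I r) (rs I p)) : Le D (join I r p) p :=
  le_iff.2 fun ξ => by
    by_cases c : ξ ∈ I
    · have := le_iff.1 h ξ
      rw [rs_in c, rs_in c, rs_rs (I := Iio ξ) fun _ d => hI (le_of_lt d) c] at this
      rwa [join_in c, rs_congr (I := Iio ξ) (q := r) fun η d => join_in (hI (le_of_lt d) c)]
    · rw [join_out c]
      exact ⟨List.suffix_rfl, .refl⟩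

/-- compatibility -/
def Cp (D : Dt) (p q : Cd) : Prop := ∃ r, Le D r p ∧ Le D r q

theorem Cp.symm (h : Cp D p q) : Cp D q p := let ⟨r, a, b⟩ := h; ⟨r, b, a⟩

/-- the chain condition for the conditions with support in `I` -/
def Ccc (D : Dt) (I : Set OO) : Prop :=
  ∀ A : Set Cd, (∀ p ∈ A, Bd I p) → (A.Pairwise fun p q => ¬ Cp D p q) → A.Countable

theorem Ccc.mono (h : Ccc D J) (h' : I ⊆ J) : Ccc D I := fun A a => h A fun p c => (a p c).mono h'

theorem Ccc.congr (hI : IsLowerSet I) (hD : ∀ ξ ∈ I, D' ξ = D ξ) (h : Ccc D I) : Ccc D' I :=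
  fun A a b => h A a fun p c q d e ⟨r, r1, r2⟩ => b c d e ⟨rs I r,
    (r1.rs_left hI (a p c)).congr (fun ξ e => (hD ξ e).symm) (bd_rs _ _),
    (r2.rs_left hI (a q d)).congr (fun ξ e => (hD ξ e).symm) (bd_rs _ _)⟩

theorem exists_maximal {α : Type} (R : α → α → Prop) (hR : ∀ x y, R x y → R y x) (E : Set α) :
    ∃ B ⊆ E, B.Pairwise R ∧ ∀ x ∈ E, (∀ y ∈ B, R x y) → x ∈ B := by
  obtain ⟨m, hm⟩ := zorn_subset {S | S ⊆ E ∧ S.Pairwise R}
    fun c hc hch => ⟨⋃₀ c, ⟨sUnion_subset fun t ht => (hc ht).1,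
      (pairwise_sUnion hch.directedOn).2 fun t ht => (hc ht).2⟩, fun _ => subset_sUnion_of_mem⟩
  exact ⟨m, hm.prop.1, hm.prop.2, fun x hx h => hm.le_of_ge (y := insert x m)
    ⟨insert_subset hx hm.prop.1, hm.prop.2.insert fun b hb _ => ⟨h b hb, hR _ _ (h b hb)⟩⟩
    (subset_insert x m) (mem_insert x m)⟩

theorem Ccc.predense (h : Ccc D I) {E : Set Cd} (hE : ∀ p ∈ E, Bd I p) :
    ∃ B ⊆ E, B.Countable ∧ ∀ p ∈ E, ∃ q ∈ B, Cp D p q := by
  obtain ⟨B, a, b, c⟩ := exists_maximal (fun p q => ¬ Cp D p q) (fun _ _ h h' => h h'.symm) E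
  refine ⟨B, a, h B (fun p d => hE p (a d)) b, fun p hp => by_contra fun d => ?_⟩
  push Not at d
  exact d p (c p hp d) ⟨p, .refl p, .refl p⟩

theorem Ccc.indexed (h : Ccc D I) {T : Type} {S : Set T} {g : T → Cd} (hg : ∀ x, Bd I (g x))
    (h' : S.Pairwise fun x y => ¬ Cp D (g x) (g y)) : S.Countable := by
  refine countable_of_injective_of_countable_image (f := g) (fun x a y b e => by_contra fun c =>
    h' a b c ⟨g y, e ▸ .refl _, .refl _⟩) (h _ (forall_mem_image.2 fun x _ => hg x) ?_)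
  rintro _ ⟨x, a, rfl⟩ _ ⟨y, b, rfl⟩ c
  exact h' a b fun e => c (e ▸ rfl)

theorem ccc_limit {δ : OO} (h : ∀ ξ < δ, Ccc D (Iic ξ)) : Ccc D (Iio δ) := by
  have fin : ∀ (I : Set OO) (p : Cd), {ξ | ξ ∉ I ∧ p ξ ≠ 0}.Finite := fun I p =>
    p.hasFiniteSupport.subset fun _ c => c.2
  have key : ∀ n, ∀ I, IsLowerSet I → Ccc D I → ∀ A : Set Cd, (∀ p ∈ A, Bd (Iio δ) p) →
      (A.Pairwise fun p q => ¬ Cp D p q) → (∀ p ∈ A, {ξ | ξ ∉ I ∧ p ξ ≠ 0}.ncard ≤ n) →
      A.Countable := by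
    intro n
    induction n with
    | zero =>
      refine fun I _ c A _ a b => c A (fun p hp ξ d => by_contra fun e => ?_) a
      exact (((ncard_pos (fin I p)).2 ⟨ξ, d, e⟩).trans_le (b p hp)).false
    | succ n ih =>
      intro I hI c A a0 a b
      let S : Cd → Cd → Prop := fun p q => ∀ ξ, ξ ∉ I → p ξ ≠ 0 → ∀ η, η ∉ I → q η ≠ 0 → ξ < η
      have h1 : ∀ p q, S p q → Cp D (rs I p) (rs I q) → Cp D p q := fun p q s ⟨r, r1, r2⟩ => by
        let J : Set OO := {ζ | ζ ∈ I ∨ ∃ ξ, p ξ ≠ 0 ∧ ζ ≤ ξ}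
        have j1 : IsLowerSet J := fun x y e f => f.imp (hI e) fun ⟨ξ, g1, g2⟩ => ⟨ξ, g1, e.trans g2⟩
        have j2 : Bd J p := fun ξ e => by_contra fun f => e (.inr ⟨ξ, f, le_rfl⟩)
        have j3 : rs J q = rs I q := Finsupp.ext fun ζ => by
          by_cases e : ζ ∈ I
          · rw [rs_in e, rs_in (show ζ ∈ J from .inl e)]
          · rw [rs_out e]
            by_cases f : ζ ∈ J
            · obtain ⟨ξ, g1, g2⟩ := f.resolve_left e
              exact (rs_in f).trans (by_contra fun g =>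
                (s ξ (fun i => e (hI g2 i)) g1 ζ e g).not_ge g2)
            · exact rs_out f
        have j4 : Le D (join I r p) p := join_le hI (r1.rs_left hI (bd_rs _ _))
        refine ⟨join J (join I r p) q, (join_le_left _ _ _).trans (j4.rs_left j1 j2),
          join_le j1 (j3 ▸ ((join_le_left _ _ _).trans (r2.rs_left hI (bd_rs _ _))).rs_left j1
            ((bd_rs _ _).mono fun _ => .inl))⟩
      obtain ⟨B, b1, b2, b3⟩ := exists_maximal (fun p q => S p q ∨ S q p) (fun _ _ => Or.symm) A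
      have b4 : B.Countable := c.indexed (bd_rs I) fun p e q f g i =>
        a (b1 e) (b1 f) g ((b2 e f g).elim (h1 p q · i) fun j => (h1 q p j i.symm).symm)
      refine (b4.union (b4.biUnion fun p e => p.support.countable_toSet.biUnion
        (t := fun ξ _ => {q ∈ A | ∃ η ≤ ξ, η ∉ I ∧ q η ≠ 0}) fun ξ f => ?_)).mono fun q hq => ?_
      · refine ih (I ∪ Iic ξ) (hI.union (isLowerSet_Iic ξ)) ?_ _ (fun q g => a0 q g.1)
          (a.mono (sep_subset _ _)) fun q g => let ⟨η, g2, g3, g4⟩ := g.2; Nat.le_of_lt_succ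
            ((ncard_lt_ncard ⟨fun ζ i => And.intro (fun j => i.1 (.inl j)) i.2,
              fun i => (@i η ⟨g3, g4⟩).1 (.inr g2)⟩ (fin I q)).trans_le (b q g.1))
        by_cases g : ξ ∈ I
        · exact c.mono (union_subset subset_rfl fun _ i => hI i g)
        · exact (h ξ (by_contra fun i => Finsupp.mem_support_iff.1 f (a0 p (b1 e) ξ i))).mono
            (union_subset (fun ζ i => not_lt.1 fun j => g (hI j.le i)) subset_rfl)
      · by_cases e : ∀ p ∈ B, S p q
        · exact .inl (b3 q hq fun p f => .inr (e p f))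
        · simp only [S, not_forall, not_lt] at e
          obtain ⟨p, e1, ξ, -, e3, η, e4, e5, e6⟩ := e
          exact .inr (mem_biUnion e1 (mem_biUnion (Finsupp.mem_support_iff.2 e3)
            ⟨hq, η, e6, e4, e5⟩))
  intro A a b
  refine (countable_iUnion fun n => key n ∅ isLowerSet_empty (fun A c _ => ?_)
    {p ∈ A | {ξ | ξ ∉ (∅ : Set OO) ∧ p ξ ≠ 0}.ncard = n} (fun p c => a p c.1)
    (b.mono (sep_subset _ _)) fun p c => c.2.le).mono fun p c => by simpa using c
  exact (countable_singleton 0).mono fun p d => Finsupp.ext fun ξ => c p d ξ id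

theorem mk_bd (δ : OO) : #{p : Cd // Bd (Iio δ) p} ≤ 𝔠 := by
  have h1 : #Wv ≤ 𝔠 := (mk_le_of_injective (f := fun x : Wv => (x.i, x.s))
    fun x y e => Wv.ext (Prod.mk.inj e).1 (Prod.mk.inj e).2).trans (mk_prod_le (by
      rw [mk_option, mk_RR]
      exact add_le_of_le aleph0_le_continuum le_rfl (one_le_aleph0.trans aleph0_le_continuum))
      (mk_le_aleph0.trans aleph0_le_continuum))
  refine (mk_le_of_injective (f := fun p : {p : Cd // Bd (Iio δ) p} =>
    (p.1.subtypeDomain (· ∈ Iio δ)).graph) fun p q e => Subtype.ext (Finsupp.ext fun ξ => ?_)).trans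
    (mk_finset_le (mk_prod_le (mk_Iio_OO δ) h1))
  by_cases c : ξ ∈ Iio δ
  · exact DFunLike.congr_fun (Finsupp.graph_injective _ _ e) ⟨ξ, c⟩
  · rw [p.2 ξ c, q.2 ξ c]

end Pool.Agent.P.MP_b49e67_gt.MA
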