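import Pool.Agent.P.MP_b49e67_gt.MA.Step
import Pool.Agent.P.MP_b49e67_gt.MA.Comb
import Pool.Agent.P.MP_b49e67_gt.Ult

/-! The step which adds a self-coding tree with an uncountable biorthogonal family. -/

open Set Function Cardinal Filter Pool.Agent.Lib.Helper87 PiNat
open scoped MeasureTheory
open Pool.Agent.P.MP_92f5e0_lc (OO Om mk_prod_le mk_finset_le mk_Om bdd_OO countable_Iic_Om)

namespace Pool.Agent.P.MP_b49e67_gt.MA

theorem res_suffix {α : Type} (x : ℕ → α) {N n : ℕ} (h : N ≤ n) : res x N <:+ res x n :=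
  Nat.le_induction List.suffix_rfl (fun _ _ ih => ih.trans (List.suffix_cons _ _)) n h

theorem exists_sorted {W : Type} [LinearOrder W] (T : Finset W) :
    ∃ l : List W, (∀ x, x ∈ l ↔ x ∈ T) ∧ l.Pairwise fun x y => y < x :=
  ⟨T.sort (· ≥ ·), by simp, T.sortedGT_sort.pairwise⟩

variable {c : OO → OO → World TT → Y} (h0 : ∀ δ τ, Measurable (c δ τ))
  (h1 : ∀ δ τ w, (px (c δ τ w)).1 = TR δ w)
  (h2 : ∀ δ τ τ', τ ≠ τ' → ∀ᶠ w in gen TT,
    ∃ j, (c δ τ w j).2.2.1 = true ∧ (c δ τ' w j).2.2.2 = true)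

include h1 h2 in
theorem uniq {b : AA} {T : Bx → World TT → Prop} (hT : ∀ β, Measurable[det b] (T β))
    (u : Finset Nd) (m : ℕ) {τ τ' : OO} (h : τ ≠ τ') : Sem (⟨b, 0⟩ : TT) fun w =>
      res (c b.δ τ w) m = res (c b.δ τ' w) m → (∀ n, T (res (c b.δ τ' w) n) w) →
        ∃ β, T β w ∧ Near u m (c b.δ τ w) β := by
  filter_upwards [h2 b.δ τ τ' h, ev_call fun j : ℕ => ev_call fun β0 : Bx => cohen (a := b)
    (S := fun σ w => ∃ β, T β w ∧ ∃ z : Y, res z σ.length = β ∧ res (px z).1 σ.length = σ ∧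
      res z m = β0 ∧ (z j).2.2.2 = true) fun σ => by
      let _ := det b
      exact Measurable.exists fun β => (hT β).and measurable_const]
    with w ⟨j, j1, j2⟩ a1 a2 a3 a4
  obtain ⟨N, hN⟩ := a1 j _ a2 fun n => ⟨_, a4 n, c b.δ τ' w, by simp, by simp [h1], rfl, j2⟩
  obtain ⟨n, n1, n2⟩ := exists_Gf u (N + m + j + 1)
  obtain ⟨β, b1, z, b2, b3, b4, b5⟩ := hN ((!TR b.δ w n) :: res (TR b.δ w) n)
    ((res_suffix _ (by omega)).trans (List.suffix_cons _ _))
  simp only [List.length_cons, res_length, res_succ (px z).1, List.cons.injEq] at b2 b3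
  subst b2
  refine ⟨_, b1, z, in_res _ _, by simp; omega, fun i e => res_eq_res.1 (a3.trans b4.symm) e,
    ⟨n, by simp, ⟨?_, fun i e => ?_⟩, n2⟩, j, by simp; omega, .inl ⟨j1, b5⟩⟩
  · simp [h1, b3.1]
  · rw [h1, res_eq_res.1 b3.2 e]

include h0 h1 h2 in
theorem exists_good (b : AA) : ∃ b' ≤ b, ∃ τ, Measurable[det b'] (c b.δ τ) ∧
    ∀ T : Bx → World TT → Prop, (∀ β, Measurable[det b] (T β)) → ∀ u m,
      Sem (⟨b', 0⟩ : TT) fun w => Gen (c b.δ τ w) (T · w) u m := by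
  have c0 : ∀ (S : Type) [Countable S], #S ≤ 𝔠 := fun _ _ => mk_le_aleph0.trans aleph0_le_continuum
  let K := (Bx → {B : Set {p // Bd (Iio b.δ) p} // #B ≤ ℵ₀}) × Finset Nd × ℕ × Bx
  have c1 : #K ≤ 𝔠 := mk_prod_le (by
    rw [← power_def]
    refine (power_le_power_right ((mk_bounded_set_le _ _).trans ((power_le_power_right
      (max_le (mk_bd _) aleph0_le_continuum)).trans_eq continuum_power_aleph0))).trans
      ((power_le_power_left continuum_ne_zero mk_le_aleph0).trans_eq continuum_power_aleph0))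
    (c0 _)
  let T : K → Bx → World TT → Prop := fun k β w => ∃ q ∈ (k.1 β).1, w.Has (⟨b, q⟩ : TT)
  have m1 : ∀ k β, Measurable[det b] (T k β) := fun k β => by
    have := (le_aleph0_iff_set_countable.1 (k.1 β).2).to_subtype
    let _ := det b
    simpa only [Subtype.exists (p := (· ∈ (k.1 β).1)), exists_prop] using
      Measurable.exists fun q : (k.1 β).1 => det_has (a := b) q
  obtain ⟨b1, a1, a2⟩ := cover c1 (Φ := fun k τ w => ¬ Gen (c b.δ τ w) (T k · w) k.2.1 k.2.2.1 ∧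
    res (c b.δ τ w) k.2.2.1 = k.2.2.2) (fun k τ => (meas_gen (h0 _ _)
      fun β => (m1 k β).mono det_le le_rfl).not.and (meas_res (h0 _ _) _
        (Q := fun l _ => l = k.2.2.2) fun _ => measurable_const)) b
  choose S a2 a3 using a2
  choose e he using fun k => countable_iff_exists_subset_range.1 (a2 k)
  obtain ⟨τ, a4⟩ := bdd_OO (K × ℕ) (fun x => e x.1 x.2) (mk_prod_le c1 (c0 _))
  obtain ⟨b2, a5, a6⟩ := exists_det (c0 (ℕ × Bool × Bool × Bool × Bool))
    (fun x => ((measurable_pi_apply x.1).comp (h0 b.δ τ)).eq_const x.2) b1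
  refine ⟨b2, a5.trans a1, τ, ?_, fun T' hT u m => ?_⟩
  · let _ := det b2
    exact measurable_pi_iff.2 fun n => measurable_to_countable' fun v =>
      measurableSet_setOfPred.2 (a6 (n, v))
  choose B d1 d2 using fun β => det_code (hT β)
  let k : Bx → K := fun β => (fun β => ⟨B β, le_aleph0_iff_set_countable.2 (d1 β)⟩, u, m, β)
  filter_upwards [ev_call d2, ev_call fun β => a3 (k β) τ fun f =>
    let ⟨n, g⟩ := he _ f; (a4 (k β, n)).ne g, ev_all fun τ' => ev_imp fun f : τ ≠ τ' =>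
    uniq h1 h2 hT u m f] with w e1 e2 e3 e4
  have e5 := e4.mono (le_zero.2 (a5.trans a1) : (⟨b2, 0⟩ : TT) ≤ ⟨b, 0⟩)
  have e6 : ∀ β, (T (k β) · w) = (T' · w) := fun _ => funext fun β => propext (e1 β e5).symm
  by_contra f
  obtain ⟨τ', f1, ⟨f2, f3⟩, f4⟩ := e2 (res (c b.δ τ w) m) (e4.mono (le_zero.2 a5)) ⟨e6 _ ▸ f, rfl⟩
  rw [e6] at f2
  exact f fun _ => e3 τ' f1 f4.symm e5 f3.symm (Classical.not_imp.1 f2).1

include h0 h1 h2 in
theorem kill (a : AA) : ∃ b ≤ a, ∃ (y : Om → OO × OO) (H : Om → World TT → Prop),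
    (∀ j, Measurable (H j)) ∧ (Sem (⟨b, 0⟩ : TT) fun w => (∀ j, H j w → w.In j) ∧
      Good (cs (fun j => c (y j).1 (y j).2 w) {j | H j w}) ∧ {j | H j w}.Pairwise fun i j =>
        ∃ n, BiAt n (c (y i).1 (y i).2 w) (c (y j).1 (y j).2 w)) ∧
    ∀ j (t : TT), t.a ≤ b → Bd (Iio a.δ) t.p → ∃ s ≤ t, Sem s (H j) := by
  classical
  obtain ⟨b, b', e, a1, a2⟩ := exists_chain Om mk_Om (exists_good h0 h1 h2) a
  choose a1 a3 a4 τ a5 using fun j => (show _ ∧ _ ∧ _ ∧ ∃ τ, _ ∧ ∀ i < j, b j ≤ b' i from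
    let ⟨x1, x2, x3, ⟨τ, x4⟩, x5⟩ := a1 j; ⟨x1, x2, x3, τ, x4, x5⟩)
  let γ : Om → World TT → Y := fun j => c (b j).δ (τ j)
  have m1 : ∀ j, Measurable[det e] (γ j) := fun j => (a5 j).1.1.mono (det_mono (a4 j)) le_rfl
  let V : Finset Om × ℕ → World TT → Prop := fun k w => Nrm (γ · w) k.1 k.2
  let Φ : Finset Om × ℕ → Finset Om × ℕ → World TT → Prop := fun k' k w =>
    V k w → V k' w ∧ LeQ (γ · w) k'.1 k'.2 k.1 k.2
  have m2 : ∀ k, Measurable[det e] (V k) := fun k => @meas_nrm _ _ _ _ (det e) _ m1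
  have r1 : ∀ k w, Φ k k w := fun k w h => ⟨h, h.leQ le_rfl⟩
  obtain ⟨d, d1, -, F, d2, d3, d4, d5⟩ := step (mk_prod_le (mk_finset_le mk_Om)
    (mk_le_aleph0.trans aleph0_le_continuum)) e (Φ := Φ) (fun i j => by
      let _ := det e
      exact (m2 j).imp ((m2 i).and (meas_leQ m1))) (fun k => Eventually.of_forall (r1 k))
    (fun i j k => Eventually.of_forall fun w f g v => ⟨(f (g v).1).1, (f (g v).1).2.trans (g v).2⟩)
    fun U p k h4 => by
      by_contra hU
      choose β hβ using fun x => a2 (p x)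
      choose B b1 b2 b3 using fun κ : Finset Om × ℕ × List Bx => e.ccc.predense
        (E := {q | Bd (Iio e.δ) q ∧ ∃ x, (⟨e, q⟩ : TT) ≤ ⟨e, p x⟩ ∧
          Sem (⟨e, q⟩ : TT) fun w => Mt (γ · w) κ.1 κ.2.1 κ.2.2 (k x)}) fun _ h => h.1
      choose g g1 g2 using fun κ (q : B κ) => (b1 κ q.2).2
      obtain ⟨w0, n1, n2, n3, n4, n5⟩ := ((ev_all_finset (P := TT) fun s0 => ev_call fun κ =>
        ev_countable_set (@countable_range _ _ (b2 (s0, κ)).to_subtype (g (s0, κ)))).and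
        ((ev_fun β).and ((ev_all fun x => ev_countable_set (k x).1.countable_toSet).and
        ((ev_all fun i => ev_countable_set (countable_Iic_Om i)).and
        (ev_of_club club_countable))))).exists
      have n6 : {x : U | w0.In x}.Countable := countable_emb_mem n5
      have := n6.to_subtype
      obtain ⟨x, hx⟩ : ∃ x : U, ¬ w0.In x := by_contra fun f =>
        hU (countable_univ_iff.1 (n6.mono fun x _ => by_contra fun g => f ⟨x, g⟩))
      have n7 : ∀ i j : Om, w0.In i → ¬ w0.In j → i < j := fun i j f g =>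
        not_le.1 fun l => g (n4 i f j l)
      obtain ⟨xs, x1, x2⟩ := exists_sorted ((k x).1.filter fun j => ¬ w0.In j)
      simp only [Finset.mem_filter] at x1
      let s0 := (k x).1.filter fun j => w0.In j
      let T : List Bx → World TT → Prop := fun l w => ∃ z : {x : U | w0.In x},
        w.Has ⟨b (β z), rs (Iio e.δ) (p z)⟩ ∧ Mt (γ · w) s0 (k x).2 l (k z)
      have m3 : ∀ j, ¬ w0.In j → ∀ l, Measurable[det (b j)] (T l) := fun j f l => by
        let _ := det (b j)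
        exact Measurable.exists fun z => ((det_has _).mono (det_mono (((a5 j).2 _
          (n7 _ _ (n2 _ z.2) f)).trans (a3 _))) le_rfl).and (meas_mt fun i g =>
          (a5 i).1.1.mono (det_mono ((a5 j).2 i (n7 _ _ (n3 _ z.2 i g) f))) le_rfl)
      have k1 : ∀ l, Sem (⟨e, p x⟩ : TT) fun w => Mt (γ · w) s0 (k x).2 l (k x) → T l w :=
        fun l => sem_of_dense fun t f => by
          have m4 : Measurable[det e] fun w => Mt (γ · w) s0 (k x).2 l (k x) :=
            @meas_mt _ _ _ (det e) _ _ _ _ fun i _ => m1 i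
          obtain ⟨s, s1, s2 | s2⟩ := (det_iff.1 m4).1.decides t
          · have s3 := up_le (t := ⟨e, s.p⟩) le_rfl
            obtain ⟨q, s4, s5⟩ := b3 (s0, (k x).2, l) _ ⟨bd_rs _ _, x, s3.trans (proj_le
              (s1.trans f) (s1.trans f).1 le_rfl), ((det_iff.1 m4).2 s (s1.trans f).1 s2).mono s3⟩
            obtain ⟨u, u1, u2⟩ := amal' (t := s) s5 (s1.trans f).1
            refine ⟨u, u1.trans s1, ((sem_has u).and ((g2 _ ⟨q, s4⟩).mono u2)).imp' fun w i _ =>
              ⟨⟨_, n1 s0 (fun j l => (Finset.mem_filter.1 l).2) ((k x).2, l) _ ⟨⟨q, s4⟩, rfl⟩⟩,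
                i.1.mono (u2.trans ((g1 _ _).trans ((mk_le (le_rs _ _)).trans
                  (le_proj ((a4 _).trans (a3 _)))))), i.2⟩⟩
          · exact ⟨s, s1, s2.imp' fun _ g i => absurd i g⟩
      have k2 : ∀ l ∈ {l | l ∈ xs.tails}, ∀ᶠ w in gen TT, ∀ j v, l = j :: v → w.Has ⟨e, 0⟩ →
          ∀ pre u, Gen (γ j w) (fun β => Cl (T · w) (v.map (γ · w)) (β :: pre)) u (k x).2 := by
        rintro (_ | ⟨j, v⟩) f
        · simp
        have f1 := (List.mem_tails _ _).1 f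
        have f2 := ((x1 j).1 (f1.subset List.mem_cons_self)).2
        filter_upwards [ev_call fun pre => ev_call fun u => (a5 j).1.2
          (fun β w => Cl (T · w) (v.map (γ · w)) (β :: pre)) (fun β => @meas_cl _ _ (det (b j)) _ _
            (m3 j f2) v (fun i l => (a5 i).1.1.mono (det_mono ((a5 j).2 i
              ((List.pairwise_cons.1 (x2.sublist f1.sublist)).1 i l))) le_rfl) _) u (k x).2]
          with w f3
        rintro _ _ ⟨⟩ f4 pre u
        exact f3 pre u (f4.mono (le_zero.2 (a4 j)))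
      obtain ⟨w, e1, e2, e3, e4, e5⟩ := exists_world (⟨e, p x⟩ : TT) (ev_generic.and
        ((ev_call k1).and (((eventually_all_finite xs.tails.finite_toSet).2 k2).and
        (ev_call fun z : {x : U | w0.In x} => ((h4 x z (fun f => hx (f ▸ z.2)) (k x)).and
          (h4 x z (fun f => hx (f ▸ z.2)) (k z))).and (ev_call fun n =>
          h4 x z (fun f => hx (f ▸ z.2)) ((k x).1 ∪ (k z).1, n))))))
      have e6 := w.has_of_mem e1
      obtain ⟨u, hu⟩ := exists_u (γ · w) (k x).1 (k x).2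
      obtain ⟨l, ⟨z, l0, l1⟩, l2, -, l4⟩ := reflect (γ := (γ · w)) (u := u) (m := (k x).2) xs []
        (fun j v f l => e4 _ ((List.mem_tails _ _).2 f) j v rfl (e6.mono (le_zero.2 le_rfl)) l u)
        (cl_of _ _ fun l f _ g => e3 l e6 ⟨rfl, Finset.filter_subset _ _, fun j i => by
          by_cases o : w0.In j
          exacts [.inl (Finset.mem_filter.2 ⟨i, o⟩),
            .inr (g _ (List.mem_map_of_mem ((x1 j).2 ⟨i, o⟩)))], fun β i => by
          obtain ⟨_, o, o'⟩ := (f β i).resolve_left (by simp)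
          obtain ⟨j, o1, rfl⟩ := List.mem_map.1 o
          exact ⟨j, ((x1 j).1 o1).1, o'⟩⟩)
      have e7 : w.Has ⟨e, p z⟩ := by
        obtain ⟨r, r1, r2, r3⟩ := e2.has_and l0 e6
        exact ⟨r, r1, (le_bd r2 r3.1 (hβ z)).trans (up_le (t := ⟨e, p z⟩) le_rfl)⟩
      by_cases v1 : V (k x) w
      swap
      · exact (e5 z).1.2 e6 e7 (fun f => absurd f v1) (r1 _ _)
      by_cases v2 : V (k z) w
      swap
      · exact (e5 z).1.1 e6 e7 (r1 _ _) fun f => absurd f v2
      obtain ⟨n, o1, o2, o3⟩ := amalg hu v1 (l1.1 ▸ v2 : Nrm (γ · w) (k z).1 (k x).2) (fun j f => by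
        rcases l1.2.2.1 j f with g | ⟨β, g, i⟩
        · exact .inl (Finset.mem_filter.1 g).1
        · obtain ⟨i', o, o'⟩ := (l2 β g).resolve_left (by simp)
          exact .inr ⟨i', ((x1 i').1 o).1, (o'.out i).1, _, (o'.out i).2⟩) fun j f => by
        by_cases o : w0.In j
        · exact ⟨j, l1.2.1 (Finset.mem_filter.2 ⟨f, o⟩), Ap.refl _ _⟩
        · obtain ⟨β, g, i⟩ := l4 j ((x1 j).2 ⟨f, o⟩)
          exact (l1.2.2.2 β g).imp fun _ o => ⟨o.1, (i.out o.2).1⟩
      exact (e5 z).2 n e6 e7 (fun _ => ⟨o1, o2⟩) fun _ => ⟨o1, l1.1 ▸ o3⟩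
  have e1 : e ≤ a := (a4 (Classical.arbitrary _)).trans ((a3 _).trans (a1 _))
  refine ⟨d, d1.trans e1, fun j => ((b j).δ, τ j),
    fun j w => ∃ k ∈ {k | w.In k ∧ F k w ∧ V k w}, j ∈ k.1, fun j => ?_, ?_, fun j t f g => ?_⟩
  · simpa only [mem_ofPred_eq, and_assoc] using measurable_ex_in fun k =>
      (d2 k).and (((m2 k).mono det_le le_rfl).and (measurable_const (a := j ∈ k.1)))
  · filter_upwards [d3, ev_in_prod (Finset Om) ℕ, ev_in_fin Om, ev_call fun n =>
      d4 (fun k w => V k w ∧ n ≤ k.2) (fun k => by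
        let _ := det e
        exact (m2 k).and measurable_const) fun k => by
        filter_upwards [ev_const (k.1, max k.2 n), ev_const ((∅ : Finset Om), n)] with w f g
        by_cases v : V k w
        · have := fun x i y j l => (v x i y j l).mono (le_max_left _ n)
          exact ⟨_, f, fun _ => ⟨this, v.leQ (le_max_left _ _)⟩, this, le_max_right _ _⟩
        · exact ⟨_, g, fun i => absurd i v, by simp [V, Nrm], le_rfl⟩] with w f1 f2 f3 f4 f5
    refine ⟨fun j ⟨k, g, i⟩ => (f3 _).1 ((f2 k).1 g.1).1 j i, good_of (fun _ g => g.2.2)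
      (fun k g k' i => ?_) fun n => (f4 n f5).imp fun k g => ⟨⟨g.1, g.2.1, g.2.2.1⟩, g.2.2.2⟩⟩
    obtain ⟨l, l1, l2, l3, l4⟩ := f1 k g.1 k' i.1 g.2.1 i.2.1
    exact ⟨l, ⟨l1, l2, (l3 g.2.2).1⟩, (l3 g.2.2).2, (l4 i.2.2).2⟩
  · obtain ⟨s, s1, s2⟩ := d5 ({j}, 0) t f (by rw [g _ (not_lt.2 e1.1)]; rfl)
    exact ⟨s, s1, s2.imp ((ev_const _).mono fun w i l =>
      ⟨_, ⟨i, l, by simp [V, Nrm]⟩, by simp⟩)⟩

end Pool.Agent.P.MP_b49e67_gt.MA
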