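import Pool.Agent.P.MP_b49e67_gt.MA.Space
import Pool.Agent.P.MP_b49e67_gt.MA.Full

/-! The space is first countable and is not an image of the remainder. -/

open Set Function Filter Pool.Agent.Lib.Helper87 PiNat Pool.Agent.P.MP_6e1b89_gt
open Pool.Agent.P.MP_b49e67_gt.CC
open Pool.Agent.P.MP_c9188c_gt (HausK HausdorffIn CompactIn cSet_image cSet_congr)
open Pool.Agent.P.MP_92f5e0_lc (OO Om mk_Om)

namespace Pool.Agent.P.MP_b49e67_gt.MA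

theorem ev_first : ∀ᶠ w in gen TT, ∀ x ∈ SS.K w, x ∈ SS.K w → ∃ s : ℕ → Set (Set Lb),
    cFun cNat (cSet (pc w)) univ s ∈ w.M ∧ (∀ k, s k ∈ SS.TT w ∧ x ∈ s k) ∧
      ∀ U ∈ SS.TT w, x ∈ U → ∃ k, s k ⊆ U := by
  classical
  refine SS.ev_allK fun x hx => ?_
  obtain ⟨en, hen⟩ := exists_surjective_nat Nd
  let d0 := nm fun w => (xz (x w)).1
  let e0 := nm fun w => (xz (x w)).2
  let ρ0 := nm fun w => kz (x w) d0
  let E : ℕ → Finset Lb := fun n => {.c d0, .a d0 e0, .b ρ0} ∪ ((Finset.range n).image .x ∪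
    ((Finset.range n).image .t ∪ (Finset.range n).image fun i => .k d0 (en i)))
  filter_upwards [ev_lb, ev_nm (meas_xz hx).fst, ev_nm (meas_xz hx).snd, ev_nm (meas_kz hx d0),
    ev_const d0, ev_const e0, ev_const ρ0, ev_call fun k => (SS.ns_nb hx (E k)).ev_mem,
    (named_cSeq (e := fun w => cSet (pc w)) fun k => (SS.ns_nb hx (E k)).named).ev_mem]
    with w a1 v1 v2 v3 i1 i2 i3 a3 a4 a5
  refine ⟨_, a4, fun k => ⟨SS.nb_mem (a3 k), a5, fun _ _ => Iff.rfl⟩, fun U hU a6 => ?_⟩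
  change vl w d0 = _ at v1
  change vl w e0 = _ at v2
  change vl w ρ0 = _ at v3
  have c0 : Con (x w) w := a5.2.1
  have k0 : ∀ n, ∀ y ∈ SS.Nb w (x w) (E n), Con y w ∧ nd n (xz y) = nd n (xz (x w)) ∧
      (.c d0 ∈ y ↔ .c d0 ∈ x w) ∧ (.a d0 e0 ∈ y ↔ .a d0 e0 ∈ x w) ∧ (.b ρ0 ∈ y ↔ .b ρ0 ∈ x w) ∧
      ∀ i < n, (.k d0 (en i) ∈ y ↔ .k d0 (en i) ∈ x w) := fun n y h =>
    ⟨h.1.2.1, nd_xz fun i c => ⟨h.2 _ (by simp [E, c]), h.2 _ (by simp [E, c])⟩,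
      h.2 _ (by simp [E]), h.2 _ (by simp [E]), h.2 _ (by simp [E]),
      fun i c => h.2 _ (by simpa [E] using ⟨i, c, rfl⟩)⟩
  have k1 : ∀ n l, (∀ y ∈ SS.Nb w (x w) (E n), l ∉ y) →
      ∃ n, ∀ y ∈ SS.Nb w (x w) (E n), (l ∈ y ↔ l ∈ x w) := fun n l h =>
    ⟨n, fun y c => iff_of_false (h y c) (h _ ⟨a5, fun _ _ => Iff.rfl⟩)⟩
  have k2 : ∀ n l l', (∀ y ∈ SS.Nb w (x w) (E n), (l ∈ y ↔ l' ∈ y) ∧ (l' ∈ y ↔ l' ∈ x w)) →
      ∃ n, ∀ y ∈ SS.Nb w (x w) (E n), (l ∈ y ↔ l ∈ x w) := fun n l l' h =>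
    ⟨n, fun y c => (h y c).1.trans ((h y c).2.trans (h _ ⟨a5, fun _ _ => Iff.rfl⟩).1.symm)⟩
  have key : ∀ l, ∃ n, ∀ y ∈ SS.Nb w (x w) (E n), (l ∈ y ↔ l ∈ x w) := fun l => by
    by_cases o : w.In l
    swap
    · exact k1 0 l fun y c d => o (c.1.1 l d)
    rw [a1] at o
    cases l with
    | x n => exact ⟨n + 1, fun y c => c.2 _ (by simp [E])⟩
    | t n => exact ⟨n + 1, fun y c => c.2 _ (by simp [E])⟩
    | k d v =>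
      by_cases c : vl w d0 = vl w d
      · obtain ⟨i, rfl⟩ := hen v
        exact k2 (i + 1) _ (.k d0 (en i)) fun y f => let g := k0 _ y f
          ⟨⟨(g.1.2.2.2.2.2.2.1 d o d0 i1 c.symm).2.1 _, (g.1.2.2.2.2.2.2.1 d0 i1 d o c).2.1 _⟩,
            g.2.2.2.2.2 i i.lt_succ_self⟩
      · obtain ⟨n, hn⟩ := exists_spl (v1 ▸ c)
        refine ⟨n + 1, fun y f => ?_⟩
        rw [← kz_iff, ← kz_iff, c0.2.2.2.2.1 d o n hn, (k0 _ y f).1.2.2.2.2.1 d o n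
          (spl_res hn n.lt_succ_self (congrArg Prod.fst (k0 _ y f).2.1).symm)]
    | c d =>
      by_cases c : vl w d0 = vl w d
      · exact k2 0 _ (.c d0) fun y f => let g := k0 _ y f
          ⟨⟨(g.1.2.2.2.2.2.2.1 d o d0 i1 c.symm).1, (g.1.2.2.2.2.2.2.1 d0 i1 d o c).1⟩, g.2.2.1⟩
      · obtain ⟨n, hn⟩ := exists_spl (v1 ▸ c)
        exact k1 (n + 1) _ fun y f g => hn.1 (((nd_eq.1 (k0 _ y f).2.1 n n.lt_succ_self).1.symm).trans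
          (congrFun ((k0 _ y f).1.1 d o g) n))
    | a d e =>
      by_cases c : vl w d0 = vl w d ∧ vl w e0 = vl w e
      · exact k2 0 _ (.a d0 e0) fun y f => let g := k0 _ y f
          ⟨⟨(g.1.2.2.2.2.2.2.1 d o.1 d0 i1 c.1.symm).2.2 e o.2 e0 i2 c.2.symm,
            (g.1.2.2.2.2.2.2.1 d0 i1 d o.1 c.1).2.2 e0 i2 e o.2 c.2⟩, g.2.2.2.1⟩
      · obtain ⟨n, hn⟩ : ∃ n, ¬ (vl w d0 n = vl w d n ∧ vl w e0 n = vl w e n) := not_forall.1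
          fun f => c ⟨funext fun n => (f n).1, funext fun n => (f n).2⟩
        refine k1 (n + 1) _ fun y f g => hn ?_
        have g1 := (k0 _ y f).1.2.1 d o.1 e o.2 g
        rw [v1, v2, ← g1.2, ← (k0 _ y f).1.1 d o.1 g1.1]
        exact (nd_eq.1 (k0 _ y f).2.1.symm n n.lt_succ_self)
    | b ρ =>
      by_cases c : Good (vl w ρ)
      swap
      · exact k1 0 _ fun y f g => c ((k0 _ y f).1.2.2.1 ρ o g).1
      by_cases c1 : xz (x w) ∈ Br (vl w ρ)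
      swap
      · obtain ⟨n, hn⟩ := not_forall.1 c1
        exact k1 n _ fun y f g => hn ((k0 _ y f).2.1 ▸ ((k0 _ y f).1.2.2.1 ρ o g).2 n)
      have c2 : (vl w d0, vl w e0) ∈ Br (vl w ρ) := by rwa [v1, v2]
      by_cases c3 : .c d0 ∈ x w
      · exact k2 0 _ (.a d0 e0) fun y f => let g := k0 _ y f
          ⟨g.1.2.2.2.1 ρ o d0 i1 e0 i2 c c2 (g.2.2.1.2 c3), g.2.2.2.1⟩
      by_cases c4 : vl w ρ = vl w ρ0
      · exact k2 0 _ (.b ρ0) fun y f => let g := k0 _ y f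
          ⟨⟨g.1.2.2.2.2.2.2.2 ρ o ρ0 i3 c4, g.1.2.2.2.2.2.2.2 ρ0 i3 ρ o c4.symm⟩, g.2.2.2.2.1⟩
      obtain ⟨v, hv⟩ := Function.ne_iff.1 c4
      obtain ⟨i, rfl⟩ := hen v
      obtain ⟨N, hN⟩ := c (en i).1.length
      refine k1 (N + i + 1) _ fun y f g => hv ?_
      obtain ⟨g1, g2, g3, -, -, g4⟩ := k0 _ y f
      rw [← g1.2.2.2.2.2.1 ρ o d0 i1 e0 i2 _ N hN c2 g (mt g3.1 c3) (nd_eq.2 fun j l => by
        simpa [v1] using (nd_eq.1 g2 j (by omega)).1) _ le_rfl, v3, Bool.eq_iff_iff, kz_iff, kz_iff]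
      exact g4 i (by omega)
  choose n hn using key
  obtain ⟨F, b3⟩ := hU.2.2 _ a6
  refine ⟨F.sup n, fun y hy => b3 ⟨hy.1, fun l hl => hn l y ⟨hy.1, fun j hj => hy.2 j ?_⟩⟩⟩
  have := Finset.range_mono (Finset.le_sup (f := n) hl)
  exact Finset.union_subset_union_right (Finset.union_subset_union (Finset.image_subset_image this)
    (Finset.union_subset_union (Finset.image_subset_image this) (Finset.image_subset_image this))) hj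

theorem ev_not_image : ∀ᶠ w in gen TT, ∀ f : Set (Set ℕ) → Set Lb,
    cFun (cSet (cSet cNat)) (pc w) (StarIn w.M) f ∈ w.M → (∀ u, f u ∈ SS.K w) →
      (∀ x ∈ SS.K w, ∃ u ∈ StarIn w.M, f u = x) → ¬ ∀ U ∈ SS.TT w, ∀ u ∈ StarIn w.M, f u ∈ U →
        ∃ A ∈ u, ∀ v ∈ StarIn w.M, A ∈ v → f v ∈ U := by
  suffices h : ∀ᶠ w in gen TT, ∀ z ∈ w.M, ∀ f : Set (Set ℕ) → Set Lb,
      cFun (cSet (cSet cNat)) (pc w) (StarIn w.M) f = z → (∀ u, f u ∈ SS.K w) →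
      (∀ x ∈ SS.K w, ∃ u ∈ StarIn w.M, f u = x) → ¬ ∀ U ∈ SS.TT w, ∀ u ∈ StarIn w.M, f u ∈ U →
        ∃ A ∈ u, ∀ v ∈ StarIn w.M, A ∈ v → f v ∈ U from h.mono fun w hw f a => hw _ a f rfl
  classical
  refine ev_all_named fun z hz => ?_
  choose A h1 h2 using fun l : Lb => exists_rep_in
    (E := fun u w => lc w l ∈ app (z w) (cSet (cSet cNat) u))
    fun u hu => (named_lc _).measurable_mem (named_app hz hu)
  let d : OO → ℕ → Set TT := fun δ => nm (TR δ)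
  filter_upwards [no_rep (L := fun δ τ => A (.a (d δ) (d τ)))
    (R := fun δ τ w => A (.c (d δ)) w ∩ (A (.a (d δ) (d τ)) w)ᶜ) (E := fun ρ => A (.b ρ))
    (fun _ _ => h1 _) (fun _ _ => (h1 _).inter (h1 _).compl) (fun _ => h1 _)
    fun _ _ _ _ a b => b.2 a, ev_all h2, ev_lb, SS.ev_coord, ev_exists_star, ev_alg,
    ev_all fun a => (h1 a).ev_mem, ev_all fun a => ev_all fun b => ev_pt a b, ev_fun d,
    ev_all fun δ => ev_nm (meas_TR δ), ev_all fun τ => ev_all fun τ' => ev_imp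
      (ev_TR_ne (ξ := τ) (η := τ'))] with w a1 a2 a3 a4 a5 a6 a7 a8 a9 v1 v2 f b1 b2 b3 b4
  have key : ∀ l : Lb, l.ok w → ∀ u ∈ StarIn w.M, (A l w ∈ u ↔ l ∈ f u) := fun l hl => by
    have ha := (a3 l).2 hl
    have c1 : ∀ u ∈ StarIn w.M, (lc w l ∈ app (z w) (cSet (cSet cNat) u) ↔ l ∈ f u) :=
      fun u hu => by
        rw [← b1, app_cFun (cSet_inj (cSet_inj cNat_inj)).injOn hu]
        exact mem_cSet_iff (lc_inj w) (b2 u).1 ha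
    refine fun u hu => (a2 l ha (fun u hu => ?_) u hu).trans (c1 u hu)
    by_cases c : l ∈ f u
    · obtain ⟨B, c2, c3⟩ := b4 _ (a4 _ ha).1 u hu ⟨b2 u, c⟩
      exact ⟨B, c2, fun v d1 d2 => iff_of_true ((c1 v d1).2 (c3 v d1 d2).2) ((c1 u hu).2 c)⟩
    · obtain ⟨B, c2, c3⟩ := b4 _ (a4 _ ha).2 u hu ⟨b2 u, c⟩
      exact ⟨B, c2, fun v d1 d2 => iff_of_false (mt (c1 v d1).1 (c3 v d1 d2).2) (mt (c1 u hu).1 c)⟩
  have m : ∀ l : Lb, l.ok w → cSet cNat (A l w) ∈ w.M := fun l c => a7 l ((a3 l).2 c)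
  refine a1 (fun δ i1 τ i2 τ' i3 e => ?_) fun ρ i0 δ i1 τ i2 g1 g2 => ?_
  · obtain ⟨u, c3, c4⟩ := b3 _ (a8 _ (a9 δ i1) _ (a9 τ i2))
    have o1 : (Lb.a (d δ) (d τ)).ok w := ⟨a9 δ i1, a9 τ i2⟩
    have o2 : (Lb.a (d δ) (d τ')).ok w := ⟨a9 δ i1, a9 τ' i3⟩
    exact (c3.2.1 _ (c3.2.2.1 _ ((key _ o1 u c3).2 (c4 ▸ ⟨(a3 _).2 o1, rfl, rfl⟩)) _ (c3.2.2.1 _
      ((key (.c (d δ)) o1.1 u c3).2 (c4 ▸ ⟨(a3 _).2 o1.1, rfl⟩)) _ ((c3.2.2.2.2 _ (m _ o2)).resolve_left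
        fun g => v2 τ i2 τ' i3 e ((v1 τ i2).symm.trans
          ((c4 ▸ (key _ o2 u c3).1 g : Lb.a (d δ) (d τ') ∈ {l | w.In l ∧ pt (d δ) (d τ) w l}).2.2.trans
            (v1 τ' i3))))))).nonempty
  have o1 : (Lb.a (d δ) (d τ)).ok w := ⟨a9 δ i1, a9 τ i2⟩
  have c1 : ∀ u, .c (d δ) ∈ f u → (.b ρ ∈ f u ↔ .a (d δ) (d τ) ∈ f u) := fun u =>
    (show Con (f u) w from (b2 u).2.1).2.2.2.1 ρ i0 _ o1.1 _ o1.2 g1 (by rwa [v1 δ i1, v1 τ i2])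
  refine ⟨by_contra fun c => ?_, by_contra fun c => ?_⟩
  · obtain ⟨u, c2, c3⟩ := a5 _ (a6.2.2 _ (m _ o1) _ (a6.2.1 _ (m (.b ρ) i0))) c
    have c4 := (key _ o1 u c2).1 (c2.2.2.2.1 _ c3 _ (m _ o1) inter_subset_left)
    exact star_not c2 ((key (.b ρ) i0 u c2).2 ((c1 u ((show Con (f u) w from (b2 u).2.1).2.1 _ o1.1
      _ o1.2 c4).1).2 c4)) (c2.2.2.2.1 _ c3 _ (a6.2.1 _ (m (.b ρ) i0)) inter_subset_right)
  · obtain ⟨u, c2, c3⟩ := a5 _ (a6.2.2 _ (a6.2.2 _ (m (.c (d δ)) o1.1) _ (a6.2.1 _ (m _ o1))) _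
      (m (.b ρ) i0)) c
    exact star_not c2 ((key _ o1 u c2).2 ((c1 u ((key (.c (d δ)) o1.1 u c2).1 (c2.2.2.2.1 _ c3 _
      (m (.c (d δ)) o1.1) fun _ h => h.1.1))).1 ((key (.b ρ) i0 u c2).1 (c2.2.2.2.1 _ c3 _
      (m (.b ρ) i0) inter_subset_right)))) (c2.2.2.2.1 _ c3 _ (a6.2.1 _ (m _ o1)) fun _ h => h.1.2)

theorem transfer' {M : Set ZFSet.{0}} {X : Type} {c : X → ZFSet.{0}} {K : Set X} {𝒯 : Set (Set X)}
    (hc : InjOn c K) (h0 : 𝒯 ⊆ 𝒫 K) (hK : K.Nonempty) (h1 : cSet c K ∈ M)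
    (h2 : cSet (cSet c) 𝒯 ∈ M) (h3 : HausK M c K 𝒯) (h4 : CompactIn M c 𝒯 K)
    (h5 : ∀ x ∈ K, ∃ s : ℕ → Set X, cFun cNat (cSet c) univ s ∈ M ∧ (∀ k, s k ∈ 𝒯 ∧ x ∈ s k) ∧
      ∀ U ∈ 𝒯, x ∈ U → ∃ k, s k ⊆ U)
    (h7 : ∀ f : Set (Set ℕ) → X, cFun (cSet (cSet cNat)) c (StarIn M) f ∈ M → (∀ u, f u ∈ K) →
      (∀ x ∈ K, ∃ u ∈ StarIn M, f u = x) → ¬ ∀ U ∈ 𝒯, ∀ u ∈ StarIn M, f u ∈ U →
        ∃ A ∈ u, ∀ v ∈ StarIn M, A ∈ v → f v ∈ U) :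
    ∃ (Y : Type) (e : Y → ZFSet.{0}) (𝒮 : Set (Set Y)), Nonempty Y ∧ Function.Injective e ∧
      cSet e univ ∈ M ∧ cSet (cSet e) 𝒮 ∈ M ∧ HausdorffIn M e 𝒮 ∧ CompactIn M e 𝒮 univ ∧
      FirstIn M e 𝒮 ∧ ¬ ImageIn M e 𝒮 := by
  let im : Set K → Set X := fun U => Subtype.val '' U
  let e : K → ZFSet := fun x => c x
  have inj : Function.Injective im := Subtype.val_injective.image_injective
  have sur : ∀ A ⊆ K, im (Subtype.val ⁻¹' A) = A := fun A hA => by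
    simpa [im] using hA
  have c1 : ∀ U, cSet e U = cSet c (im U) := fun U => (cSet_image c _ U).symm
  have c2 : ∀ 𝒰, cSet (cSet e) 𝒰 = cSet (cSet c) (im '' 𝒰) := fun 𝒰 => by
    rw [cSet_image]
    exact cSet_congr fun a _ => c1 a
  have c3 : im '' (im ⁻¹' 𝒯) = 𝒯 := image_preimage_eq_of_subset fun A hA => ⟨_, sur A (h0 hA)⟩
  have c4 : ∀ s : ℕ → Set X, (∀ k, s k ⊆ K) → cFun cNat (cSet e) univ
      (fun k => Subtype.val ⁻¹' s k) = cFun cNat (cSet c) univ s := fun s h =>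
    cSet_congr fun n _ => by rw [c1, sur _ (h n)]
  have c8 : ∀ U V, im U ⊆ im V ↔ U ⊆ V := fun U V => image_subset_image_iff Subtype.val_injective
  have c9 : ∀ 𝒰 : Set (Set K), im (⋃₀ 𝒰) = ⋃₀ (im '' 𝒰) := fun 𝒰 => by
    rw [sUnion_image]
    simp only [im, sUnion_eq_biUnion, image_iUnion]
  have top : im univ = K := Subtype.coe_image_univ K
  have pre : ∀ U ∈ 𝒯, Subtype.val ⁻¹' U ∈ im ⁻¹' 𝒯 := fun U h => by
    rwa [mem_preimage, sur U (h0 h)]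
  refine ⟨K, e, im ⁻¹' 𝒯, hK.to_subtype, fun x y h => Subtype.ext (hc x.2 y.2 h),
    by rwa [c1, top], by rwa [c2, c3], ⟨by rw [mem_preimage, top]; exact h3.1,
      fun U hU V hV => ?_, fun 𝒰 a1 a2 => ?_, fun x y h => ?_⟩, fun 𝒰 a1 a2 a3 => ?_,
    fun x => ?_, fun ⟨f, a1, a2, a3⟩ => h7 (fun u => f u) a1
      (fun u => (f u).2) (fun x hx => (a2 ⟨x, hx⟩).imp fun u h => ⟨h.1, congrArg _ h.2⟩)
      fun U hU => a3 _ (pre U hU)⟩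
  · rw [mem_preimage]
    simp only [im]
    rw [image_inter Subtype.val_injective]
    exact h3.2.1 _ hU _ hV
  · rw [mem_preimage, c9]
    exact h3.2.2.1 _ (image_subset_iff.2 a1) (c2 𝒰 ▸ a2)
  · obtain ⟨U, a1, V, a2, a3, a4, a5⟩ := h3.2.2.2 x x.2 y y.2 (Subtype.coe_ne_coe.2 h)
    exact ⟨_, pre U a1, _, pre V a2, a3, a4, a5.preimage _⟩
  · obtain ⟨𝒱, b1, b2, b3⟩ := h4 (im '' 𝒰) (image_subset_iff.2 a1) (c2 𝒰 ▸ a2)
      (top.superset.trans (((c8 _ _).2 a3).trans (c9 𝒰).subset))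
    obtain ⟨𝒱, b4, rfl⟩ := subset_image_iff.1 b1
    exact ⟨𝒱, b4, b2.of_finite_image inj.injOn, (c8 _ _).1 (by rwa [c9, top])⟩
  · obtain ⟨s, b1, b2, b3⟩ := h5 x x.2
    refine ⟨_, c4 s (fun k => h0 (b2 k).1) ▸ b1, fun k => ⟨pre _ (b2 k).1, (b2 k).2⟩,
      fun U c5 c6 => (b3 _ c5 ⟨x, c6, rfl⟩).imp fun k hk => ?_⟩
    rwa [← c8, sur _ (h0 (b2 k).1)]

instance : Uncountable Om := by
  rw [← Cardinal.aleph0_lt_mk_iff, Cardinal.mk_ord_toType]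
  exact Order.lt_succ _

theorem main : ∃ M : Set ZFSet.{0}, TransModelZFC M ∧
    (∃ C ∈ M, (∀ z, z ∈ C ↔ z ∈ M ∧ z ⊆ ZFSet.omega) ∧
      (∃ κ ∈ M, ¬ CardLE M κ ZFSet.omega ∧ ¬ CardLE M C κ) ∧
      ∀ κ ∈ M, ¬ CardLE M C κ → MAIn M κ) ∧
    ∃ (X : Type) (c : X → ZFSet.{0}) (𝒯 : Set (Set X)), Nonempty X ∧ Function.Injective c ∧
      cSet c Set.univ ∈ M ∧ cSet (cSet c) 𝒯 ∈ M ∧ HausdorffIn M c 𝒯 ∧
      CompactIn M c 𝒯 Set.univ ∧ FirstIn M c 𝒯 ∧ ¬ ImageIn M c 𝒯 := by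
  obtain ⟨w, h1, h2, h3, h4, h5, h6, h7, h8, h9, h10, h11, h12, h13⟩ := ((ev_zfc (P := TT)).and
    (SS.ns_K.ev_mem.and (SS.ev_TT_mem.and (SS.ev_haus.and (SS.ev_compact.and (ev_first.and
    (ev_not_image.and ((ev_pt default default).and ((named_ordTop (O := Om)).ev_mem.and
    ((ev_unc (J := Om)).and (ev_ma.and (ev_big.and named_PW.ev_mem)))))))))))).exists
  exact ⟨w.M, h1, ⟨_, h13, mem_PW w, ⟨_, h9, h10, h12⟩, h11⟩, transfer' (SS.pc_inj w)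
    (fun U h => h.1) ⟨_, h8⟩ h2 h3 h4 h5 (fun x hx => h6 x hx hx) h7⟩

end Pool.Agent.P.MP_b49e67_gt.MA
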