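import Pool.Agent.P.MP_b49e67_gt.MA.Step
import Pool.Agent.P.MP_b49e67_gt.MA.Defs

/-! Martin's axiom in the extension. -/

open Set Function Cardinal Filter Pool.Agent.Lib.Helper87 Pool.Agent.P.MP_6e1b89_gt
open scoped MeasureTheory
open Pool.Agent.P.MP_92f5e0_lc (OO mk_prod_le)

namespace Pool.Agent.P.MP_b49e67_gt.MA

theorem named_ball {Y : World TT → ZFSet.{0}} (hY : Named Y) {Φ : ZFSet.{0} → World TT → Prop}
    (hΦ : ∀ y, Named y → Measurable fun w => Φ (y w) w) :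
    Measurable fun w => ∀ x ∈ Y w, Φ x w := by
  simpa using (named_bex hY (Φ := fun x w => ¬ Φ x w) fun y hy => (hΦ y hy).not).not

theorem exists_pick {Y : World TT → ZFSet.{0}} (hY : Named Y) {Φ : ZFSet.{0} → World TT → Prop}
    (hΦ : ∀ y, Named y → Measurable fun w => Φ (y w) w) : ∃ x : {x // Named x},
    ∀ᶠ w in gen TT, (∃ y ∈ Y w, Φ y w) → x.1 w ∈ Y w ∧ Φ (x.1 w) w := by
  obtain ⟨I, u, Ψ, h1, h2, h3⟩ := hY.exists_index
  obtain ⟨C, c1, c2, c3, c4⟩ := exists_choice fun j => (h2 j).and (hΦ _ (h1 j))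
  refine ⟨⟨fun w => (ZFSet.range fun j : {j // w.In j ∧ C j w} => u j w).sUnion, named_sUnion
    (named_of_mem_iff h1 c1 (Eventually.of_forall fun w z => by simp [and_assoc]))⟩,
    h3.mono fun w a ⟨y, b1, b2⟩ => ?_⟩
  obtain ⟨i, b3, b4, rfl⟩ := (a y).1 b1
  obtain ⟨j, d1, d2⟩ := c3 w ⟨i, b3, b4, b2⟩
  have : (ZFSet.range fun j : {j // w.In j ∧ C j w} => u j w) = {u j w} := ZFSet.ext fun z => by
    rw [ZFSet.mem_range, ZFSet.mem_singleton]
    exact ⟨fun ⟨k, e⟩ => c4 w k j k.2.1 d1 k.2.2 d2 ▸ e.symm, fun e => ⟨⟨j, d1, d2⟩, e.symm⟩⟩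
  simp only [this, ZFSet.sUnion_singleton]
  exact ⟨(a _).2 ⟨j, d1, (c2 j w d2).1, rfl⟩, (c2 j w d2).2⟩

theorem cnt_of_local {a : AA} {U : Type} {p : U → Cd} (h : ∀ q, ∃ s ≤ (⟨a, q⟩ : TT),
    {x | ¬ Sem s fun w => ¬ w.Has (⟨a, p x⟩ : TT)}.Countable) : Countable U := by
  obtain ⟨B, b1, b2, b3⟩ := a.ccc.predense (E := {q | Bd (Iio a.δ) q ∧
    {x | ¬ Sem (⟨a, q⟩ : TT) fun w => ¬ w.Has (⟨a, p x⟩ : TT)}.Countable}) fun _ h => h.1
  refine countable_univ_iff.1 ((b2.biUnion fun q c => (b1 c).2).mono fun x _ => ?_)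
  obtain ⟨s, s1, s2⟩ := h (p x)
  obtain ⟨q, c1, c2⟩ := b3 (rs (Iio a.δ) s.p) ⟨bd_rs _ _, s2.mono fun y c d => c
    (((det_iff.1 (@Measurable.not _ (det a) _ (det_has (p y)))).2 s s1.1 d).mono
      (up_le (t := ⟨a, s.p⟩) le_rfl))⟩
  obtain ⟨u, u1, u2⟩ := amal' (t := s) c2 s1.1
  exact mem_biUnion c1 fun d => ((sem_has _).mono (u1.trans s1)).not_not (d.mono u2)

/-- arities of the operations on names -/
def Ar (J : Type) : Option (Option J) → Type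
  | none => Empty
  | some none => Bool
  | some (some _) => Unit

instance (J : Type) : ∀ x, Finite (Ar J x)
  | none => inferInstanceAs (Finite Empty)
  | some none => inferInstanceAs (Finite Bool)
  | some (some _) => inferInstanceAs (Finite Unit)

theorem ma_core {J : Type} (hJ : #J ≤ 𝔠) {P r 𝒟 : World TT → ZFSet.{0}} (hP : Named P)
    (hr : Named r) (hD : Named 𝒟) {lab : J → ZFSet.{0} → World TT → Prop}
    (hf : ∀ α D, Named D → Measurable fun w => lab α (D w) w) {Θ : World TT → Prop} (t1 : ∀ w, Θ w → ∃ x, x ∈ P w)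
    (t2 : ∀ w, Θ w → ∀ x ∈ P w, x.pair x ∈ r w) (t3 : ∀ w, Θ w → ∀ x ∈ P w, ∀ y ∈ P w,
      ∀ z ∈ P w, x.pair y ∈ r w → y.pair z ∈ r w → x.pair z ∈ r w)
    (t4 : ∀ w, Θ w → ∀ A ∈ w.M, A ⊆ P w → (∀ x ∈ A, ∀ y ∈ A, x ≠ y →
      ¬ ∃ z ∈ P w, z.pair x ∈ r w ∧ z.pair y ∈ r w) → CardLE w.M A ZFSet.omega)
    (t5 : ∀ w, Θ w → ∀ D ∈ 𝒟 w, ∃ α, w.In α ∧ lab α D w)
    (t6 : ∀ w, Θ w → ∀ α D D', lab α D w → lab α D' w → D = D')
    (t7 : ∀ w, Θ w → ∀ D ∈ 𝒟 w, ∀ x ∈ P w, ∃ y ∈ P w, y ∈ D ∧ y.pair x ∈ r w) :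
    ∀ᶠ w in gen TT, Θ w → ∃ G ∈ w.M, G ⊆ P w ∧ (∀ x ∈ G, ∀ y ∈ P w, x.pair y ∈ r w → y ∈ G) ∧
      (∀ x ∈ G, ∀ y ∈ G, ∃ z ∈ G, z.pair x ∈ r w ∧ z.pair y ∈ r w) ∧
      ∀ D ∈ 𝒟 w, ∃ x ∈ G, x ∈ D := ev_of_dense fun t => by
  by_cases h : ∃ s ≤ t, Sem s fun w => ¬ Θ w
  · exact h.imp fun s c => ⟨c.1, c.2.imp' fun _ d e => absurd e d⟩
  have s0 : ∀ {Ψ : World TT → Prop}, Measurable Ψ → (∀ᶠ w in gen TT, Θ w → Ψ w) → Sem t Ψ :=
    fun c d => by_contra fun e => h ((exists_sem c.not fun g => e (g.imp' fun _ => not_not.1)).imp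
      fun s g => ⟨g.1, g.2.imp (d.mono fun _ => mt)⟩)
  have m1 : ∀ {x y : World TT → ZFSet.{0}}, Named x → Named y →
      Measurable fun w => (x w).pair (y w) ∈ r w := fun c d => (c.pair d).measurable_mem hr
  have m2 : ∀ (α : J) {x : World TT → ZFSet.{0}}, Named x →
      Measurable fun w => ∀ D ∈ 𝒟 w, lab α D w → x w ∈ D := fun α x c =>
    named_ball hD (Φ := fun D w => lab α D w → x w ∈ D) fun D d =>
      (hf α D d).imp (c.measurable_mem d)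
  obtain ⟨o, ho⟩ := exists_pick hP (Φ := fun _ _ => True) fun _ _ => measurable_const
  choose mt hmt using fun x y : {x : World TT → ZFSet.{0} // Named x} => exists_pick hP
    (Φ := fun z w => (∃ z ∈ P w, z.pair (x.1 w) ∈ r w ∧ z.pair (y.1 w) ∈ r w) →
      z.pair (x.1 w) ∈ r w ∧ z.pair (y.1 w) ∈ r w) fun z c =>
    (named_bex hP (Φ := fun z w => z.pair (x.1 w) ∈ r w ∧ z.pair (y.1 w) ∈ r w) fun z c =>
      (m1 c x.2).and (m1 c y.2)).imp ((m1 c x.2).and (m1 c y.2))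
  choose ex hex using fun (x : {x : World TT → ZFSet.{0} // Named x}) (α : J) => exists_pick hP
    (Φ := fun z w => z.pair (x.1 w) ∈ r w ∧ ∀ D ∈ 𝒟 w, lab α D w → z ∈ D) fun z c =>
    (m1 c x.2).and (m2 α c)
  obtain ⟨σ, σ1, σ2, σ3⟩ : ∃ σ : WType (Ar J) → {x : World TT → ZFSet.{0} // Named x},
      (∀ g, σ ⟨none, g⟩ = o) ∧ (∀ g, σ ⟨some none, g⟩ = mt (σ (g true)) (σ (g false))) ∧
      ∀ α g, σ ⟨some (some α), g⟩ = ex (σ (g ())) α :=
    ⟨WType.elim _ fun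
      | ⟨none, _⟩ => o
      | ⟨some none, g⟩ => mt (g true) (g false)
      | ⟨some (some α), g⟩ => ex (g ()) α, fun _ => rfl, fun _ => rfl, fun _ _ => rfl⟩
  have a1 : ∀ x y, ∀ᶠ w in gen TT, Θ w → (mt x y).1 w ∈ P w ∧ _ := fun x y =>
    (hmt x y).mono fun w c d => c (by
      by_cases e : ∃ z ∈ P w, z.pair (x.1 w) ∈ r w ∧ z.pair (y.1 w) ∈ r w
      exacts [e.imp fun _ e => ⟨e.1, fun _ => e.2⟩, (t1 w d).imp fun _ g => ⟨g, fun i => absurd i e⟩])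
  have a2 : ∀ x α, ∀ᶠ w in gen TT, Θ w → x.1 w ∈ P w → (ex x α).1 w ∈ P w ∧ _ := fun x α =>
    (hex x α).mono fun w c d e => c (by
      by_cases g : ∃ D ∈ 𝒟 w, lab α D w
      · obtain ⟨D, g1, g2⟩ := g
        exact (t7 w d D g1 _ e).imp fun y i => ⟨i.1, i.2.2, fun D' _ j => t6 w d _ _ _ g2 j ▸ i.2.1⟩
      · exact ⟨_, e, t2 w d _ e, fun D i j => absurd ⟨D, i, j⟩ g⟩)
  have a3 : ∀ k, ∀ᶠ w in gen TT, Θ w → (σ k).1 w ∈ P w := fun k => by
    induction k with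
    | mk x g ih =>
    obtain _ | _ | α := x
    · exact σ1 g ▸ ho.mono fun w c d => (c ((t1 w d).imp fun _ e => ⟨e, trivial⟩)).1
    · exact σ2 g ▸ (a1 _ _).mono fun w c d => (c d).1
    · rw [σ3]
      filter_upwards [a2 (σ (g ())) α, ih ()] with w c d e using (c e (d e)).1
  have cT : #(WType (Ar J)) ≤ 𝔠 := WType.cardinalMk_le_max_aleph0_of_finite.trans
    (max_le (by
      rw [mk_option, mk_option]
      exact add_le_of_le aleph0_le_continuum (add_le_of_le aleph0_le_continuum hJ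
        (one_le_aleph0.trans aleph0_le_continuum)) (one_le_aleph0.trans aleph0_le_continuum))
      aleph0_le_continuum)
  have : Nonempty (WType (Ar J)) := ⟨⟨none, Empty.elim⟩⟩
  let Φ : WType (Ar J) → WType (Ar J) → World TT → Prop := fun i j w =>
    w.Has t → ((σ i).1 w).pair ((σ j).1 w) ∈ r w
  have m3 : ∀ i j, Measurable (Φ i j) := fun i j => (measurable_has t).imp (m1 (σ i).2 (σ j).2)
  obtain ⟨a0, b1, b2⟩ := exists_det (mk_prod_le cT cT) (fun k => m3 k.1 k.2) t.a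
  obtain ⟨a, b3, b4⟩ := exists_det (mk_prod_le cT hJ)
    (fun k => (measurable_has t).imp (m2 k.2 (σ k.1).2)) a0
  have a4 : ∀ i, ∀ᶠ w in gen TT, Φ i i w := fun i =>
    s0 (m1 (σ i).2 (σ i).2) ((a3 i).mono fun w c d => t2 w d _ (c d))
  obtain ⟨b, c1, -, F, c2, c3, c4, -⟩ := step cT a (Φ := Φ)
    (fun i j => (b2 (i, j)).mono (det_mono b3) le_rfl) a4 (fun i j k => by
      filter_upwards [s0 ((m1 (σ i).2 (σ j).2).imp ((m1 (σ j).2 (σ k).2).imp (m1 (σ i).2 (σ k).2)))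
        (by filter_upwards [a3 i, a3 j, a3 k] with w c d e g using t3 w g _ (c g) _ (d g) _ (e g))]
        with w c d e g using c g (d g) (e g)) fun U p k h4 => cnt_of_local (a := a) (p := p) fun q => by
      let E : Name TT → ℕ → U → World TT → Prop := fun g n x w => w.Has (⟨a, p x⟩ : TT) ∧
        (w.Has t → ((σ (k x)).1 w).pair (cNat n) ∈ w.val g)
      have m4 : ∀ g n x, Measurable (E g n x) := fun g n x => (measurable_has _).and
        ((measurable_has _).imp (((σ _).2.pair (named_cNat n)).measurable_mem (named_val g)))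
      have m5 : ∀ g, Measurable fun w => ∀ x, w.In x → w.Has (⟨a, p x⟩ : TT) →
          ∃ n, E g n x w ∧ ∀ y, w.In y → E g n y w → y = x := fun g =>
        measurable_all_in fun x => (measurable_has _).imp (Measurable.exists fun n =>
          (m4 g n x).and (measurable_all_in fun y => (m4 g n y).imp measurable_const))
      have n1 := named_of_mem_iff (y := fun w => ZFSet.range
        fun x : {x // w.In x ∧ w.Has (⟨a, p x⟩ : TT)} => (σ (k x)).1 w) (fun x => (σ (k x)).2)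
        (fun x => measurable_has (⟨a, p x⟩ : TT)) (Eventually.of_forall fun w z => by simp [and_assoc])
      have d0 := ev_all fun x => ev_all fun y => ev_imp fun e : x ≠ y => h4 x y e (k x)
      have d1 := s0 ((measurable_has t).imp (measurable_ex_in m5)) (by
        filter_upwards [n1.ev_mem, d0, ev_all fun x => a3 (k x), ev_all fun x => a4 (k x),
          ev_all fun x => ev_all fun y => a1 (σ (k x)) (σ (k y)), ev_all fun x => ev_all fun y =>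
          ev_imp fun e : x ≠ y => h4 x y e ⟨some none, fun b => cond b (k x) (k y)⟩]
          with w e1 e2 e3 e4 e5 e6 e7 e8
        obtain ⟨_, ⟨g, g1, rfl⟩, g2, g3⟩ := t4 w e7 _ e1 (fun z c => by
          obtain ⟨x, rfl⟩ := ZFSet.mem_range.1 c
          exact e3 x x.2.1 e7) fun z c z' d e i => by
          obtain ⟨x, rfl⟩ := ZFSet.mem_range.1 c
          obtain ⟨y, rfl⟩ := ZFSet.mem_range.1 d
          have := (e5 x x.2.1 y y.2.1 e7).2 i
          exact e6 x x.2.1 y y.2.1 (fun j => e (j ▸ rfl)) x.2.2 y.2.2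
            (fun _ => σ2 _ ▸ this.1) fun _ => σ2 _ ▸ this.2
        refine ⟨g, g1, fun x c d => ?_⟩
        obtain ⟨y, i, -⟩ := g2.2 _ (ZFSet.mem_range.2 ⟨⟨x, c, d⟩, rfl⟩)
        obtain ⟨n, rfl⟩ := mem_omega_iff.1 (ZFSet.pair_mem_prod.1 (g2.1 i)).2
        refine ⟨n, ⟨d, fun _ => i⟩, fun y j l => by_contra fun e => ?_⟩
        exact e2 x c y j (Ne.symm e) d l.1 (e4 x c) fun _ => g3 _ _ _ i (l.2 e8) ▸ e4 x c e8)
      obtain ⟨s, s1, g, s2⟩ := Sem.ex_in m5 (sem_of_ev (by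
        filter_upwards [d0, d1, ev_const (natName 0 : Name TT)] with w e1 e2 e3
        by_cases e : w.Has t
        · exact e2 e e
        · exact ⟨_, e3, fun x c d => ⟨0, ⟨d, fun i => absurd i e⟩, fun y i j => by_contra fun l =>
            e1 x c y i (Ne.symm l) d j.1 (fun i => absurd i e) fun i => absurd i e⟩⟩) ⟨a, q⟩)
      obtain ⟨c, s3, s4⟩ := cover (mk_le_aleph0.trans aleph0_le_continuum) (m4 g) s.a
      choose S s5 s6 using s4
      refine ⟨_, (up_le s3).trans s1, (countable_iUnion s5).mono fun x d => by_contra fun e => d ?_⟩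
      filter_upwards [s2.mono (up_le s3), ev_const x, ev_call fun n =>
        (s6 n x fun i => e (mem_iUnion.2 ⟨n, i⟩)).mono (le_zero.2 (le_refl (⟨c, s.cap⟩ : TT).a))]
        with w e1 e2 e3 e4 e5
      obtain ⟨n, e6, e7⟩ := e1 e4 x e2 e5
      obtain ⟨y, e8, e9, i⟩ := e3 n e4 e6
      exact i (e7 y e8 e9)
  refine ⟨_, up_le (c1.trans (b3.trans b1)), ?_⟩
  filter_upwards [(named_sep hP (Φ := fun x w => ∃ k, w.In k ∧ F k w ∧ ((σ k).1 w).pair x ∈ r w)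
    fun x c => measurable_ex_in fun k => (c2 k).and (m1 (σ k).2 c)).ev_mem, c3, ev_all a3,
    ev_all fun α : J => c4 _ (fun k => b4 (k, α)) fun i => by
      filter_upwards [ev_const (⟨some (some α), fun _ => i⟩ : WType (Ar J)),
        s0 ((m1 (ex (σ i) α).2 (σ i).2).and (m2 α (ex (σ i) α).2)) (by
          filter_upwards [a2 (σ i) α, a3 i] with w c d e using (c e (d e)).2)] with w c d
      exact ⟨_, c, fun e => σ3 _ _ ▸ (d e).1, fun e => σ3 _ _ ▸ (d e).2⟩] with w e1 e2 e3 e4 e5 e6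
  have e7 := e5.mono (up_le (c1.trans (b3.trans b1)))
  have e8 : ∀ k, w.In k → F k w → (σ k).1 w ∈ ZFSet.sep (fun x => ∃ k, w.In k ∧ F k w ∧
      ((σ k).1 w).pair x ∈ r w) (P w) := fun k c d =>
    ZFSet.mem_sep.2 ⟨e3 k c e6, k, c, d, t2 w e6 _ (e3 k c e6)⟩
  refine ⟨_, e1, fun x c => (ZFSet.mem_sep.1 c).1, fun x c y d e => ?_, fun x c y d => ?_,
    fun D c => ?_⟩
  · obtain ⟨g1, k, g2, g3, g4⟩ := ZFSet.mem_sep.1 c
    exact ZFSet.mem_sep.2 ⟨d, k, g2, g3, t3 w e6 _ (e3 k g2 e6) _ g1 _ d g4 e⟩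
  · obtain ⟨g1, k, g2, g3, g4⟩ := ZFSet.mem_sep.1 c
    obtain ⟨i1, k', i2, i3, i4⟩ := ZFSet.mem_sep.1 d
    obtain ⟨l, l1, l2, l3, l4⟩ := e2 k g2 k' i2 g3 i3
    exact ⟨_, e8 l l1 l2, t3 w e6 _ (e3 l l1 e6) _ (e3 k g2 e6) _ g1 (l3 e7) g4,
      t3 w e6 _ (e3 l l1 e6) _ (e3 k' i2 e6) _ i1 (l4 e7) i4⟩
  · obtain ⟨α, g2, g1⟩ := t5 w e6 D c
    obtain ⟨j, g3, g4, g5⟩ := e4 α g2 (e5.mono (le_zero.2 le_rfl))
    exact ⟨_, e8 j g3 g4, g5 e7 D c g1⟩

theorem ev_unc {J : Type} [LinearOrder J] [WellFoundedLT J] [Uncountable J] :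
    ∀ᶠ w in gen TT, ¬ CardLE w.M (w.ordTop J) ZFSet.omega := by
  have : ∀ᶠ w in gen TT, ∀ f ∈ w.M, ZFSet.IsFunc (w.ordTop J) ZFSet.omega f →
      ¬ ∀ x x' y, ZFSet.pair x y ∈ f → ZFSet.pair x' y ∈ f → x = x' :=
    ev_all_named fun f hf => ev_of_dense fun t => by
      obtain ⟨c, c1, c2⟩ := cover (mk_le_aleph0.trans aleph0_le_continuum)
        (fun (n : ℕ) (α : J) => ((named_ord α).pair (named_cNat n)).measurable_mem hf) t.a
      choose S s1 s2 using c2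
      obtain ⟨α, hα⟩ : ∃ α, α ∉ ⋃ n, S n := by_contra fun e =>
        not_countable_univ ((countable_iUnion s1).mono fun x _ => by_contra fun g => e ⟨x, g⟩)
      refine ⟨_, up_le c1, ?_⟩
      filter_upwards [ev_const α, ev_call fun n => (s2 n α fun i => hα (mem_iUnion.2 ⟨n, i⟩)).mono
        (le_zero.2 (le_refl (⟨c, t.cap⟩ : TT).a))] with w e1 e2 e3 e4 e5
      obtain ⟨y, i, -⟩ := e4.2 _ (w.mem_ordTop.2 ⟨α, e1, rfl⟩)
      obtain ⟨n, rfl⟩ := mem_omega_iff.1 (ZFSet.pair_mem_prod.1 (e4.1 i)).2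
      obtain ⟨β, e6, e7, e8⟩ := e2 n e3 i
      exact e8 ((w.ord_inj e6 e1).1 (e5 _ _ _ e7 i))
  exact this.mono fun w h ⟨f, a, b, c⟩ => h f a b c

end Pool.Agent.P.MP_b49e67_gt.MA
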