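import Pool.Agent.P.MP_b49e67_gt.MA.Kill

/-! Names of reals, and the failure of representations modulo finite sets. -/

open Set Function Cardinal Filter Pool.Agent.Lib.Helper87 PiNat
open Pool.Agent.P.MP_92f5e0_lc (OO Om bdd_Om)

namespace Pool.Agent.P.MP_b49e67_gt.MA

section
variable {P ι : Type} [Preorder P]

open Classical in
/-- values of names of binary functions -/
noncomputable def vl (w : World P) (ν : ι → Set P) (i : ι) : Bool := decide (w.Hit (ν i))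

theorem meas_vl (ν : ι → Set P) : Measurable fun w => vl w ν := measurable_pi_iff.2 fun _ => by
  classical
  exact meas_decide (measurable_hit _)

/-- names of binary functions -/
def nm (f : World P → ι → Bool) (i : ι) : Set P := {p | Sem p fun w => f w i = true}

theorem ev_nm [Countable ι] {f : World P → ι → Bool} (h : Measurable f) :
    ∀ᶠ w in gen P, vl w (nm f) = f w := by
  classical
  filter_upwards [ev_call fun i => ev_hit_sem (((measurable_pi_apply i).comp h).eq_const true)]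
    with w a
  exact funext fun i => Bool.eq_iff_iff.2 (decide_eq_true_iff.trans (a i))

end

theorem no_rep {L R : OO → OO → World TT → Set ℕ} {E : (Nd → Set TT) → World TT → Set ℕ}
    (hL : ∀ δ τ, MS (L δ τ)) (hR : ∀ δ τ, MS (R δ τ)) (hE : ∀ ρ, MS (E ρ))
    (hd : ∀ δ τ w, ∀ n ∈ L δ τ w, n ∉ R δ τ w) : ∀ᶠ w in gen TT,
      (∀ δ, w.In δ → ∀ τ, w.In τ → ∀ τ', w.In τ' → τ ≠ τ' → ∃ n, n ∈ L δ τ w ∧ n ∈ R δ τ' w) →
      ¬ ∀ ρ, w.In ρ → ∀ δ, w.In δ → ∀ τ, w.In τ → Good (vl w ρ) → (TR δ w, TR τ w) ∈ Br (vl w ρ) →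
        (L δ τ w \ E ρ w).Finite ∧ (R δ τ w ∩ E ρ w).Finite := ev_of_dense fun t => by
  classical
  let Θ : World TT → Prop := fun w => ∀ δ, w.In δ → ∀ τ, w.In τ → ∀ τ', w.In τ' → τ ≠ τ' →
    ∃ n, n ∈ L δ τ w ∧ n ∈ R δ τ' w
  have m0 : Measurable Θ := measurable_all_in fun δ => measurable_all_in fun τ =>
    measurable_all_in fun τ' => measurable_const.imp
      (Measurable.exists fun n => (hL δ τ n).and (hR δ τ' n))
  let c : OO → OO → World TT → Y := fun δ τ w n =>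
    (TR δ w n, TR τ w n, decide (Θ w → n ∈ L δ τ w), decide (Θ w → n ∈ R δ τ w))
  have m1 : ∀ δ τ, Measurable (c δ τ) := fun δ τ => measurable_pi_iff.2 fun n =>
    ((measurable_pi_apply n).comp (meas_TR δ)).prodMk (((measurable_pi_apply n).comp
      (meas_TR τ)).prodMk ((meas_decide (m0.imp (hL δ τ n))).prodMk
      (meas_decide (m0.imp (hR δ τ n)))))
  obtain ⟨b, a1, y, H, a2, a3, a4⟩ := kill m1 (fun _ _ _ => rfl) (fun δ τ τ' h => by
    filter_upwards [ev_const δ, ev_const τ, ev_const τ'] with w e1 e2 e3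
    by_cases e : Θ w
    · exact (e δ e1 τ e2 τ' e3 h).imp fun n f => by simp [c, f.1, f.2]
    · exact ⟨0, by simp [c, e]⟩) t.a
  let r : World TT → Nd → Bool := fun w v =>
    decide (∃ j, w.In j ∧ H j w ∧ nd v.1.length (px (c (y j).1 (y j).2 w)) = v)
  have m2 : Measurable r := measurable_pi_iff.2 fun v => meas_decide (measurable_ex_in fun j =>
    (a2 j).and (meas_nd (meas_px (m1 _ _)) _ (Q := fun l _ => l = v) fun _ => measurable_const))
  obtain ⟨d, d1, d2⟩ := cover (mk_le_aleph0.trans aleph0_le_continuum)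
    (Φ := fun (κ : Finset ℕ × Finset ℕ) j w => H j w ∧ L (y j).1 (y j).2 w \ E (nm r) w = κ.1 ∧
      R (y j).1 (y j).2 w ∩ E (nm r) w = κ.2) (fun κ j => (a2 j).and
      ((((hL _ _).inter (hE _).compl).meas_eq fun _ => measurable_const).and
        (((hR _ _).inter (hE _)).meas_eq fun _ => measurable_const))) b
  choose S d2 d3 using d2
  obtain ⟨j, hj⟩ := bdd_Om _ ((↑) : (⋃ κ, S κ) → Om) (countable_iUnion d2).le_aleph0
  obtain ⟨s, s1, s2⟩ := a4 j ⟨d, t.cap⟩ d1 t.bd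
  refine ⟨s, s1.trans (up_le (d1.trans a1)), ?_⟩
  filter_upwards [s2, a3.mono (le_zero.2 (s1.1.trans d1)), ev_call fun κ => (d3 κ j fun f =>
    (hj ⟨j, mem_iUnion.2 ⟨κ, f⟩⟩).false).mono (le_zero.2 s1.1), ev_nm m2, ev_const (nm r),
    ev_const (y j).1, ev_const (y j).2] with w e1 e2 e3 e4 e5 e6 e7 e8 e9 f
  obtain ⟨g1, g2, g3⟩ := e2 e8
  have g4 : r w = cs (fun j => c (y j).1 (y j).2 w) {j | H j w} := funext fun v => by
    rw [Bool.eq_iff_iff, cs_iff, decide_eq_true_iff]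
    exact ⟨fun ⟨j, _, i⟩ => ⟨j, i⟩, fun ⟨j, i, l⟩ => ⟨j, g1 j i, i, l⟩⟩
  obtain ⟨f1, f2⟩ := f _ e5 _ e6 _ e7 (e4 ▸ g4 ▸ g2) (by
    rw [e4, g4]
    exact fun k => cs_nd.2 ⟨j, e1 e8, rfl⟩)
  obtain ⟨i, -, ⟨i1, i2, i3⟩, i4⟩ := e3 (f1.toFinset, f2.toFinset) e8 ⟨e1 e8, by simp, by simp⟩
  simp only [Finite.coe_toFinset] at i2 i3
  obtain ⟨n, h | h⟩ := g3 i1 (e1 e8) i4 <;>
    simp only [c, decide_eq_true_eq, forall_prop_of_true (show Θ w from e9)] at h <;>
    by_cases o : n ∈ E (nm r) w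
  exacts [hd _ _ _ n h.1 (i3.ge ⟨h.2, o⟩).1, hd _ _ _ n (i2.le ⟨h.1, o⟩).1 h.2,
    hd _ _ _ n h.2 (i3.le ⟨h.1, o⟩).1, hd _ _ _ n (i2.ge ⟨h.2, o⟩).1 h.1]

end Pool.Agent.P.MP_b49e67_gt.MA
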