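import Mathlib

/-! Nodes of the plane, colourings, and self-coding trees. -/

open Set Function PiNat

namespace Pool.Agent.P.MP_b49e67_gt.MA

abbrev C : Type := ℕ → Bool
abbrev X : Type := C × C
abbrev Nd : Type := List Bool × List Bool
abbrev Bx : Type := List (Bool × Bool × Bool × Bool)

def nd (k : ℕ) (x : X) : Nd := (res x.1 k, res x.2 k)

noncomputable def Gf (n : ℕ) : Finset Nd :=
  (exists_surjective_nat (Finset Nd)).choose n.unpair.1

theorem exists_Gf (u : Finset Nd) (N : ℕ) : ∃ n, N ≤ n ∧ Gf n = u := by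
  obtain ⟨i, hi⟩ := (exists_surjective_nat (Finset Nd)).choose_spec u
  exact ⟨Nat.pair i N, Nat.right_le_pair _ _, by simp [Gf, hi]⟩

def gb (u : Finset Nd) (v : Nd) : Bool := decide (v ∈ u)

def Spl (n : ℕ) (a b : C) : Prop := a n ≠ b n ∧ ∀ i < n, a i = b i

def Ag (k : ℕ) (r r' : Nd → Bool) : Prop := ∀ v : Nd, v.1.length ≤ k → r v = r' v

open Classical in
noncomputable def code (S : Set X) (v : Nd) : Bool := decide (∃ x ∈ S, nd v.1.length x = v)

theorem nd_eq {k : ℕ} {x y : X} : nd k x = nd k y ↔ ∀ i < k, x.1 i = y.1 i ∧ x.2 i = y.2 i := by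
  simp only [nd, Prod.mk.injEq, res_eq_res]
  exact ⟨fun h i hi => ⟨h.1 hi, h.2 hi⟩, fun h => ⟨fun i hi => (h i hi).1, fun i hi => (h i hi).2⟩⟩

theorem code_nd {S : Set X} {k : ℕ} {p : X} : code S (nd k p) = true ↔ ∃ x ∈ S, nd k x = nd k p := by
  have : (nd k p).1.length = k := res_length _ _
  classical
  rw [code, this]
  exact decide_eq_true_iff

theorem Spl.symm {n : ℕ} {a b : C} (h : Spl n a b) : Spl n b a :=
  ⟨h.1.symm, fun i hi => (h.2 i hi).symm⟩

theorem Spl.unique {n n' : ℕ} {a b : C} (h : Spl n a b) (h' : Spl n' a b) : n = n' := by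
  rcases lt_trichotomy n n' with c | c | c
  exacts [absurd (h'.2 n c) h.1, c, absurd (h.2 n' c) h'.1]

theorem exists_spl {a b : C} (h : a ≠ b) : ∃ n, Spl n a b := by
  have : ∃ n, a n ≠ b n := Function.ne_iff.1 h
  exact ⟨Nat.find this, Nat.find_spec this, fun i hi => not_not.1 (Nat.find_min this hi)⟩

theorem exists_fin (s : Finset X) (m : ℕ) : ∃ u : Finset Nd, Ag m (gb u) (code s) := by
  classical
  refine ⟨((Finset.range (m + 1)) ×ˢ s).image fun z => nd z.1 z.2, fun v hv => ?_⟩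
  simp only [gb, code, Finset.mem_image, Finset.mem_product, Finset.mem_range, Finset.mem_coe,
    decide_eq_decide, Prod.exists]
  constructor
  · rintro ⟨k, a, b, ⟨-, h⟩, rfl⟩
    exact ⟨a, b, h, by simp [nd]⟩
  · rintro ⟨a, b, h, e⟩
    exact ⟨_, a, b, ⟨Nat.lt_succ_of_le hv, h⟩, e⟩

def Br (r : Nd → Bool) : Set X := {p | ∀ k, r (nd k p) = true}

def Wit (r : Nd → Bool) (k N : ℕ) : Prop :=
  (∀ n, N ≤ n → ∀ p q : X, r (nd (n + 1) p) = true → r (nd (n + 1) q) = true → Spl n p.1 q.1 →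
    Ag k (gb (Gf n)) r) ∧
  ∀ p q : X, r (nd N p) = true → r (nd N q) = true → res p.1 N = res q.1 N → res p.2 k = res q.2 k

def Good (r : Nd → Bool) : Prop := ∀ k, ∃ N, Wit r k N

theorem spl_res {n : ℕ} {a a' d : C} (h : Spl n a d) {k : ℕ} (hk : n < k)
    (e : res a k = res a' k) : Spl n a' d :=
  ⟨res_eq_res.1 e hk ▸ h.1, fun i hi => res_eq_res.1 e (hi.trans hk) ▸ h.2 i hi⟩

theorem Good.graph {r : Nd → Bool} (h : Good r) {p q : X} (hp : p ∈ Br r) (hq : q ∈ Br r)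
    (e : p.1 = q.1) : p.2 = q.2 := funext fun i =>
  let ⟨N, hN⟩ := h (i + 1)
  res_eq_res.1 (hN.2 p q (hp N) (hq N) (by rw [e])) i.lt_succ_self

end Pool.Agent.P.MP_b49e67_gt.MA
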