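import Pool.Agent.P.MP_b49e67_gt.MA.NoRep
import Pool.Agent.P.MP_b49e67_gt.CCTop

/-! The self-coding compactum in the extension. -/

open Set Function Filter Pool.Agent.Lib.Helper87 PiNat Pool.Agent.P.MP_6e1b89_gt
open Pool.Agent.P.MP_b49e67_gt.CC

namespace Pool.Agent.P.MP_b49e67_gt.MA

/-- labels of the coordinates -/
inductive Lb : Type
  | x (n : ℕ)
  | t (n : ℕ)
  | k (d : ℕ → Set TT) (v : Nd)
  | c (d : ℕ → Set TT)
  | a (d e : ℕ → Set TT)
  | b (ρ : Nd → Set TT)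

open Classical in
noncomputable def xz (z : Set Lb) : X := (fun n => decide (.x n ∈ z), fun n => decide (.t n ∈ z))

open Classical in
noncomputable def kz (z : Set Lb) (d : ℕ → Set TT) (v : Nd) : Bool := decide (.k d v ∈ z)

theorem kz_iff {z : Set Lb} {d : ℕ → Set TT} {v : Nd} : kz z d v = true ↔ .k d v ∈ z := by
  simp [kz]

/-- the constraints -/
def Con (z : Set Lb) (w : World TT) : Prop :=
  (∀ d, w.In d → .c d ∈ z → (xz z).1 = vl w d) ∧
  (∀ d, w.In d → ∀ e, w.In e → .a d e ∈ z → .c d ∈ z ∧ (xz z).2 = vl w e) ∧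
  (∀ ρ, w.In ρ → .b ρ ∈ z → Good (vl w ρ) ∧ xz z ∈ Br (vl w ρ)) ∧
  (∀ ρ, w.In ρ → ∀ d, w.In d → ∀ e, w.In e → Good (vl w ρ) → (vl w d, vl w e) ∈ Br (vl w ρ) →
    .c d ∈ z → (.b ρ ∈ z ↔ .a d e ∈ z)) ∧
  (∀ d, w.In d → ∀ n, Spl n (xz z).1 (vl w d) → ∀ v, kz z d v = gb (Gf n) v) ∧
  (∀ ρ, w.In ρ → ∀ d, w.In d → ∀ e, w.In e → ∀ k N, Wit (vl w ρ) k N →
    (vl w d, vl w e) ∈ Br (vl w ρ) → .b ρ ∈ z → .c d ∉ z → nd N ((xz z).1, (xz z).1) =
      nd N (vl w d, vl w d) → ∀ v : Nd, v.1.length ≤ k → kz z d v = vl w ρ v) ∧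
  (∀ d, w.In d → ∀ d', w.In d' → vl w d = vl w d' → (.c d ∈ z → .c d' ∈ z) ∧
    (∀ v, .k d v ∈ z → .k d' v ∈ z) ∧
      ∀ e, w.In e → ∀ e', w.In e' → vl w e = vl w e' → .a d e ∈ z → .a d' e' ∈ z) ∧
  ∀ ρ, w.In ρ → ∀ ρ', w.In ρ' → vl w ρ = vl w ρ' → .b ρ ∈ z → .b ρ' ∈ z

section
variable {W : Type*} [MeasurableSpace W] {r : W → Nd → Bool}

theorem meas_wit (h : Measurable r) (k N : ℕ) : Measurable fun w => Wit (r w) k N := by
  have : ∀ w, Wit (r w) k N ↔ (∀ n, ∀ v v' : Nd, r w v = true → r w v' = true → (N ≤ n ∧ ∃ p q : X,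
      nd (n + 1) p = v ∧ nd (n + 1) q = v' ∧ Spl n p.1 q.1) → ∀ u : Nd, u.1.length ≤ k →
      gb (Gf n) u = r w u) ∧ ∀ v v' : Nd, r w v = true → r w v' = true → ∀ p q : X, nd N p = v →
      nd N q = v' → res p.1 N = res q.1 N → res p.2 k = res q.2 k := fun w =>
    ⟨fun c => ⟨fun n _ _ a b ⟨d, p, q, e, f, g⟩ => c.1 n d p q (e ▸ a) (f ▸ b) g,
      fun _ _ a b p q e f => c.2 p q (e ▸ a) (f ▸ b)⟩, fun c => ⟨fun n d p q a b g =>
      c.1 n _ _ a b ⟨d, p, q, rfl, rfl, g⟩, fun p q a b => c.2 _ _ a b p q rfl rfl⟩⟩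
  simp only [this]
  have m : ∀ v b, Measurable fun w => r w v = b := fun v => ((measurable_pi_apply v).comp h).eq_const
  exact (Measurable.forall fun n => Measurable.forall fun v => Measurable.forall fun v' =>
    (m v _).imp ((m v' _).imp (measurable_const.imp (Measurable.forall fun u =>
      measurable_const.imp (measurable_const.eq ((measurable_pi_apply u).comp h)))))).and
    (Measurable.forall fun v => Measurable.forall fun v' =>
      (m v _).imp ((m v' _).imp measurable_const))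

theorem meas_good (h : Measurable r) : Measurable fun w => Good (r w) :=
  Measurable.forall fun k => Measurable.exists fun N => meas_wit h k N

theorem meas_br (h : Measurable r) {p : W → X} (hp : Measurable p) :
    Measurable fun w => p w ∈ Br (r w) := Measurable.forall fun k =>
  meas_nd hp k (Q := fun v w => r w v = true) fun v => ((measurable_pi_apply v).comp h).eq_const _

theorem meas_spl {f g : W → C} (hf : Measurable f) (hg : Measurable g) (n : ℕ) :
    Measurable fun w => Spl n (f w) (g w) := by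
  unfold Spl
  fun_prop

end

theorem meas_xz {z : World TT → Set Lb} (h : NP z) : Measurable fun w => xz (z w) := by
  classical
  exact (measurable_pi_iff.2 fun n => meas_decide (h.1 _)).prodMk
    (measurable_pi_iff.2 fun n => meas_decide (h.1 _))

theorem meas_kz {z : World TT → Set Lb} (h : NP z) (d : ℕ → Set TT) :
    Measurable fun w => kz (z w) d := by
  classical
  exact measurable_pi_iff.2 fun n => meas_decide (h.1 _)

theorem nd_xz {y z : Set Lb} {N : ℕ} (h : ∀ n < N, (.x n ∈ y ↔ .x n ∈ z) ∧ (.t n ∈ y ↔ .t n ∈ z)) :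
    nd N (xz y) = nd N (xz z) := nd_eq.2 fun i hi => by simp [xz, h i hi]

/-- the space -/
def SS : Sp TT Lb where
  con := Con
  meas z h := by
    have m1 := meas_xz h
    have m2 : ∀ d v, Measurable fun w => kz (z w) d v := fun d v =>
      (measurable_pi_apply v).comp (meas_kz h d)
    exact (measurable_all_in fun d => (h.1 _).imp (m1.fst.eq (meas_vl d))).and
      ((measurable_all_in fun d => measurable_all_in fun e => (h.1 _).imp ((h.1 _).and
        (m1.snd.eq (meas_vl e)))).and ((measurable_all_in fun ρ => (h.1 _).imp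
        ((meas_good (meas_vl ρ)).and (meas_br (meas_vl ρ) m1))).and
      ((measurable_all_in fun ρ => measurable_all_in fun d => measurable_all_in fun e =>
        (meas_good (meas_vl ρ)).imp ((meas_br (meas_vl ρ) ((meas_vl d).prodMk (meas_vl e))).imp
        ((h.1 _).imp ((h.1 _).iff (h.1 _))))).and
      ((measurable_all_in fun d => Measurable.forall fun n => (meas_spl m1.fst (meas_vl d) n).imp
        (Measurable.forall fun v => (m2 d v).eq_const _)).and
      ((measurable_all_in fun ρ => measurable_all_in fun d => measurable_all_in fun e =>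
        Measurable.forall fun k => Measurable.forall fun N => (meas_wit (meas_vl ρ) k N).imp
        ((meas_br (meas_vl ρ) ((meas_vl d).prodMk (meas_vl e))).imp ((h.1 _).imp
        ((h.1 _).not.imp ((meas_nd (m1.fst.prodMk m1.fst) N
          (Q := fun v w => v = nd N (vl w d, vl w d)) fun v => meas_nd
          ((meas_vl d).prodMk (meas_vl d)) N (Q := fun u _ => v = u) fun _ => measurable_const).imp
        (Measurable.forall fun v => measurable_const.imp ((m2 d v).eq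
          ((measurable_pi_apply v).comp (meas_vl ρ))))))))).and
      ((measurable_all_in fun d => measurable_all_in fun d' => ((meas_vl d).eq (meas_vl d')).imp
        (((h.1 _).imp (h.1 _)).and ((Measurable.forall fun v => (h.1 _).imp (h.1 _)).and
        (measurable_all_in fun e => measurable_all_in fun e' => ((meas_vl e).eq (meas_vl e')).imp
        ((h.1 _).imp (h.1 _)))))).and
      (measurable_all_in fun ρ => measurable_all_in fun ρ' => ((meas_vl ρ).eq (meas_vl ρ')).imp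
        ((h.1 _).imp (h.1 _)))))))))
  closed w z h := by
    classical
    have h' : ∀ (l1 l2 l3 : Lb) (N : ℕ), ∃ y, Con y w ∧ (l1 ∈ y ↔ l1 ∈ z) ∧ (l2 ∈ y ↔ l2 ∈ z) ∧
        (l3 ∈ y ↔ l3 ∈ z) ∧ nd N (xz y) = nd N (xz z) := fun l1 l2 l3 N => by
      obtain ⟨y, a, b⟩ := h ({l1, l2, l3} ∪ ((Finset.range N).image .x ∪ (Finset.range N).image .t))
      exact ⟨y, a, b _ (by simp), b _ (by simp), b _ (by simp), nd_xz fun n c =>
        ⟨b _ (by simp [c]), b _ (by simp [c])⟩⟩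
    refine ⟨fun d a b => funext fun n => ?_, fun d a e b c => ⟨?_, funext fun n => ?_⟩,
      fun ρ a b => ⟨?_, fun n => ?_⟩, fun ρ a d b e c f g i => ?_, fun d a n b v => ?_,
      fun ρ a d b e c k N f g i j l v o => ?_, fun d a d' b c => ⟨fun e => ?_, fun v e => ?_,
      fun e f e' g i j => ?_⟩, fun ρ a ρ' b c e => ?_⟩
    · obtain ⟨y, y1, y2, -, -, y3⟩ := h' (.c d) (.c d) (.c d) (n + 1)
      rw [← (nd_eq.1 y3 n n.lt_succ_self).1, y1.1 d a (y2.2 b)]
    · obtain ⟨y, y1, y2, y3, -⟩ := h' (.a d e) (.c d) (.c d) 0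
      exact y3.1 (y1.2.1 d a e b (y2.2 c)).1
    · obtain ⟨y, y1, y2, -, -, y3⟩ := h' (.a d e) (.c d) (.c d) (n + 1)
      rw [← (nd_eq.1 y3 n n.lt_succ_self).2, (y1.2.1 d a e b (y2.2 c)).2]
    · obtain ⟨y, y1, y2, -⟩ := h' (.b ρ) (.b ρ) (.b ρ) 0
      exact (y1.2.2.1 ρ a (y2.2 b)).1
    · obtain ⟨y, y1, y2, -, -, y3⟩ := h' (.b ρ) (.b ρ) (.b ρ) n
      exact y3 ▸ (y1.2.2.1 ρ a (y2.2 b)).2 n
    · obtain ⟨y, y1, y2, y3, y4, -⟩ := h' (.b ρ) (.a d e) (.c d) 0
      rw [← y2, ← y3]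
      exact y1.2.2.2.1 ρ a d b e c f g (y4.2 i)
    · obtain ⟨y, y1, y2, -, -, y3⟩ := h' (.k d v) (.c d) (.c d) (n + 1)
      rw [← y1.2.2.2.2.1 d a n (spl_res b n.lt_succ_self (congrArg Prod.fst y3).symm) v]
      simp [kz, y2]
    · obtain ⟨y, y1, y2, y3, y4, y5⟩ := h' (.k d v) (.c d) (.b ρ) N
      rw [← y1.2.2.2.2.2.1 ρ a d b e c k N f g (y4.2 i) (mt y3.1 j)
        (nd_eq.2 fun i c => ⟨(nd_eq.1 y5 i c).1.trans (nd_eq.1 l i c).1,
          (nd_eq.1 y5 i c).1.trans (nd_eq.1 l i c).1⟩) v o]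
      simp [kz, y2]
    · obtain ⟨y, y1, y2, y3, -⟩ := h' (.c d) (.c d') (.c d) 0
      exact y3.1 ((y1.2.2.2.2.2.2.1 d a d' b c).1 (y2.2 e))
    · obtain ⟨y, y1, y2, y3, -⟩ := h' (.k d v) (.k d' v) (.c d) 0
      exact y3.1 ((y1.2.2.2.2.2.2.1 d a d' b c).2.1 v (y2.2 e))
    · obtain ⟨y, y1, y2, y3, -⟩ := h' (.a d e) (.a d' e') (.c d) 0
      exact y3.1 ((y1.2.2.2.2.2.2.1 d a d' b c).2.2 e f e' g i (y2.2 j))
    · obtain ⟨y, y1, y2, y3, -⟩ := h' (.b ρ) (.b ρ') (.b ρ) 0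
      exact y3.1 (y1.2.2.2.2.2.2.2 ρ a ρ' b c (y2.2 e))

/-- the names which occur in a label lie in the model -/
def Lb.ok (w : World TT) : Lb → Prop
  | .x _ => True
  | .t _ => True
  | .k d _ => w.In d
  | .c d => w.In d
  | .a d e => w.In d ∧ w.In e
  | .b ρ => w.In ρ

theorem ev_lb : ∀ᶠ w in gen TT, ∀ l : Lb, w.In l ↔ l.ok w := by
  filter_upwards [ev_all (Φ := fun (l : Lb) w => l.ok w) fun l => by
      cases l <;> simp only [Lb.ok, eventually_true, eventually_and, ev_const, and_self],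
    ev_call fun n => ev_const (Lb.x n), ev_call fun n => ev_const (Lb.t n),
    ev_all fun d => ev_call fun v => ev_const (Lb.k d v), ev_fun Lb.c, ev_fun₂ Lb.a, ev_fun Lb.b]
    with w a1 a2 a3 a4 a5 a6 a7 l
  refine ⟨a1 l, ?_⟩
  cases l
  exacts [fun _ => a2 _, fun _ => a3 _, fun h => a4 _ h _, a5 _, fun h => a6 _ h.1 _ h.2, a7 _]

/-- the isolated point over a pair of reals -/
def pt (d e : ℕ → Set TT) (w : World TT) : Lb → Prop
  | .x n => vl w d n = true
  | .t n => vl w e n = true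
  | .k d' v => ∃ n, Spl n (vl w d) (vl w d') ∧ gb (Gf n) v = true
  | .c d' => vl w d = vl w d'
  | .a d' e' => vl w d = vl w d' ∧ vl w e = vl w e'
  | .b ρ => Good (vl w ρ) ∧ (vl w d, vl w e) ∈ Br (vl w ρ)

theorem ev_pt (d e : ℕ → Set TT) : ∀ᶠ w in gen TT, {l | w.In l ∧ pt d e w l} ∈ SS.K w := by
  classical
  have h : NP fun w => {l | w.In l ∧ pt d e w l} := ⟨fun l => (CC.meas_in l).and (by
    cases l
    exacts [((measurable_pi_apply _).comp (meas_vl d)).eq_const _,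
      ((measurable_pi_apply _).comp (meas_vl e)).eq_const _, Measurable.exists fun n =>
        (meas_spl (meas_vl _) (meas_vl _) n).and measurable_const, (meas_vl _).eq (meas_vl _),
      ((meas_vl _).eq (meas_vl _)).and ((meas_vl _).eq (meas_vl _)), (meas_good (meas_vl _)).and
        (meas_br (meas_vl _) ((meas_vl d).prodMk (meas_vl e)))]),
    Eventually.of_forall fun _ _ h => h.1⟩
  filter_upwards [h.named.ev_mem, ev_lb] with w a1 a2
  have a3 : xz {l | w.In l ∧ pt d e w l} = (vl w d, vl w e) := by simp [xz, a2, Lb.ok, pt]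
  have a4 : ∀ d', w.In d' → ∀ n, Spl n (vl w d) (vl w d') → ∀ v,
      kz {l | w.In l ∧ pt d e w l} d' v = gb (Gf n) v := fun d' b n c v => by
    rw [Bool.eq_iff_iff, kz_iff]
    exact ⟨fun ⟨_, m, f, g⟩ => c.unique f ▸ g, fun f => ⟨(a2 _).2 b, n, c, f⟩⟩
  refine ⟨fun _ h => h.1, ?_, a1⟩
  change Con _ _
  rw [Con, a3]
  refine ⟨fun _ _ b => b.2, fun _ b _ _ c => ⟨⟨(a2 _).2 b, c.2.1⟩, c.2.2⟩, fun _ _ b => b.2,
    fun ρ b d' c e' f g i j => ⟨fun l => ⟨(a2 _).2 ⟨c, f⟩, j.2, g.graph l.2.2 i j.2⟩, fun l =>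
      ⟨(a2 _).2 b, g, by rw [l.2.1, l.2.2]; exact i⟩⟩, a4, fun ρ _ d' c e' _ k N g i j l o v q => ?_,
    fun d1 _ d2 b c => ⟨fun f => ⟨(a2 _).2 b, f.2.trans c⟩, fun v f => ⟨(a2 _).2 b, ?_⟩,
      fun _ _ _ f g i => ⟨(a2 _).2 ⟨b, f⟩, i.2.1.trans c, i.2.2.trans g⟩⟩,
    fun ρ _ ρ' b c f => ⟨(a2 _).2 b, ?_⟩⟩
  · obtain ⟨n, hn⟩ := exists_spl fun f : vl w d = vl w d' => l ⟨(a2 _).2 c, f⟩
    rw [a4 d' c n hn]
    exact g.1 n (not_lt.1 fun f => hn.1 (nd_eq.1 o n f).1) _ _ (j.2.2 _) (i _) hn v q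
  · simpa only [pt, c] using f.2
  · simpa only [pt, c] using f.2

end Pool.Agent.P.MP_b49e67_gt.MA
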