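import Pool.Agent.P.MP_b49e67_gt.MA.Book
import Pool.Agent.P.MP_b49e67_gt.Base

/-! Successor steps of the iteration, and the Cohen reals. -/

open Set Function Cardinal Filter Pool.Agent.Lib.Helper87 PiNat
open scoped MeasureTheory
open Pool.Agent.P.MP_92f5e0_lc (OO exists_surj mk_Iio_OO)

namespace Pool.Agent.P.MP_b49e67_gt.MA

variable {a : AA} {s t : TT} {ξ : OO}

theorem upd_le {D : Dt} {p : Cd} {v : Wv} (h : (p ξ).s <:+ v.s)
    (h' : Rl D (rs (Iio ξ) p) (.inr (ξ, v.i, (p ξ).i))) : Le D (p.update ξ v) p :=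
  le_iff.2 fun η => by
    classical
    by_cases c : η = ξ
    · subst c
      rw [rs_congr (I := Iio η) (q := p) fun ζ d => by simp [(mem_Iio.1 d).ne]]
      simpa using ⟨h, h'⟩
    · rw [show p.update ξ v η = p η by simp [c]]
      exact ⟨List.suffix_rfl, .refl⟩

theorem le_at (h : s ≤ t) (c : ξ < t.a.δ) : (t.p ξ).s <:+ (s.p ξ).s ∧
    Rl s.a.D (rs (Iio ξ) s.p) (.inr (ξ, (s.p ξ).i, (t.p ξ).i)) := by
  have := le_iff.1 h.2 ξ
  rwa [TT.cap, TT.cap, rs_in (show ξ ∈ Iio t.a.δ from c),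
    rs_in (show ξ ∈ Iio s.a.δ from c.trans_le h.1.1),
    rs_rs (Iio_subset_Iio (c.le.trans h.1.1))] at this

theorem step {T : Type} [Nonempty T] (hT : #T ≤ 𝔠) (a : AA) {Φ : T → T → World TT → Prop}
    (h1 : ∀ i j, Measurable[det a] (Φ i j)) (h2 : ∀ i, ∀ᶠ w in gen TT, Φ i i w)
    (h3 : ∀ i j k, ∀ᶠ w in gen TT, Φ i j w → Φ j k w → Φ i k w)
    (h4 : ∀ (U : Type) (p : U → Cd) (k : U → T), (∀ x y, x ≠ y → ∀ z, ∀ᶠ w in gen TT,
      w.Has ⟨a, p x⟩ → w.Has ⟨a, p y⟩ → Φ z (k x) w → ¬ Φ z (k y) w) → Countable U) :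
    ∃ b ≤ a, a.δ < b.δ ∧ ∃ F : T → World TT → Prop, (∀ k, Measurable (F k)) ∧
      (∀ᶠ w in gen TT, ∀ k, w.In k → ∀ k', w.In k' → F k w → F k' w →
        ∃ l, w.In l ∧ F l w ∧ Φ l k w ∧ Φ l k' w) ∧
      (∀ Ψ : T → World TT → Prop, (∀ k, Measurable[det a] (Ψ k)) →
        (∀ i, ∀ᶠ w in gen TT, ∃ j, w.In j ∧ Φ j i w ∧ Ψ j w) →
        Sem (⟨b, 0⟩ : TT) fun w => ∃ j, w.In j ∧ F j w ∧ Ψ j w) ∧
      ∀ k (t : TT), t.a ≤ b → (t.p a.δ).i = none → ∃ s ≤ t, Sem s (F k) := by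
  classical
  obtain ⟨ρ, hρ⟩ := exists_surj hT
  obtain ⟨δ, d1, d2⟩ := (wellFounded_lt (α := OO)).has_min (Ioi a.δ) (exists_gt a.δ)
  let E : Ω → Ω → Set Cd := fun i j => {y | Sem (⟨a, y⟩ : TT) (Φ (ρ i) (ρ j))}
  have k1 : ∀ D : Dt, (∀ ξ ∈ Iio a.δ, D ξ = a.D ξ) → D a.δ = E → ∀ q x, Rl D q x →
      Bd (Iio a.δ) q → ∀ i j, x = .inr (a.δ, some i, some j) → q ∈ E i j := by
    intro D e1 e2 q x h
    induction h with
    | le => simp
    | refl =>
      rintro - i j ⟨⟩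
      exact sem_of_ev (h2 _) _
    | top => simp
    | base c d =>
      rintro e i j ⟨⟩
      exact Sem.mono (e2 ▸ c :) (mk_le (Le.congr e1 d e))
    | @trans q ξ i j k _ d ih ih' =>
      rintro e i' k' ⟨⟩
      cases j with
      | none => cases d.none _ _ rfl
      | some j =>
        exact Sem.imp (Sem.and (ih e _ _ rfl) (ih' e _ _ rfl))
          ((h3 _ _ _).mono fun _ c d => c d.1 d.2)
  have k2 : ∀ D : Dt, (∀ ξ ∈ Iio a.δ, D ξ = a.D ξ) → D a.δ = E → ∀ (s : TT) p z,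
      s ≤ ⟨a, p⟩ → ((p a.δ).i ≠ none → Sem s (Φ (ρ z) (ρ ((p a.δ).i.getD 0)))) →
      Le D ((join (Iio a.δ) s.p p).update a.δ ⟨some z, (p a.δ).s⟩) p := fun D e1 e2 s p z c d => by
    refine (upd_le ?_ ?_).trans (join_le (isLowerSet_Iio _)
      ((proj_le c c.1 le_rfl).2.congr (fun ξ c => (e1 ξ c).symm) (bd_rs _ _))) <;>
      rw [join_out (I := Iio a.δ) (ξ := a.δ) (by simp)]
    rw [rs_congr (I := Iio a.δ) (q := s.p) fun _ => join_in]
    cases e : (p a.δ).i with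
    | none => exact .top
    | some j =>
      rw [e] at d
      exact .base (e2 ▸ (((det_iff.1 (h1 _ _)).2 s c.1 (d (by simp))).mono
        (up_le (t := ⟨a, s.p⟩) le_rfl) :)) (Le.refl _)
  let D := update a.D a.δ E
  have e1 : ∀ ξ ∈ Iio a.δ, D ξ = a.D ξ := fun ξ c => update_of_ne (ne_of_lt c) _ _
  have e2 : D a.δ = E := update_self _ _ _
  have k3 : Ccc D (Iio δ) := fun A c1 c2 => by
    refine (countable_iUnion fun σ : List Bool => (h4 {q ∈ A | (q a.δ).s = σ} (↑)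
      (fun q => ρ ((q.1 a.δ).i.getD 0)) fun x y e z => ev_of_not_sem ((measurable_has _).imp
        ((measurable_has _).imp ((det_iff.1 (h1 _ _)).1.imp (det_iff.1 (h1 _ _)).1.not)))
        fun s f => ?_ : Set.Countable _)).mono fun p c => by simpa using c
    obtain ⟨z, rfl⟩ := hρ z
    obtain ⟨u, f1, f2⟩ := sem_has_le (f.imp' fun _ g => (Classical.not_imp.1 g).1)
    obtain ⟨r, f3, f4⟩ := sem_has_le ((f.mono f1).imp' fun _ g => by_contra fun i =>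
      g fun _ j => absurd j i)
    have f5 : ∀ q ∈ A, (join (Iio a.δ) r.p q).update a.δ ⟨some z, σ⟩ =
        (rs (Iio a.δ) r.p).update a.δ ⟨some z, σ⟩ := fun q g => Finsupp.ext fun η => by
      rcases lt_trichotomy η a.δ with i | rfl | i
      · simp [i.ne, join_in (show η ∈ Iio a.δ from i), rs_in (show η ∈ Iio a.δ from i)]
      · simp
      · simp [i.ne', join_out (show η ∉ Iio a.δ from i.not_gt),
          rs_out (show η ∉ Iio a.δ from i.not_gt), c1 q g η (d2 η i)]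
    have g1 := k2 D e1 e2 r x z (f3.trans f2) fun _ => (f.mono (f3.trans f1)).imp' fun _ g =>
      by_contra fun i => g fun _ _ j => absurd j i
    have g2 := k2 D e1 e2 r y z f4 fun _ => (f.mono (f3.trans f1)).imp' fun _ g =>
      by_contra fun i => g fun _ _ _ => i
    rw [x.2.2, f5 _ x.2.1] at g1
    rw [y.2.2, f5 _ y.2.1] at g2
    exact c2 x.2.1 y.2.1 (Subtype.coe_ne_coe.2 e) ⟨_, g1, g2⟩
  let b : AA := ⟨δ, D, k3⟩
  have k4 : b ≤ a := ⟨le_of_lt d1, e1⟩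
  let F : T → World TT → Prop := fun k w => w.Frc fun t => ∃ s, t ≤ s ∧ s.a ≤ b ∧
    ∃ i, (s.p a.δ).i = some i ∧ ρ i = k
  have k5 : ∀ t : TT, t.a ≤ b → ∀ s ≤ (⟨a, t.p⟩ : TT), ∀ k, ((t.p a.δ).i ≠ none →
      Sem s (Φ k (ρ ((t.p a.δ).i.getD 0)))) → ∃ u ≤ t, u ≤ ⟨a, s.p⟩ ∧ Sem u (F k) :=
    fun t c s d k e => by
    obtain ⟨z, rfl⟩ := hρ k
    have c2 := k2 t.a.D (c.trans k4).2 ((c.2 _ d1).trans e2) s t.p z d e
    refine ⟨⟨t.a, _⟩, mk_le c2, ?_, Eventually.of_forall fun w ⟨r, f, g⟩ =>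
      ⟨r, f, _, g, c, z, by simp, rfl⟩⟩
    have := le_proj (t := ⟨t.a, (join (Iio a.δ) s.p t.p).update a.δ ⟨some z, (t.p a.δ).s⟩⟩)
      (c.trans k4)
    refine ⟨this.1, (congrArg _ (rs_congr fun η f => ?_)).mp this.2⟩
    simp [(mem_Iio.1 f).ne, join_in f]
  have k6 : ∀ u s : TT, u ≤ s → s.a ≤ b → ∀ j, (s.p a.δ).i = some j →
      ∃ i, (u.p a.δ).i = some i ∧ Sem u (Φ (ρ i) (ρ j)) := fun u s c d j e => by
    have c1 := (le_at c (d1.trans_le d.1)).2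
    have c2 := c.1.trans d
    rw [e] at c1
    cases f : (u.p a.δ).i with
    | none => cases (f ▸ c1).none _ _ rfl
    | some i => exact ⟨i, rfl, Sem.mono (k1 _ (c2.trans k4).2 ((c2.2 _ d1).trans e2) _ _ (f ▸ c1)
        (bd_rs _ _) i j rfl) ((le_proj (c2.trans k4)).trans (mk_le (le_rs _ _)))⟩
  refine ⟨b, k4, d1, F, fun k => measurable_frc fun _ _ c ⟨s, d, e⟩ => ⟨s, c.trans d, e⟩, ?_,
    fun Ψ c d => sem_of_dense fun t e => ?_, fun k t c d => ?_⟩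
  · filter_upwards [ev_generic, ev_fun fun u : TT => ρ ((u.p a.δ).i.getD 0),
      ev_all fun l => ev_all fun k => ev_sem (Φ l k)] with w c1 c2 c3 k f k' f'
    rintro ⟨t, g1, s, g2, g3, j, g4, rfl⟩ ⟨t', i1, s', i2, i3, j', i4, rfl⟩
    obtain ⟨u, u1, u2, u3⟩ := c1.dir t g1 t' i1
    obtain ⟨i, u4, u5⟩ := k6 u s (u2.trans g2) g3 j g4
    obtain ⟨i', u6, u7⟩ := k6 u s' (u3.trans i2) i3 j' i4
    obtain rfl : i = i' := Option.some.inj (u4.symm.trans u6)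
    have u8 : w.In (ρ i) := by simpa [u4] using c2 u (c1.mem u u1)
    exact ⟨ρ i, u8, ⟨u, u1, u, le_rfl, (u2.trans g2).1.trans g3, i, u4, rfl⟩,
      c3 _ u8 _ f u (w.has_of_mem u1) u5, c3 _ u8 _ f' u (w.has_of_mem u1) u7⟩
  · obtain ⟨s, s1, j, s2⟩ := Sem.ex_in (fun j => (det_iff.1 (h1 j _)).1.and (det_iff.1 (c j)).1)
      (sem_of_ev (d (ρ ((t.p a.δ).i.getD 0))) t)
    have s3 := e.1.trans k4
    obtain ⟨u, u1, u2, u3⟩ := k5 t e.1 s (s1.trans (le_proj s3)) j fun _ => s2.imp' fun _ => And.left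
    exact ⟨u, u1, (u3.and (((det_iff.1 (c j)).2 s (s1.1.trans s3)
      (s2.imp' fun _ => And.right)).mono u2)).imp ((ev_const j).mono fun _ f g => ⟨j, f, g⟩)⟩
  · exact (k5 t c t (le_proj (c.trans k4)) k fun e => absurd d e).imp fun _ e => ⟨e.1, e.2.2⟩

theorem exists_long (ξ : OO) (a : AA) : ∃ b ≤ a, ξ < b.δ := by
  induction ξ using WellFoundedLT.induction generalizing a with
  | ind ξ ih =>
  obtain ⟨b, b1, b2⟩ := closed_AA.exists_all (mk_Iio_OO ξ) (R := fun η s => η.1 < s.δ)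
    (fun _ _ _ c d => d.trans_le c.1) (s := a) fun η s _ => ih η η.2 s
  obtain ⟨c, c1, c2, -⟩ := step (T := Unit) (mk_le_aleph0.trans aleph0_le_continuum) b
    (Φ := fun _ _ _ => True) (fun _ _ => @measurable_const _ _ _ (det b) _) (by simp) (by simp)
    fun U p k h => countable_univ_iff.1 (b.ccc.indexed (g := fun x => rs (Iio b.δ) (p x))
      (fun _ => bd_rs _ _) fun x _ y _ e ⟨r, r1, r2⟩ => by
        obtain ⟨w, d1, d2⟩ := exists_world ⟨b, r⟩ (h x y e ())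
        exact d2 ⟨_, d1, (mk_le r1).trans (up_le (t := ⟨b, p x⟩) le_rfl)⟩
          ⟨_, d1, (mk_le r2).trans (up_le (t := ⟨b, p y⟩) le_rfl)⟩ trivial trivial)
  exact ⟨c, c1.trans b1, lt_of_le_of_lt (not_lt.1 fun d => lt_irrefl _ (b2 ⟨_, d⟩)) c2⟩

theorem exists_long' (ξ : OO) (t : TT) : ∃ s ≤ t, ξ < s.a.δ :=
  let ⟨_, b1, b2⟩ := exists_long ξ t.a; ⟨_, up_le b1, b2⟩

open Classical in
/-- the Cohen real added at the coordinate `ξ` -/
noncomputable def TR (ξ : OO) (w : World TT) (n : ℕ) : Bool :=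
  decide (w.Frc fun t => ξ < t.a.δ ∧ ∃ l : List Bool, l.length = n ∧ true :: l <:+ (t.p ξ).s)

theorem meas_TR (ξ : OO) : Measurable (TR ξ) := measurable_pi_iff.2 fun _ => by
  classical
  exact meas_decide (measurable_frc fun _ _ c ⟨d, l, e, f⟩ =>
    ⟨d.trans_le c.1.1, l, e, f.trans (le_at c d).1⟩)

theorem res_TR {w : World TT} (hw : w.Generic) (h : w.Has t) (c : ξ < t.a.δ) {l : List Bool} :
    l <:+ (t.p ξ).s → res (TR ξ w) l.length = l := by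
  classical
  obtain ⟨u, u1, u2⟩ := h
  induction l with
  | nil => simp
  | cons b l ih =>
    intro d
    rw [List.length_cons, res_succ, ih ((List.suffix_cons _ _).trans d)]
    have e := d.trans (le_at u2 c).1
    congr 1
    cases b
    · refine decide_eq_false fun ⟨v, v1, v2, l', v3, v4⟩ => ?_
      obtain ⟨r, -, r1, r2⟩ := hw.dir u u1 v v1
      simpa using (List.suffix_of_suffix_length_le (e.trans (le_at r1 (c.trans_le u2.1.1)).1)
        (v4.trans (le_at r2 v2).1) (by simp [v3])).eq_of_length (by simp [v3])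
    · exact decide_eq_true ⟨u, u1, c.trans_le u2.1.1, l, rfl, e⟩

theorem ext_s (t : TT) (ξ : OO) {σ : List Bool} (h : (t.p ξ).s <:+ σ) :
    ∃ s ≤ t, s.a = t.a ∧ (s.p ξ).s = σ ∧ ∀ η, η ≠ ξ → s.p η = t.p η := by
  classical
  exact ⟨⟨t.a, t.p.update ξ ⟨(t.p ξ).i, σ⟩⟩, mk_le (upd_le h .refl), rfl, by simp,
    fun η c => by simp [c]⟩

theorem ev_TR_ne {η : OO} (h : ξ ≠ η) : ∀ᶠ w in gen TT, TR ξ w ≠ TR η w := ev_of_dense fun t => by
  obtain ⟨s, s1, s2⟩ := exists_long' (max ξ η) t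
  obtain ⟨u, u1, u2, u3, u4⟩ := ext_s s ξ (σ := true :: (List.replicate (s.p η).s.length true ++
    (s.p ξ).s)) ((List.suffix_append _ _).trans (List.suffix_cons _ _))
  obtain ⟨v, v1, v2, v3, v4⟩ := ext_s u η (σ := false :: (List.replicate (s.p ξ).s.length true ++
    (s.p η).s)) (u4 η h.symm ▸ (List.suffix_append _ _).trans (List.suffix_cons _ _))
  refine ⟨v, v1.trans (u1.trans s1), ev_generic.mono fun w c d e => ?_⟩
  rw [← u2, ← v2, max_lt_iff] at s2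
  have e1 := res_TR c d s2.1 List.suffix_rfl
  have e2 := res_TR c d s2.2 List.suffix_rfl
  rw [v4 ξ h, u3] at e1
  rw [v3] at e2
  simp only [List.length_cons, List.length_append, List.length_replicate] at e1 e2
  rw [e, add_comm (s.p η).s.length, e2] at e1
  simp at e1

theorem cohen {S : List Bool → World TT → Prop} (h : ∀ σ, Measurable[det a] (S σ)) :
    Sem (⟨a, 0⟩ : TT) fun w => (∀ n, S (res (TR a.δ w) n) w) →
      ∃ N, ∀ σ, res (TR a.δ w) N <:+ σ → S σ w := sem_of_dense fun t c => by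
  obtain ⟨s, s1, s2⟩ := exists_long' a.δ t
  by_cases d : ∀ σ, (s.p a.δ).s <:+ σ → Sem s (S σ)
  · refine ⟨s, s1, ?_⟩
    filter_upwards [ev_generic, ev_call fun σ => ev_imp (d σ)] with w e1 e2 e3 _
    exact ⟨_, fun σ f => e2 σ (res_TR e1 e3 s2 List.suffix_rfl ▸ f) e3⟩
  · push Not at d
    obtain ⟨σ, d1, d2⟩ := d
    obtain ⟨u, u1, u2⟩ := exists_sem (det_iff.1 (h σ)).1.not fun e => d2 (e.imp' fun _ => not_not.1)
    obtain ⟨v, v1, v2, v3, v4⟩ := ext_s s a.δ d1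
    have c1 := s1.1.trans c.1
    have c2 := u1.trans (le_proj c1)
    obtain ⟨r, r1, r2⟩ := amal (s := u) (t := v) ⟨c2.1, (congrArg _
      (rs_congr fun η f => (v4 η (ne_of_lt f)).symm)).mp c2.2⟩ (v2 ▸ c1)
    refine ⟨r, r1.trans (v1.trans s1), ?_⟩
    filter_upwards [ev_generic, ((det_iff.1 (@Measurable.not _ (det a) _ (h σ))).2 u c2.1 u2).mono r2]
      with w e1 e2 e3 e4
    have e5 := res_TR e1 (e3.mono r1) (v2 ▸ s2) List.suffix_rfl
    rw [v3] at e5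
    exact absurd (e5 ▸ e4 σ.length) (e2 e3)

end Pool.Agent.P.MP_b49e67_gt.MA
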